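import Pool.Agent.Lib.MP_5ddd96_lc.H38.Branch

/-!
No increasing sequence of smooth relations on injective sequences absorbs the shift and the
changes on an infinite set of places while keeping common values.
-/

set_option autoImplicit false

namespace Pool.Agent.Lib.MP_5ddd96_lc.H38

open Filter Function

def Rn (U : Ultrafilter ℕ) (P : ℕ → Set (ℕ → ℕ)) (n : ℕ) (s t : St) : Prop :=
  ∃ Y, Closed2 U ext Y ∧ (s, t) ∈ Y ∧
    ∀ p ∈ Y, ∀ k, Forces U p.1.1 (P (Nat.pair n k)) ↔ Forces U p.2.1 (P (Nat.pair n k))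

def Fn (P : ℕ → Set (ℕ → ℕ)) (n : ℕ) (A B : ℕ → ℕ) : Prop :=
  ∀ k, A ∈ P (Nat.pair n k) ↔ B ∈ P (Nat.pair n k)

def Dif (U : Ultrafilter ℕ) (P : ℕ → Set (ℕ → ℕ)) (n : ℕ) (q : St × St) : Prop :=
  ∃ k, Nat.pair n k ≤ q.1.1.length ∧ Nat.pair n k ≤ q.2.1.length ∧
    ¬ (Forces U q.1.1 (P (Nat.pair n k)) ↔ Forces U q.2.1 (P (Nat.pair n k)))

variable {U : Ultrafilter ℕ} {P : ℕ → Set (ℕ → ℕ)} {G : List ℕ → Set ℕ}

theorem cong_Rn (n : ℕ) : Cong U ext (Rn U P n) := by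
  refine ⟨⟨fun s => ⟨{p | p.1 = p.2}, fun p hp => Eventually.of_forall fun a => ?_, rfl,
    fun p hp k => ?_⟩, ?_, ?_⟩, ?_⟩
  · exact congrArg (ext · a) hp
  · rw [show p.1 = p.2 from hp]
  · rintro s t ⟨Y, h1, h2, h3⟩
    exact ⟨{p | (p.2, p.1) ∈ Y}, fun p hp => h1 _ hp, h2, fun p hp k => (h3 _ hp k).symm⟩
  · rintro s t w ⟨Y, h1, h2, h3⟩ ⟨Y', h1', h2', h3'⟩
    refine ⟨{p | ∃ v, (p.1, v) ∈ Y ∧ (v, p.2) ∈ Y'}, ?_, ⟨t, h2, h2'⟩, ?_⟩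
    · rintro p ⟨v, a1, a2⟩
      exact ((h1 _ a1).and (h1' _ a2)).mono fun a ha => ⟨_, ha⟩
    · rintro p ⟨v, a1, a2⟩ k
      exact (h3 _ a1 k).trans (h3' _ a2 k)
  · rintro s t ⟨Y, h1, h2, h3⟩
    exact (h1 _ h2).mono fun a ha => ⟨Y, h1, ha, h3⟩

variable (hU : ∀ l : List ℕ, ∀ᶠ a in U, a ∉ l) (hG : ∀ t, G t ∈ U)
  (hP : ∀ A i, (∀ j, i ≤ j → A j ∈ G (pre A j)) →
    ∀ j, i ≤ j → ∀ k ≤ j, (A ∈ P k ↔ Forces U (pre A j) (P k)))

include hP in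
theorem lim3 {Y : Set (St × St)} {Q : ℕ → St × St → Prop} (hY : Y.Nonempty)
    (h : ∀ n, ∀ p ∈ Y, ∃ q ∈ Y, Stage G p q ∧ Q n q) :
    ∃ A B : ℕ → ℕ, Injective A ∧ Injective B ∧ ∀ n, ∃ q ∈ Y, Q n q ∧ n < q.1.1.length ∧
      n < q.2.1.length ∧ (∀ i < q.1.1.length, q.1.1.getD i 0 = A i) ∧
      (∀ i < q.2.1.length, q.2.1.getD i 0 = B i) ∧
      (∀ k ≤ q.1.1.length, (A ∈ P k ↔ Forces U q.1.1 (P k))) ∧
      ∀ k ≤ q.2.1.length, (B ∈ P k ↔ Forces U q.2.1 (P k)) := by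
  obtain ⟨A, B, i, j, a1, b1, a2, b2, h⟩ := lim2 hY h
  refine ⟨A, B, a1, b1, fun n => ?_⟩
  obtain ⟨q, q1, q2, q3, q4, q5, q6, q7, q8⟩ := h n
  refine ⟨q, q1, q2, q3, q4, fun m hm => ?_, fun m hm => ?_, fun k hk => ?_, fun k hk => ?_⟩
  · rw [← getD_pre A hm, q7]
  · rw [← getD_pre B hm, q8]
  · rw [hP A i a2 _ q5 k hk, q7]
  · rw [hP B j b2 _ q6 k hk, q8]

include hP in
theorem lim4 {Y : Set (St × St)} (hY : Y.Nonempty)
    (h : ∀ n, ∀ p ∈ Y, ∃ q ∈ Y, Stage G p q ∧ Dif U P n q) :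
    ∃ A B : ℕ → ℕ, Injective A ∧ Injective B ∧ (∀ n, ¬ Fn P n A B) ∧ ∀ n, ∃ q ∈ Y,
      n < q.1.1.length ∧ n < q.2.1.length ∧ (∀ i < q.1.1.length, q.1.1.getD i 0 = A i) ∧
      ∀ i < q.2.1.length, q.2.1.getD i 0 = B i := by
  obtain ⟨A, B, a1, b1, h⟩ := lim3 hP hY h
  refine ⟨A, B, a1, b1, fun n hn => ?_, fun n => ?_⟩
  · obtain ⟨q, -, ⟨k, k1, k2, k3⟩, -, -, -, -, q1, q2⟩ := h n
    exact k3 ((q1 _ k1).symm.trans ((hn k).trans (q2 _ k2)))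
  · obtain ⟨q, q0, -, q1, q2, q3, q4, -⟩ := h n
    exact ⟨q, q0, q1, q2, q3, q4⟩

include hU hG

theorem stage {Y : Set (St × St)} (hY : Closed2 U ext Y) {p : St × St} (hp : p ∈ Y) :
    ∃ q ∈ Y, Stage G p q := by
  obtain ⟨q, h1, h2, h3, h4, h5⟩ := long hU hG hY hp 1
  exact ⟨q, h1, ⟨h2, by omega⟩, h3, by omega⟩

theorem sep {Y : Set (St × St)} (hY : Closed2 U ext Y) {p : St × St} (hp : p ∈ Y) {n : ℕ}
    (hn : ¬ Rn U P n p.1 p.2) : ∃ q ∈ Y, Stage G p q ∧ Dif U P n q := by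
  have : ¬ ∀ q ∈ {q | q ∈ Y ∧ Fol G p.1.1 q.1.1 ∧ Fol G p.2.1 q.2.1}, ∀ k,
      Forces U q.1.1 (P (Nat.pair n k)) ↔ Forces U q.2.1 (P (Nat.pair n k)) := fun h =>
    hn ⟨_, closed_fol hU hG hY p, ⟨hp, Fol.refl _, Fol.refl _⟩, h⟩
  simp only [not_forall] at this
  obtain ⟨q, ⟨q1, q2, q3⟩, k, hk⟩ := this
  obtain ⟨w, ⟨w1, w2, w3⟩, w4, w5, w6, w7⟩ := long hU hG
    (closed_keep hU hY (P (Nat.pair n k)) (Forces U q.1.1 (P (Nat.pair n k)))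
      (Forces U q.2.1 (P (Nat.pair n k)))) (p := q) ⟨q1, Iff.rfl, Iff.rfl⟩ (Nat.pair n k + 1)
  have := q2.1
  have := q3.1
  exact ⟨w, w1, ⟨⟨q2.trans w4, by omega⟩, q3.trans w5, by omega⟩, k, by omega, by omega,
    fun h => hk (w2.symm.trans (h.trans w3))⟩

include hP

theorem mono_Rn (mono : ∀ n A B, Injective A → Injective B → Fn P n A B → Fn P (n + 1) A B) :
    Monotone (Rn U P) := by
  refine monotone_nat_of_le_succ fun n s t ⟨Y, h1, h2, h3⟩ => ⟨Y, h1, h2, fun p hp k => ?_⟩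
  have hc := closed_keep hU h1 (P (Nat.pair (n + 1) k)) (Forces U p.1.1 (P (Nat.pair (n + 1) k)))
    (Forces U p.2.1 (P (Nat.pair (n + 1) k)))
  obtain ⟨A, B, a1, b1, h⟩ := lim3 hP (Q := fun _ _ => True) (Y := {q | q ∈ Y ∧
      (Forces U q.1.1 (P (Nat.pair (n + 1) k)) ↔ Forces U p.1.1 (P (Nat.pair (n + 1) k))) ∧
      (Forces U q.2.1 (P (Nat.pair (n + 1) k)) ↔ Forces U p.2.1 (P (Nat.pair (n + 1) k)))})
    ⟨p, hp, Iff.rfl, Iff.rfl⟩ fun _ q hq => by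
      obtain ⟨w, w1, w2⟩ := stage hU hG hc hq
      exact ⟨w, w1, w2, trivial⟩
  have hF := mono n A B a1 b1 (fun j => by
    obtain ⟨q, q0, -, q1, q2, -, -, q3, q4⟩ := h (Nat.pair n j)
    exact (q3 _ q1.le).trans ((h3 q q0.1 j).trans (q4 _ q2.le).symm)) k
  obtain ⟨q, q0, -, q1, q2, -, -, q3, q4⟩ := h (Nat.pair (n + 1) k)
  exact q0.2.1.symm.trans ((q3 _ q1.le).symm.trans (hF.trans ((q4 _ q2.le).trans q0.2.2)))

theorem hyp1 (ha : ∀ A B N, Injective A → Injective B → (∀ m, N ≤ m → A (m + 1) = B m) →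
      ∃ n, Fn P n A B) (s : St) :
    ∀ᶠ b in U, ∀ Y, Closed2 U ext Y → (ext s b, s) ∈ Y → ∃ p ∈ Y, ∃ n, Rn U P n p.1 p.2 := by
  filter_upwards [hU s.1] with b hb Y hY hs
  by_contra hn
  push Not at hn
  have hc : Closed2 U ext {p | p ∈ Y ∧ p.1.1.length = p.2.1.length + 1 ∧
      ∀ m, s.1.length ≤ m → p.1.1.getD (m + 1) 0 = p.2.1.getD m 0} := by
    rintro p ⟨p1, p2, p3⟩
    filter_upwards [hY p p1, hU p.1.1, hU p.2.1] with a a1 a2 a3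
    refine ⟨a1, ?_, fun m hm => ?_⟩
    · rw [ext_val a2, ext_val a3]; simp [p2]
    · rw [ext_val a2, ext_val a3, getD_snoc, getD_snoc, p2, p3 m hm]; simp
  obtain ⟨A, B, a1, b1, h1, h2⟩ := lim4 hP (Y := {p | p ∈ Y ∧ p.1.1.length = p.2.1.length + 1 ∧
      ∀ m, s.1.length ≤ m → p.1.1.getD (m + 1) 0 = p.2.1.getD m 0})
    ⟨(ext s b, s), hs, by simp [ext_val hb], fun m hm => by
      rw [List.getD_eq_default _ _ hm, List.getD_eq_default]; simp [ext_val hb, hm]⟩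
    fun n p hp => sep hU hG hc hp (hn p hp.1 n)
  obtain ⟨n, hF⟩ := ha A B s.1.length a1 b1 fun m hm => by
    obtain ⟨q, q0, q1, q2, q3, q4⟩ := h2 (m + 1)
    rw [← q3 _ q1, ← q4 m (by omega), q0.2.2 m hm]
  exact h1 n hF

theorem hyp2 (hc : ∀ n A B, Injective A → Injective B → Fn P n A B →
      ∀ N, ∃ i j, N ≤ i ∧ N ≤ j ∧ A i = B j) (n : ℕ) : ¬ Dead U ext (Rn U P n) := by
  rintro ⟨Z, ⟨s, hs⟩, hZ, hN⟩
  have q := cong_Rn (U := U) (P := P) n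
  obtain ⟨A, B, a1, b1, h⟩ := lim3 hP (Q := fun _ _ => True)
    (Y := {p | p.1 ∈ Z ∧ Rn U P n p.1 p.2 ∧ s.1.length ≤ p.1.1.length ∧
      s.1.length ≤ p.2.1.length ∧ ∀ i j, s.1.length ≤ i → s.1.length ≤ j →
      i < p.1.1.length → j < p.2.1.length → p.1.1.getD i 0 ≠ p.2.1.getD j 0})
    ⟨(s, s), hs, q.eqv.refl s, le_rfl, le_rfl, fun i j h1 _ h2 _ => absurd h2 (not_lt.mpr h1)⟩ (by
      rintro _ ⟨x, y⟩ ⟨p1, p2, p3, p4, p5⟩
      dsimp only at p1 p2 p3 p4 p5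
      obtain ⟨a, ⟨a1, a2⟩, ⟨a3, a4⟩, a5⟩ :=
        (((hZ x p1).and (hN x p1)).and (((hU x.1).and (hU y.1)).and (hG x.1))).exists
      obtain ⟨c, ⟨c1, c2⟩, ⟨c3, c4⟩, c5⟩ := ((a2.and (q.step _ _ p2)).and
        (((hU (x.1 ++ [a])).and (hU y.1)).and (hG y.1))).exists
      refine ⟨(ext x a, ext y c), ⟨a1, q.eqv.trans c1 c2, ?_, ?_, fun i j h1 h2 h3 h4 => ?_⟩,
        ⟨⟨?_, ?_⟩, ?_, ?_⟩, trivial⟩
      all_goals dsimp only at *
      all_goals simp only [ext_val a3, ext_val c4] at *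
      · simp; omega
      · simp; omega
      · rw [getD_snoc y.1]
        split_ifs with hj
        · exact fun h => c3 (h ▸ getD_mem h3)
        · have h5 : j < y.1.length := by simp at h4; omega
          rw [getD_snoc]
          split_ifs with hi
          · exact fun h => a4 (h ▸ getD_mem h5)
          · exact p5 i j h1 h2 (by simp at h3; omega) h5
      · exact (Fol.refl _).snoc a5
      · simp
      · exact (Fol.refl _).snoc c5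
      · simp)
  obtain ⟨i, j, h1, h2, h3⟩ := hc n A B a1 b1 (fun k => by
    obtain ⟨w, ⟨-, ⟨Y, -, y2, y3⟩, -⟩, -, q1, q2, -, -, q3, q4⟩ := h (Nat.pair n k)
    exact (q3 _ q1.le).trans ((y3 _ y2 k).trans (q4 _ q2.le).symm)) s.1.length
  obtain ⟨w, w0, -, q1, q2, q3, q4, -⟩ := h (i + j)
  exact w0.2.2.2.2 i j h1 h2 (by omega) (by omega)
    (by rw [q3 i (by omega), q4 j (by omega), h3])

theorem hyp3 {I : Set ℕ} (hI : ∀ m, ∃ i ∈ I, m ≤ i)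
    (hb : ∀ A B, Injective A → Injective B → (∀ i ∉ I, A i = B i) → ∃ n, Fn P n A B)
    (Z : Set St) (hne : Z.Nonempty) (hZ : Closed U ext Z) :
    ∃ z ∈ Z, ∃ n, Nm U ext (Rn U P n) z := by
  by_contra hn
  push Not at hn
  obtain ⟨s, hs⟩ := hne
  have hc : Closed2 U ext {p | p.1 ∈ Z ∧ p.1.1.length = p.2.1.length ∧
      ∀ i ∉ I, p.1.1.getD i 0 = p.2.1.getD i 0} := by
    rintro p ⟨p1, p2, p3⟩
    filter_upwards [hZ _ p1, hU p.1.1, hU p.2.1] with a a1 a2 a3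
    refine ⟨a1, ?_, fun m hm => ?_⟩
    · rw [ext_val a2, ext_val a3]; simp [p2]
    · rw [ext_val a2, ext_val a3, getD_snoc, getD_snoc, p2, p3 m hm]
  obtain ⟨A, B, a1, b1, h1, h2⟩ := lim4 hP (Y := {p | p.1 ∈ Z ∧ p.1.1.length = p.2.1.length ∧
      ∀ i ∉ I, p.1.1.getD i 0 = p.2.1.getD i 0}) ⟨(s, s), hs, rfl, fun _ _ => rfl⟩ (by
    intro n p hp
    have q := cong_Rn (U := U) (P := P) n
    obtain ⟨l, hl, hpl⟩ := hI p.1.1.length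
    obtain ⟨⟨x, y⟩, ⟨w1, w2, w3⟩, w4, w5, w6, -⟩ := long hU hG hc hp (l - p.1.1.length)
    dsimp only at w1 w2 w3 w4 w5 w6
    have h0 : ∀ᶠ a in U, ∀ᶠ c in U, ¬ Rn U P n (ext x a) (ext y c) := by
      by_contra h
      have h' : ∀ᶠ a in U, ∀ᶠ c in U, Rn U P n (ext x a) (ext y c) :=
        (Ultrafilter.eventually_not.mpr h).mono fun a ha =>
          (Ultrafilter.eventually_not.mpr ha).mono fun c hc => not_not.mp hc
      refine hn x w1 n (h'.mono fun a ha => h'.mono fun b hb => ?_)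
      obtain ⟨c, c1, c2⟩ := (ha.and hb).exists
      exact q.eqv.trans c1 (q.eqv.symm c2)
    obtain ⟨a, ⟨a1, a2⟩, a3, a4⟩ := ((h0.and (hZ x w1)).and ((hU x.1).and (hG x.1))).exists
    obtain ⟨c, c1, c3, c4⟩ := (a1.and ((hU y.1).and (hG y.1))).exists
    obtain ⟨w, v1, ⟨⟨v2, v3⟩, v4, v5⟩, v6⟩ := sep hU hG hc (p := (ext x a, ext y c)) ⟨a2, by
      simp [ext_val a3, ext_val c3, w2], fun i hi => by
        have : i ≠ y.1.length := fun h => hi (by rw [h, ← w2, w6, Nat.add_sub_cancel' hpl]; exact hl)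
        rw [ext_val a3, ext_val c3, getD_snoc, getD_snoc, w2, if_neg this, if_neg this,
          w3 i hi]⟩ c1
    simp only [ext_val a3, ext_val c3, List.length_append] at v2 v3 v4 v5
    have := w4.1
    have := w5.1
    exact ⟨w, v1, ⟨⟨(w4.snoc a4).trans v2, by omega⟩, (w5.snoc c4).trans v4, by omega⟩, v6⟩)
  obtain ⟨n, hF⟩ := hb A B a1 b1 fun i hi => by
    obtain ⟨q, q0, q1, q2, q3, q4⟩ := h2 i
    rw [← q3 _ q1, ← q4 _ q2, q0.2.2 i hi]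
  exact h1 n hF

omit hU hG hP in
theorem no_chain (hm : ∀ k, MeasurableSet (P k)) {I : Set ℕ} (hI : ∀ m, ∃ i ∈ I, m ≤ i)
    (mono : ∀ n A B, Injective A → Injective B → Fn P n A B → Fn P (n + 1) A B)
    (ha : ∀ A B N, Injective A → Injective B → (∀ m, N ≤ m → A (m + 1) = B m) → ∃ n, Fn P n A B)
    (hb : ∀ A B, Injective A → Injective B → (∀ i ∉ I, A i = B i) → ∃ n, Fn P n A B)
    (hc : ∀ n A B, Injective A → Injective B → Fn P n A B →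
      ∀ N, ∃ i j, N ≤ i ∧ N ≤ j ∧ A i = B j) : False := by
  have hU : ∀ l : List ℕ, ∀ᶠ a in hyperfilter ℕ, a ∉ l := fun l =>
    (List.finite_toSet l).compl_mem_hyperfilter
  obtain ⟨G, hG, hP⟩ := uni (U := hyperfilter ℕ) fun k => dec_of_measurable (hm k)
  have : Nonempty St := ⟨⟨[], List.nodup_nil⟩⟩
  exact core (hyp1 hU hG hP ha) (hyp3 hU hG hP hI hb) cong_Rn (mono_Rn hU hG hP mono)
    (hyp2 hU hG hP hc)

end Pool.Agent.Lib.MP_5ddd96_lc.H38
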