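import Mathlib

set_option autoImplicit false

namespace Pool.Agent.Lib.MP_5ddd96_lc.H38

/-- Injective arrays of natural numbers, a closed subspace of the Baire space on `ℕ × ℕ`. -/
abbrev Arr : Type := {x : ℕ × ℕ → ℕ // Function.Injective x}

/-- The shift of an array by the vector `a`. -/
def shift (a : ℕ × ℕ) (x : Arr) : Arr :=
  ⟨fun q => x.1 (q + a), x.2.comp (add_left_injective a)⟩

/-- The equivalence relation generated by two maps. -/
def Gen {Z : Type} (T S : Z → Z) : Z → Z → Prop :=
  Relation.EqvGen fun x y => y = T x ∨ y = S x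

/-- A relation is smooth if it is the kernel of a Borel map to the reals. -/
def Smooth {Z : Type} [MeasurableSpace Z] (F : Z → Z → Prop) : Prop :=
  ∃ φ : Z → ℝ, Measurable φ ∧ ∀ x y, F x y ↔ φ x = φ y

/-- A relation is hypersmooth if it is an increasing union of smooth relations. -/
def Hypersmooth {Z : Type} [MeasurableSpace Z] (E : Z → Z → Prop) : Prop :=
  ∃ F : ℕ → Z → Z → Prop, (∀ n, Smooth (F n)) ∧ Monotone F ∧ ∀ x y, E x y ↔ ∃ n, F n x y

/-- Hypersmooth on an invariant Borel set of full measure, for every Borel probability measure. -/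
def MeasureHypersmooth {Z : Type} [MeasurableSpace Z] (E : Z → Z → Prop) : Prop :=
  ∀ μ : MeasureTheory.Measure Z, MeasureTheory.IsProbabilityMeasure μ →
    ∃ Y : Set Z, MeasurableSet Y ∧ μ Y = 1 ∧ (∀ x y, E x y → x ∈ Y → y ∈ Y) ∧
      Hypersmooth fun x y : Y => E x.1 y.1

end Pool.Agent.Lib.MP_5ddd96_lc.H38
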