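import Pool.Agent.Lib.MP_5ddd96_lc.H38.Abs
import Pool.Agent.Lib.MP_5ddd96_lc.H38.Defs

/-!
The relation generated by the two shifts is not hypersmooth.
-/

set_option autoImplicit false

namespace Pool.Agent.Lib.MP_5ddd96_lc.H38

open Function

abbrev EE : Arr → Arr → Prop := Gen (shift (1, 0)) (shift (0, 1))

theorem shift_shift (a b : ℕ × ℕ) (x : Arr) : shift a (shift b x) = shift (a + b) x :=
  Subtype.ext (funext fun q => by simp [shift, add_assoc])

theorem EE_shift (a : ℕ × ℕ) (x : Arr) : EE x (shift a x) := by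
  obtain ⟨i, j⟩ := a
  induction i with
  | zero =>
    induction j with
    | zero => exact (show shift (0, 0) x = x from Subtype.ext (funext fun q => rfl)).symm ▸ .refl x
    | succ j ih =>
      refine .trans _ _ _ ih (.rel _ _ (Or.inr ?_))
      rw [shift_shift]; simp [add_comm]
  | succ i ih =>
    refine .trans _ _ _ ih (.rel _ _ (Or.inl ?_))
    rw [shift_shift]; simp [add_comm]

theorem EE_iff (x y : Arr) : EE x y ↔ ∃ a b, shift a x = shift b y := by
  constructor
  · intro h
    induction h with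
    | rel x y h =>
      rcases h with rfl | rfl
      · exact ⟨(1, 0), 0, by rw [shift_shift, zero_add]⟩
      · exact ⟨(0, 1), 0, by rw [shift_shift, zero_add]⟩
    | refl x => exact ⟨0, 0, rfl⟩
    | symm x y _ ih => obtain ⟨a, b, h⟩ := ih; exact ⟨b, a, h.symm⟩
    | trans x y z _ _ ih ih' =>
      obtain ⟨a, b, h⟩ := ih
      obtain ⟨c, d, h'⟩ := ih'
      exact ⟨c + a, b + d, by
        rw [← shift_shift, h, shift_shift, add_comm, ← shift_shift, h', shift_shift]⟩
  · rintro ⟨a, b, h⟩
    exact .trans _ _ _ (EE_shift a x) (h ▸ .symm _ _ (EE_shift b y))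

def tri : ℕ → ℕ
  | 0 => 0
  | n + 1 => tri n + n + 1

/-- The array is listed along the antidiagonals. -/
def pos (q : ℕ × ℕ) : ℕ := tri (q.1 + q.2) + q.1

theorem tri_mono : Monotone tri := monotone_nat_of_le_succ fun n => by simp [tri]; omega

theorem pos_inj : Injective pos := by
  rintro ⟨a, b⟩ ⟨c, d⟩ h
  simp only [pos] at h
  have : a + b = c + d := by
    rcases lt_trichotomy (a + b) (c + d) with h1 | h1 | h1
    · have := tri_mono (Nat.succ_le_of_lt h1); simp only [tri] at this; omega
    · exact h1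
    · have := tri_mono (Nat.succ_le_of_lt h1); simp only [tri] at this; omega
  rw [this] at h
  ext <;> simp <;> omega

def arr (A : ℕ → ℕ) (h : Injective A) : Arr := ⟨fun q => A (pos q), h.comp pos_inj⟩

theorem not_hypersmooth : ¬ Hypersmooth EE := by
  rintro ⟨F, hs, hmono, hE⟩
  choose φ hφ hF using hs
  let P : ℕ → Set (ℕ → ℕ) := fun k => (fun (A : ℕ → ℕ) (q : ℕ × ℕ) => A (pos q)) ⁻¹'
    (Subtype.val '' {x : Arr | φ k.unpair.1 x < (Denumerable.ofNat ℚ k.unpair.2 : ℚ)})
  have hinj : MeasurableSet {x : ℕ × ℕ → ℕ | Injective x} := by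
    simp only [Injective, Set.ofPred_forall]
    refine MeasurableSet.iInter fun a => MeasurableSet.iInter fun b => ?_
    by_cases h : a = b
    · simp [h]
    · simp only [h, imp_false]
      exact (measurableSet_eq_fun (measurable_pi_apply a) (measurable_pi_apply b)).compl
  have hP : ∀ n A B (hA : Injective A) (hB : Injective B),
      Fn P n A B ↔ F n (arr A hA) (arr B hB) := fun n A B hA hB => by
    have hm : ∀ A (hA : Injective A) k, A ∈ P (Nat.pair n k) ↔
        φ n (arr A hA) < (Denumerable.ofNat ℚ k : ℚ) := fun A hA k => by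
      simp only [P, Nat.unpair_pair, Set.mem_preimage]
      exact Subtype.val_injective.mem_set_image (a := arr A hA)
    simp only [Fn, hm A hA, hm B hB, hF]
    refine ⟨fun h => ?_, fun h k => by rw [h]⟩
    have h' : ∀ q : ℚ, φ n (arr A hA) < q ↔ φ n (arr B hB) < q := fun q => by
      obtain ⟨k, rfl⟩ := (Denumerable.eqv ℚ).symm.surjective q
      exact h k
    rcases lt_trichotomy (φ n (arr A hA)) (φ n (arr B hB)) with h1 | h1 | h1
    · obtain ⟨q, q1, q2⟩ := exists_rat_btwn h1
      exact absurd ((h' q).mp q1) q2.not_gt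
    · exact h1
    · obtain ⟨q, q1, q2⟩ := exists_rat_btwn h1
      exact absurd ((h' q).mpr q1) q2.not_gt
  refine no_chain (P := P) (I := Set.range fun m => pos (m, 0)) (fun k => ?_)
    (fun m => ⟨_, ⟨m, rfl⟩, by simp [pos]⟩) (fun n A B hA hB h => ?_) (fun A B N hA hB h => ?_)
    (fun A B hA hB h => ?_) fun n A B hA hB h N => ?_
  · exact (measurable_pi_lambda _ fun q => measurable_pi_apply _)
      (hinj.subtype_image (measurableSet_lt (hφ _) measurable_const))
  · exact (hP _ _ _ hA hB).mpr (hmono n.le_succ _ _ ((hP _ _ _ hA hB).mp h))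
  · simp only [hP _ _ _ hA hB]
    refine (hE _ _).mp ((EE_iff _ _).mpr ⟨(N + 1, 0), (N, 1), Subtype.ext (funext fun q => ?_)⟩)
    have e1 : pos (q + (N + 1, 0)) = pos (q + (N, 1)) + 1 := by
      simp only [pos, Prod.fst_add, Prod.snd_add]
      rw [show q.1 + (N + 1) + (q.2 + 0) = q.1 + N + (q.2 + 1) by omega]; omega
    change A (pos (q + (N + 1, 0))) = B (pos (q + (N, 1)))
    rw [e1]
    exact h _ (by simp only [pos, Prod.fst_add]; omega)
  · simp only [hP _ _ _ hA hB]
    refine (hE _ _).mp ((EE_iff _ _).mpr ⟨(0, 1), (0, 1), Subtype.ext (funext fun q => ?_)⟩)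
    refine h (pos (q + (0, 1))) ?_
    rintro ⟨m, hm⟩
    have := congrArg Prod.snd (pos_inj hm)
    simp at this
  · obtain ⟨a, b, h⟩ := (EE_iff _ _).mp ((hE _ _).mpr ⟨n, (hP _ _ _ hA hB).mp h⟩)
    refine ⟨pos ((N, 0) + a), pos ((N, 0) + b), ?_, ?_, congrFun (congrArg Subtype.val h) (N, 0)⟩
    all_goals simp only [pos, Prod.fst_add]; omega

end Pool.Agent.Lib.MP_5ddd96_lc.H38
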