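import Pool.Agent.Lib.MP_5ddd96_lc.H38.Lists
import Pool.Agent.Lib.MP_5ddd96_lc.H38.Neg

/-!
No increasing sequence of smooth relations on injective triangular arrays absorbs the column shift
and the changes in one row while keeping common values.
-/

set_option autoImplicit false

namespace Pool.Agent.Lib.MP_5ddd96_lc.H38

open Filter Function

theorem tri_lt : StrictMono tri := strictMono_nat_of_lt_succ fun n => by simp [tri]

theorem ex_tri (n : ℕ) : ∃ k, n < tri k := ⟨n + 1, tri_lt.id_le (n + 1)⟩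

def bl (s : St) : ℕ := tri (Nat.find (ex_tri s.1.length)) - s.1.length

theorem bl_tri {s : St} {k : ℕ} (h : s.1.length = tri k) : bl s = k + 1 := by
  have : Nat.find (ex_tri s.1.length) = k + 1 := (Nat.find_eq_iff _).mpr
    ⟨h ▸ tri_lt k.lt_succ_self, fun n hn => not_lt.mpr (h ▸ tri_mono (by omega))⟩
  rw [bl, this, h, tri]; omega

def app (s : St) (t : List ℕ) : St := if h : (s.1 ++ t).Nodup then ⟨_, h⟩ else s

abbrev ex (s : St) (t : List ℕ) : St := app s (t.take (bl s))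

def Ok (G : List ℕ → Set ℕ) (s : St) (t : List ℕ) : Prop :=
  (ex s t).1 = s.1 ++ t.take (bl s) ∧ bl s ≤ t.length ∧ Fol G s.1 (ex s t).1

variable {U : Ultrafilter ℕ} {P : ℕ → Set (ℕ → ℕ)} {G : List ℕ → Set ℕ}

theorem Ok.len {s : St} {t : List ℕ} (h : Ok G s t) : (ex s t).1.length = s.1.length + bl s := by
  rw [h.1]; simp [h.2.1]

theorem Ok.lev {s : St} {t : List ℕ} (h : Ok G s t) :
    (ex s t).1.length = tri (Nat.find (ex_tri s.1.length)) ∧ s.1.length < (ex s t).1.length := by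
  have := Nat.find_spec (ex_tri s.1.length)
  rw [h.len, bl]; omega

theorem V_keep (Q : Set (ℕ → ℕ)) (m : ℕ) : ∀ x : List ℕ,
    ∀ᶠ t : List ℕ in V U m, (Forces U (x ++ t) Q ↔ Forces U x Q) := by
  induction m with
  | zero => exact fun x => V_zero.mpr (by simp)
  | succ m ih =>
    exact fun x => V_succ.mpr ((forces_keep x Q).mono fun a ha => (ih (x ++ [a])).mono
      fun t ht => by rw [← ha, ← ht]; simp)

def Rm (U : Ultrafilter ℕ) (P : ℕ → Set (ℕ → ℕ)) (n : ℕ) (s t : St) : Prop :=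
  ∃ Y, Closed2 (W U) ex Y ∧ (s, t) ∈ Y ∧
    ∀ p ∈ Y, ∀ k, Forces U p.1.1 (P (Nat.pair n k)) ↔ Forces U p.2.1 (P (Nat.pair n k))

theorem cong_Rm (n : ℕ) : Cong (W U) ex (Rm U P n) := by
  refine ⟨⟨fun s => ⟨{p | p.1 = p.2}, fun p hp => Eventually.of_forall fun a => ?_, rfl,
    fun p hp k => ?_⟩, ?_, ?_⟩, ?_⟩
  · exact congrArg (ex · a) hp
  · rw [show p.1 = p.2 from hp]
  · rintro s t ⟨Y, h1, h2, h3⟩
    exact ⟨{p | (p.2, p.1) ∈ Y}, fun p hp => h1 _ hp, h2, fun p hp k => (h3 _ hp k).symm⟩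
  · rintro s t w ⟨Y, h1, h2, h3⟩ ⟨Y', h1', h2', h3'⟩
    refine ⟨{p | ∃ v, (p.1, v) ∈ Y ∧ (v, p.2) ∈ Y'}, ?_, ⟨t, h2, h2'⟩, ?_⟩
    · rintro p ⟨v, a1, a2⟩
      exact ((h1 _ a1).and (h1' _ a2)).mono fun a ha => ⟨_, ha⟩
    · rintro p ⟨v, a1, a2⟩ k
      exact (h3 _ a1 k).trans (h3' _ a2 k)
  · rintro s t ⟨Y, h1, h2, h3⟩
    exact (h1 _ h2).mono fun a ha => ⟨Y, h1, ha, h3⟩

/-- The two stems agree, block by block, up to `d` levels and outside row `r`. -/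
def Al (d r K : ℕ) (p : St × St) : Prop :=
  ∃ k, K ≤ k ∧ p.1.1.length = tri (k + d) ∧ p.2.1.length = tri k ∧ ∀ l j, K ≤ l → l < k → j ≤ l →
    j ≠ r → p.1.1.getD (tri (l + d) + j) 0 = p.2.1.getD (tri l + j) 0

theorem Al.step {d r K : ℕ} {x y : St} {a c : List ℕ} (h : Al d r K (x, y)) (ha : Ok G x a)
    (hc : Ok G y c) (hac : ∀ j, j ≠ r → a.getD j 0 = c.getD j 0) : Al d r K (ex x a, ex y c) := by
  obtain ⟨k, h1, h2, h3, h4⟩ := h
  dsimp only at h2 h3 h4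
  refine ⟨k + 1, by omega, ?_, ?_, fun l j a1 a2 a3 a4 => ?_⟩
  · rw [ha.len, bl_tri h2, h2, Nat.add_right_comm k 1 d, tri]; omega
  · rw [hc.len, bl_tri h3, h3, tri]; omega
  rw [ha.1, hc.1, bl_tri h2, bl_tri h3]
  rcases Nat.lt_succ_iff_lt_or_eq.mp a2 with a2 | rfl
  · have b1 := tri_mono (show l + d + 1 ≤ k + d by omega)
    have b2 := tri_mono (show l + 1 ≤ k by omega)
    simp only [tri] at b1 b2
    rw [List.getD_append _ _ _ _ (by omega), List.getD_append _ _ _ _ (by omega)]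
    exact h4 l j a1 a2 a3 a4
  · rw [List.getD_append_right _ _ _ _ (by omega), List.getD_append_right _ _ _ _ (by omega),
      h2, h3, Nat.add_sub_cancel_left, Nat.add_sub_cancel_left, getD_take _ (by omega),
      getD_take _ (by omega), hac j a4]

variable (hU : ∀ l : List ℕ, ∀ᶠ a in U, a ∉ l) (hG : ∀ t, G t ∈ U)
  (hP : ∀ A i, (∀ j, i ≤ j → A j ∈ G (pre A j)) →
    ∀ j, i ≤ j → ∀ k ≤ j, (A ∈ P k ↔ Forces U (pre A j) (P k)))

include hP in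
theorem al_lim (hab : ∀ d r K A B, Injective A → Injective B →
      (∀ k j, K ≤ k → j ≤ k → j ≠ r → A (tri (k + d) + j) = B (tri k + j)) → ∃ n, Fn P n A B)
    {d r K : ℕ} {Y : Set (St × St)} (hY : Y.Nonempty) (hA : ∀ p ∈ Y, Al d r K p)
    (h : ∀ n, ∀ p ∈ Y, ∃ q ∈ Y, Stage G p q ∧ Dif U P n q) : False := by
  obtain ⟨A, B, a1, b1, h1, h2⟩ := lim4 hP hY h
  obtain ⟨n, hF⟩ := hab d r K A B a1 b1 fun l j l1 l2 l3 => by
    obtain ⟨q, q0, q1, q2, q3, q4⟩ := h2 (tri (l + d) + j)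
    obtain ⟨k, -, -, k2, k3⟩ := hA q q0
    have := tri_mono (show l ≤ l + d by omega)
    rw [← q3 _ q1, ← q4 _ (by omega)]
    exact k3 l j l1 (tri_lt.lt_iff_lt.mp (by omega)) l2 l3
  exact h1 n hF

include hU

theorem W_avoid (l : List ℕ) : ∀ᶠ t : List ℕ in W U, ∀ v ∈ t, v ∉ l := by
  refine W_iff.mpr (.of_forall fun n => ?_)
  induction n with
  | zero => exact V_zero.mpr (by simp)
  | succ n ih =>
    exact V_succ.mpr ((hU l).mono fun a ha => ih.mono fun t ht =>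
      List.forall_mem_cons.mpr ⟨ha, ht⟩)

include hG

theorem V_fol (m : ℕ) : ∀ x : List ℕ, x.Nodup →
    ∀ᶠ t : List ℕ in V U m, (x ++ t).Nodup ∧ Fol G x (x ++ t) := by
  induction m with
  | zero => exact fun x hx => V_zero.mpr (by simpa using ⟨hx, Fol.refl x⟩)
  | succ m ih =>
    refine fun x hx => V_succ.mpr (((hU x).and (hG x)).mono fun a ha => ?_)
    refine (ih (x ++ [a]) (ext_val (s := ⟨x, hx⟩) ha.1 ▸ (ext ⟨x, hx⟩ a).2)).mono fun t ht => ?_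
    rw [List.append_cons]
    exact ⟨ht.1, ((Fol.refl x).snoc ha.2).trans ht.2⟩

theorem ok_ev (s : St) : ∀ᶠ t : List ℕ in W U, Ok G s t :=
  ((W_take (V_fol hU hG (bl s) s.1 s.2)).and (W_len (bl s))).mono fun t ht => by
    have : (ex s t).1 = s.1 ++ t.take (bl s) := by simp only [ex, app, dif_pos ht.1.1]
    exact ⟨this, ht.2, this ▸ ht.1.2⟩

theorem closed_fol2 {Y : Set (St × St)} (hY : Closed2 (W U) ex Y) (p : St × St) :
    Closed2 (W U) ex {q | q ∈ Y ∧ Fol G p.1.1 q.1.1 ∧ Fol G p.2.1 q.2.1} := by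
  rintro q ⟨h1, h2, h3⟩
  filter_upwards [hY q h1, ok_ev hU hG q.1, ok_ev hU hG q.2] with a a1 a2 a3
  exact ⟨a1, h2.trans a2.2.2, h3.trans a3.2.2⟩

theorem long2 {Y : Set (St × St)} (hY : Closed2 (W U) ex Y) {p : St × St} (hp : p ∈ Y) (m : ℕ) :
    ∃ q ∈ Y, Fol G p.1.1 q.1.1 ∧ Fol G p.2.1 q.2.1 ∧ p.1.1.length + m ≤ q.1.1.length ∧
      p.2.1.length + m ≤ q.2.1.length := by
  induction m with
  | zero => exact ⟨p, hp, Fol.refl _, Fol.refl _, le_rfl, le_rfl⟩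
  | succ m ih =>
    obtain ⟨q, h1, h2, h3, h4, h5⟩ := ih
    obtain ⟨a, a1, a2, a3⟩ := ((closed_fol2 hU hG hY p q ⟨h1, h2, h3⟩).and
      ((ok_ev hU hG q.1).and (ok_ev hU hG q.2))).exists
    exact ⟨_, a1.1, a1.2.1, a1.2.2, (Nat.succ_le_succ h4).trans a2.lev.2,
      (Nat.succ_le_succ h5).trans a3.lev.2⟩

theorem closed_keep2 {Y : Set (St × St)} (hY : Closed2 (W U) ex Y) (Q : Set (ℕ → ℕ))
    (a b : Prop) :
    Closed2 (W U) ex {q | q ∈ Y ∧ (Forces U q.1.1 Q ↔ a) ∧ (Forces U q.2.1 Q ↔ b)} := by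
  rintro q ⟨h1, h2, h3⟩
  filter_upwards [hY q h1, ok_ev hU hG q.1, ok_ev hU hG q.2, W_take (V_keep Q (bl q.1) q.1.1),
    W_take (V_keep Q (bl q.2) q.2.1)] with c a1 a2 a3 a4 a5
  exact ⟨a1, a2.1 ▸ a4.trans h2, a3.1 ▸ a5.trans h3⟩

theorem sep2 {Y : Set (St × St)} (hY : Closed2 (W U) ex Y) {p : St × St} (hp : p ∈ Y) {n : ℕ}
    (hn : ¬ Rm U P n p.1 p.2) : ∃ q ∈ Y, Stage G p q ∧ Dif U P n q := by
  have : ¬ ∀ q ∈ {q | q ∈ Y ∧ Fol G p.1.1 q.1.1 ∧ Fol G p.2.1 q.2.1}, ∀ k,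
      Forces U q.1.1 (P (Nat.pair n k)) ↔ Forces U q.2.1 (P (Nat.pair n k)) := fun h =>
    hn ⟨_, closed_fol2 hU hG hY p, ⟨hp, Fol.refl _, Fol.refl _⟩, h⟩
  simp only [not_forall] at this
  obtain ⟨q, ⟨q1, q2, q3⟩, k, hk⟩ := this
  obtain ⟨w, ⟨w1, w2, w3⟩, w4, w5, w6, w7⟩ := long2 hU hG
    (closed_keep2 hU hG hY (P (Nat.pair n k)) (Forces U q.1.1 (P (Nat.pair n k)))
      (Forces U q.2.1 (P (Nat.pair n k)))) (p := q) ⟨q1, Iff.rfl, Iff.rfl⟩ (Nat.pair n k + 1)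
  have := q2.1
  have := q3.1
  exact ⟨w, w1, ⟨⟨q2.trans w4, by omega⟩, q3.trans w5, by omega⟩, k, by omega, by omega,
    fun h => hk (w2.symm.trans (h.trans w3))⟩

include hP

theorem mono_Rm (mono : ∀ n A B, Injective A → Injective B → Fn P n A B → Fn P (n + 1) A B) :
    Monotone (Rm U P) := by
  refine monotone_nat_of_le_succ fun n s t ⟨Y, h1, h2, h3⟩ => ⟨Y, h1, h2, fun p hp k => ?_⟩
  have hc := closed_keep2 hU hG h1 (P (Nat.pair (n + 1) k))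
    (Forces U p.1.1 (P (Nat.pair (n + 1) k))) (Forces U p.2.1 (P (Nat.pair (n + 1) k)))
  obtain ⟨A, B, a1, b1, h⟩ := lim3 hP (Q := fun _ _ => True) (Y := {q | q ∈ Y ∧
      (Forces U q.1.1 (P (Nat.pair (n + 1) k)) ↔ Forces U p.1.1 (P (Nat.pair (n + 1) k))) ∧
      (Forces U q.2.1 (P (Nat.pair (n + 1) k)) ↔ Forces U p.2.1 (P (Nat.pair (n + 1) k)))})
    ⟨p, hp, Iff.rfl, Iff.rfl⟩ fun _ q hq => by
      obtain ⟨w, w1, w2, w3, w4, w5⟩ := long2 hU hG hc hq 1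
      exact ⟨w, w1, ⟨⟨w2, w4⟩, w3, w5⟩, trivial⟩
  have hF := mono n A B a1 b1 (fun j => by
    obtain ⟨q, q0, -, q1, q2, -, -, q3, q4⟩ := h (Nat.pair n j)
    exact (q3 _ q1.le).trans ((h3 q q0.1 j).trans (q4 _ q2.le).symm)) k
  obtain ⟨q, q0, -, q1, q2, -, -, q3, q4⟩ := h (Nat.pair (n + 1) k)
  exact q0.2.1.symm.trans ((q3 _ q1.le).symm.trans (hF.trans ((q4 _ q2.le).trans q0.2.2)))

theorem hyp2' (hc : ∀ n A B, Injective A → Injective B → Fn P n A B →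
      ∀ l : List ℕ, ∃ i j, A i = B j ∧ A i ∉ l) (n : ℕ) : ¬ Dead (W U) ex (Rm U P n) := by
  rintro ⟨Z, ⟨s, hs⟩, hZ, hN⟩
  have q := cong_Rm (U := U) (P := P) n
  obtain ⟨A, B, a1, b1, h⟩ := lim3 hP (Q := fun _ _ => True)
    (Y := {p | p.1 ∈ Z ∧ Rm U P n p.1 p.2 ∧ ∀ v ∈ p.1.1, v ∈ p.2.1 → v ∈ s.1})
    ⟨(s, s), hs, q.eqv.refl s, fun v h _ => h⟩ (by
      rintro _ ⟨x, y⟩ ⟨p1, p2, p3⟩
      obtain ⟨a, ⟨a1, a2⟩, a3, a4⟩ :=
        (((hZ x p1).and (hN x p1)).and ((ok_ev hU hG x).and (W_avoid hU y.1))).exists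
      obtain ⟨c, ⟨c1, c2⟩, c3, c4⟩ := ((a2.and (q.step _ _ p2)).and
        ((ok_ev hU hG y).and (W_avoid hU (ex x a).1))).exists
      refine ⟨(ex x a, ex y c), ⟨a1, q.eqv.trans c1 c2, fun v h1 h2 => ?_⟩,
        ⟨⟨a3.2.2, a3.lev.2⟩, c3.2.2, c3.lev.2⟩, trivial⟩
      rcases List.mem_append.mp (c3.1 ▸ h2) with h2 | h2
      · rcases List.mem_append.mp (a3.1 ▸ h1) with h1 | h1
        · exact p3 v h1 h2
        · exact absurd h2 (a4 v (List.mem_of_mem_take h1))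
      · exact absurd h1 (c4 v (List.mem_of_mem_take h2)))
  obtain ⟨i, j, h1, h2⟩ := hc n A B a1 b1 (fun k => by
    obtain ⟨w, ⟨-, ⟨Y, -, y2, y3⟩, -⟩, -, q1, q2, -, -, q3, q4⟩ := h (Nat.pair n k)
    exact (q3 _ q1.le).trans ((y3 _ y2 k).trans (q4 _ q2.le).symm)) s.1
  obtain ⟨w, w0, -, q1, q2, q3, q4, -⟩ := h (i + j)
  exact h2 (w0.2.2 _ (q3 i (by omega) ▸ getD_mem (by omega))
    (h1 ▸ q4 j (by omega) ▸ getD_mem (by omega)))

variable (hab : ∀ d r K A B, Injective A → Injective B →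
  (∀ k j, K ≤ k → j ≤ k → j ≠ r → A (tri (k + d) + j) = B (tri k + j)) → ∃ n, Fn P n A B)
include hab

theorem hyp1' (s : St) : ∀ᶠ b in W U, ∀ Y, Closed2 (W U) ex Y → (ex s b, s) ∈ Y →
    ∃ p ∈ Y, ∃ n, Rm U P n p.1 p.2 := by
  filter_upwards [ok_ev hU hG s] with b hb Y hY hs
  by_contra hn
  push Not at hn
  obtain ⟨c, c1, c2, c3⟩ := ((hY _ hs).and ((ok_ev hU hG (ex s b)).and (ok_ev hU hG s))).exists
  obtain ⟨K, k1, k2⟩ : ∃ K, (ex s b).1.length = tri K ∧ (ex s c).1.length = tri K :=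
    ⟨_, hb.lev.1, c3.lev.1⟩
  have hc : Closed2 (W U) ex {p | p ∈ Y ∧ Al 1 0 K p} := by
    rintro p ⟨p1, p2⟩
    filter_upwards [hY p p1, ok_ev hU hG p.1, ok_ev hU hG p.2] with a a1 a2 a3
    exact ⟨a1, p2.step a2 a3 fun _ _ => rfl⟩
  refine al_lim hP hab (Y := {p | p ∈ Y ∧ Al 1 0 K p})
    ⟨_, c1, K, le_rfl, ?_, k2, fun l j _ _ => by omega⟩ (fun p hp => hp.2)
    fun n p hp => sep2 hU hG hc hp (hn p hp.1 n)
  rw [c2.len, bl_tri k1, k1, tri]; omega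

theorem hyp3' (i : ℕ) (Z : Set St) (hne : Z.Nonempty) (hZ : Closed (W U) ex Z) :
    ∃ z ∈ Z, ∃ n, ∀ᶠ v : List ℕ in W U,
      Rm U P n (ex z (v.eraseIdx i)) (ex z (v.eraseIdx (i + 1))) := by
  by_contra hn
  push Not at hn
  obtain ⟨s, hs⟩ := hne
  obtain ⟨b, b1, b2⟩ := ((hZ s hs).and (ok_ev hU hG s)).exists
  obtain ⟨K, k1⟩ : ∃ K, (ex s b).1.length = tri K := ⟨_, b2.lev.1⟩
  have hc : Closed2 (W U) ex {p | p.1 ∈ Z ∧ Al 0 i K p} := by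
    rintro p ⟨p1, p2⟩
    filter_upwards [hZ _ p1, ok_ev hU hG p.1, ok_ev hU hG p.2] with a a1 a2 a3
    exact ⟨a1, p2.step a2 a3 fun _ _ => rfl⟩
  refine al_lim hP hab (Y := {p | p.1 ∈ Z ∧ Al 0 i K p})
    ⟨(ex s b, ex s b), b1, K, le_rfl, k1, k1, fun l j _ _ => by omega⟩ (fun p hp => hp.2) ?_
  rintro n ⟨x, y⟩ ⟨p1, p2⟩
  have q := cong_Rm (U := U) (P := P) n
  obtain ⟨v, v1, v2, v3⟩ := ((hn x p1 n).and
    ((W_erase (m := bl x) (φ := fun a => ex x a ∈ Z ∧ Ok G x a) (fun a => by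
      simp [Ok, ex, List.take_take]) ((hZ x p1).and (ok_ev hU hG x))).and
    (W_erase (m := bl y) (fun a => by simp [Ok, ex, List.take_take]) (ok_ev hU hG y)))).exists
  obtain ⟨j, j1, j2⟩ : ∃ j, ¬ Rm U P n (ex x (v.eraseIdx j)) (ex y (v.eraseIdx i)) ∧
      ∀ l, l ≠ i → (v.eraseIdx j).getD l 0 = (v.eraseIdx i).getD l 0 := by
    by_cases h : Rm U P n (ex x (v.eraseIdx i)) (ex y (v.eraseIdx i))
    · refine ⟨i + 1, fun h' => v1 (q.eqv.trans h (q.eqv.symm h')), fun l hl => ?_⟩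
      simp only [List.getD_eq_getElem?_getD, List.getElem?_eraseIdx]
      split_ifs <;> first | rfl | omega
    · exact ⟨i, h, fun _ _ => rfl⟩
  obtain ⟨w, w1, ⟨⟨w2, w3⟩, w4, w5⟩, w6⟩ := sep2 hU hG hc
    (p := (ex x (v.eraseIdx j), ex y (v.eraseIdx i))) ⟨(v2 j).1, p2.step (v2 j).2 (v3 i) j2⟩ j1
  exact ⟨w, w1, ⟨⟨(v2 j).2.2.2.trans w2, (v2 j).2.lev.2.trans w3⟩, (v3 i).2.2.trans w4,
    (v3 i).lev.2.trans w5⟩, w6⟩

omit hU hG hP in
theorem no_chain2 (hm : ∀ k, MeasurableSet (P k))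
    (mono : ∀ n A B, Injective A → Injective B → Fn P n A B → Fn P (n + 1) A B)
    (hc : ∀ n A B, Injective A → Injective B → Fn P n A B →
      ∀ l : List ℕ, ∃ i j, A i = B j ∧ A i ∉ l) : False := by
  have hU : ∀ l : List ℕ, ∀ᶠ a in hyperfilter ℕ, a ∉ l := fun l =>
    (List.finite_toSet l).compl_mem_hyperfilter
  obtain ⟨G, hG, hP⟩ := uni (U := hyperfilter ℕ) fun k => dec_of_measurable (hm k)
  have : Nonempty St := ⟨⟨[], List.nodup_nil⟩⟩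
  exact core2 (faces (m := bl) (E := app)) (hyp1' hU hG hP hab) (hyp3' hU hG hP hab) cong_Rm
    (mono_Rm hU hG hP mono) (hyp2' hU hG hP hc)

end Pool.Agent.Lib.MP_5ddd96_lc.H38
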