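import Pool.Agent.Lib.MP_5ddd96_lc.H38.Tree

/-!
Stems without repetition and limits of pairs of stems.
-/

set_option autoImplicit false

namespace Pool.Agent.Lib.MP_5ddd96_lc.H38

open Filter

abbrev St := {s : List ℕ // s.Nodup}

def ext (s : St) (a : ℕ) : St :=
  if h : a ∈ s.1 then s else ⟨s.1 ++ [a], by
    rw [List.nodup_append]
    refine ⟨s.2, List.nodup_singleton a, fun x hx y hy hxy => h ?_⟩
    rw [← List.mem_singleton.mp hy, ← hxy]; exact hx⟩

theorem ext_val {s : St} {a : ℕ} (h : a ∉ s.1) : (ext s a).1 = s.1 ++ [a] := by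
  simp [ext, h]

theorem getD_snoc (l : List ℕ) (a i : ℕ) :
    (l ++ [a]).getD i 0 = if i = l.length then a else l.getD i 0 := by
  rcases lt_trichotomy i l.length with h | h | h
  · rw [if_neg h.ne, List.getD_append _ _ _ _ h]
  · subst h; simp
  · rw [if_neg h.ne', List.getD_eq_default _ _ (by simp; omega), List.getD_eq_default _ _ h.le]

theorem getD_mem {l : List ℕ} {i : ℕ} (h : i < l.length) : l.getD i 0 ∈ l := by
  rw [List.getD_eq_getElem _ _ h]; exact List.getElem_mem h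

theorem getD_take (l : List ℕ) {i n : ℕ} (h : i < n) : (l.take n).getD i 0 = l.getD i 0 := by
  simp [List.getD_eq_getElem?_getD, h]

def Fol (G : List ℕ → Set ℕ) (x y : List ℕ) : Prop :=
  x.length ≤ y.length ∧ y.take x.length = x ∧
    ∀ j, x.length ≤ j → j < y.length → y.getD j 0 ∈ G (y.take j)

variable {G : List ℕ → Set ℕ}

theorem Fol.refl (x : List ℕ) : Fol G x x := ⟨le_rfl, List.take_length, fun j _ _ => by omega⟩

theorem Fol.trans {x y z : List ℕ} (h : Fol G x y) (h' : Fol G y z) : Fol G x z := by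
  have ht : ∀ j ≤ y.length, z.take j = y.take j := fun j hj => by
    rw [← h'.2.1, List.take_take, min_eq_left hj]
  refine ⟨h.1.trans h'.1, (ht _ h.1).trans h.2.1, fun j h1 h2 => ?_⟩
  by_cases hj : j < y.length
  · rw [ht j hj.le, ← getD_take z hj, h'.2.1]; exact h.2.2 j h1 hj
  · exact h'.2.2 j (by omega) h2

theorem Fol.snoc {x y : List ℕ} {a : ℕ} (h : Fol G x y) (ha : a ∈ G y) : Fol G x (y ++ [a]) := by
  refine h.trans ⟨by simp, by simp, fun j h1 h2 => ?_⟩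
  obtain rfl : j = y.length := by simp at h2; omega
  simpa using ha

theorem lim1 {x : ℕ → St}
    (h : ∀ n, Fol G (x n).1 (x (n + 1)).1 ∧ (x n).1.length < (x (n + 1)).1.length) :
    ∃ A : ℕ → ℕ, Function.Injective A ∧ (∀ n, n ≤ (x n).1.length) ∧
      (∀ n, (x 0).1.length ≤ (x n).1.length) ∧ (∀ n, pre A (x n).1.length = (x n).1) ∧
      ∀ j, (x 0).1.length ≤ j → A j ∈ G (pre A j) := by
  have hl : ∀ n, n ≤ (x n).1.length := fun n => by
    induction n with
    | zero => omega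
    | succ n ih => have := (h n).2; omega
  have hf : ∀ m n, m ≤ n → Fol G (x m).1 (x n).1 := fun m n hmn => by
    induction n, hmn using Nat.le_induction with
    | base => exact Fol.refl _
    | succ n _ ih => exact ih.trans (h n).1
  have hv : ∀ m n, m ≤ n → ∀ j < (x m).1.length, (x n).1.getD j 0 = (x m).1.getD j 0 :=
    fun m n hmn j hj => by rw [← getD_take (x n).1 hj, (hf m n hmn).2.1]
  have hA : ∀ n, ∀ j < (x n).1.length, (x (j + 1)).1.getD j 0 = (x n).1.getD j 0 :=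
    fun n j hj => by
      rw [← hv n (max n (j + 1)) (le_max_left _ _) j hj,
        hv (j + 1) _ (le_max_right _ _) j (hl (j + 1))]
  have hp : ∀ n, pre (fun j => (x (j + 1)).1.getD j 0) (x n).1.length = (x n).1 := fun n => by
    refine List.ext_getElem (by simp) fun j h1 h2 => ?_
    rw [← List.getD_eq_getElem _ 0 h1, ← List.getD_eq_getElem _ 0 h2, getD_pre _ h2, hA n j h2]
  refine ⟨_, fun i j hij => ?_, hl, fun n => (hf 0 n n.zero_le).1, hp, fun j hj => ?_⟩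
  · have h1 : i < (x (i + j + 1)).1.length := by have := hl (i + j + 1); omega
    have h2 : j < (x (i + j + 1)).1.length := by have := hl (i + j + 1); omega
    rw [hA _ i h1, hA _ j h2, List.getD_eq_getElem _ 0 h1, List.getD_eq_getElem _ 0 h2] at hij
    exact (List.Nodup.getElem_inj_iff (x (i + j + 1)).2).mp hij
  · have h1 : j < (x (j + 1)).1.length := hl (j + 1)
    rw [← take_pre _ h1.le, hp]
    exact (hf 0 (j + 1) (by omega)).2.2 j hj h1

/-- One stage of the construction of two branches. -/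
def Stage (G : List ℕ → Set ℕ) (p q : St × St) : Prop :=
  (Fol G p.1.1 q.1.1 ∧ p.1.1.length < q.1.1.length) ∧
    (Fol G p.2.1 q.2.1 ∧ p.2.1.length < q.2.1.length)

theorem lim2 {Y : Set (St × St)} {Q : ℕ → St × St → Prop} (hY : Y.Nonempty)
    (h : ∀ n, ∀ p ∈ Y, ∃ q ∈ Y, Stage G p q ∧ Q n q) :
    ∃ (A B : ℕ → ℕ) (i j : ℕ), Function.Injective A ∧ Function.Injective B ∧
      (∀ m, i ≤ m → A m ∈ G (pre A m)) ∧ (∀ m, j ≤ m → B m ∈ G (pre B m)) ∧
      ∀ n, ∃ q ∈ Y, Q n q ∧ n < q.1.1.length ∧ n < q.2.1.length ∧ i ≤ q.1.1.length ∧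
        j ≤ q.2.1.length ∧ pre A q.1.1.length = q.1.1 ∧ pre B q.2.1.length = q.2.1 := by
  obtain ⟨p₀, hp₀⟩ := hY
  choose f hf using h
  let x : ℕ → Y := fun n => Nat.rec ⟨p₀, hp₀⟩ (fun n p => ⟨f n p.1 p.2, (hf n p.1 p.2).1⟩) n
  have hx : ∀ n, Stage G (x n).1 (x (n + 1)).1 ∧ Q n (x (n + 1)).1 := fun n => (hf n _ (x n).2).2
  obtain ⟨A, a1, a2, a3, a4, a5⟩ := lim1 (x := fun n => (x n).1.1) fun n => (hx n).1.1
  obtain ⟨B, b1, b2, b3, b4, b5⟩ := lim1 (x := fun n => (x n).1.2) fun n => (hx n).1.2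
  exact ⟨A, B, _, _, a1, b1, a5, b5, fun n => ⟨_, (x (n + 1)).2, (hx n).2, a2 (n + 1), b2 (n + 1),
    a3 (n + 1), b3 (n + 1), a4 (n + 1), b4 (n + 1)⟩⟩

variable {U : Ultrafilter ℕ} (hU : ∀ l : List ℕ, ∀ᶠ a in U, a ∉ l) (hG : ∀ t, G t ∈ U)
include hU hG

theorem closed_fol {Y : Set (St × St)} (hY : Closed2 U ext Y) (p : St × St) :
    Closed2 U ext {q | q ∈ Y ∧ Fol G p.1.1 q.1.1 ∧ Fol G p.2.1 q.2.1} := by
  rintro q ⟨h1, h2, h3⟩
  filter_upwards [hY q h1, hU q.1.1, hU q.2.1, hG q.1.1, hG q.2.1] with a a1 a2 a3 a4 a5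
  refine ⟨a1, ?_, ?_⟩
  · rw [ext_val a2]; exact h2.snoc a4
  · rw [ext_val a3]; exact h3.snoc a5

theorem long {Y : Set (St × St)} (hY : Closed2 U ext Y) {p : St × St} (hp : p ∈ Y) (m : ℕ) :
    ∃ q ∈ Y, Fol G p.1.1 q.1.1 ∧ Fol G p.2.1 q.2.1 ∧ q.1.1.length = p.1.1.length + m ∧
      q.2.1.length = p.2.1.length + m := by
  induction m with
  | zero => exact ⟨p, hp, Fol.refl _, Fol.refl _, rfl, rfl⟩
  | succ m ih =>
    obtain ⟨q, h1, h2, h3, h4, h5⟩ := ih
    obtain ⟨a, a1, a2, a3⟩ :=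
      ((closed_fol hU hG hY p q ⟨h1, h2, h3⟩).and ((hU q.1.1).and (hU q.2.1))).exists
    refine ⟨_, a1.1, a1.2.1, a1.2.2, ?_, ?_⟩
    · dsimp only; rw [ext_val a2]; simp; omega
    · dsimp only; rw [ext_val a3]; simp; omega

omit hG in
theorem closed_keep {Y : Set (St × St)} (hY : Closed2 U ext Y) (P : Set (ℕ → ℕ)) (a b : Prop) :
    Closed2 U ext {q | q ∈ Y ∧ (Forces U q.1.1 P ↔ a) ∧ (Forces U q.2.1 P ↔ b)} := by
  rintro q ⟨h1, h2, h3⟩
  filter_upwards [hY q h1, hU q.1.1, hU q.2.1, forces_keep q.1.1 P, forces_keep q.2.1 P]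
    with c a1 a2 a3 a4 a5
  refine ⟨a1, ?_, ?_⟩
  · rw [ext_val a2]; exact a4.trans h2
  · rw [ext_val a3]; exact a5.trans h3

end Pool.Agent.Lib.MP_5ddd96_lc.H38
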