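import Mathlib

/-!
Congruences on a tree of stems along an ultrafilter: the combinatorial core.
-/

set_option autoImplicit false

namespace Pool.Agent.Lib.MP_5ddd96_lc.H38

open Filter

variable {L T : Type} (U : Ultrafilter T) (e : L → T → L)

structure Cong (R : L → L → Prop) : Prop where
  eqv : Equivalence R
  step : ∀ s t, R s t → ∀ᶠ a in U, R (e s a) (e t a)

/-- The next value does not matter. -/
def Nm (R : L → L → Prop) (s : L) : Prop := ∀ᶠ a in U, ∀ᶠ b in U, R (e s a) (e s b)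

def Closed (Z : Set L) : Prop := ∀ z ∈ Z, ∀ᶠ a in U, e z a ∈ Z

def Closed2 (Y : Set (L × L)) : Prop := ∀ p ∈ Y, ∀ᶠ a in U, (e p.1 a, e p.2 a) ∈ Y

def Dead (R : L → L → Prop) : Prop := ∃ Z : Set L, Z.Nonempty ∧ Closed U e Z ∧ ∀ z ∈ Z, Nm U e R z

variable {U e}

theorem Nm.mono {R R' : L → L → Prop} (h : R ≤ R') {s : L} (hs : Nm U e R s) : Nm U e R' s :=
  Eventually.mono hs fun _ ha => ha.mono fun _ hb => h _ _ hb

theorem Nm.back {R : L → L → Prop} (hR : Equivalence R) {s t : L}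
    (h : ∀ᶠ a in U, R (e s a) (e t a)) (hs : Nm U e R s) : Nm U e R t :=
  (h.and hs).mono fun _ ha => (h.and ha.2).mono fun _ hb =>
    hR.trans (hR.symm ha.1) (hR.trans hb.2 hb.1)

theorem Cong.closed {R : L → L → Prop} (hR : Cong U e R) {u : L} (hu : ∀ᶠ a in U, R (e u a) u) :
    Closed U e {w | R w u} := fun w hw =>
  ((hR.step w u hw).and hu).mono fun _ ha => hR.eqv.trans ha.1 ha.2

theorem Cong.dead {R : L → L → Prop} (hR : Cong U e R) {u : L} (hu : ∀ᶠ a in U, R (e u a) u)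
    (hn : Nm U e R u) : Dead U e R :=
  ⟨{w | R w u}, ⟨u, hR.eqv.refl u⟩, hR.closed hu, fun w hw =>
    hn.back hR.eqv (hR.step u w (hR.eqv.symm hw))⟩

section
variable {r : ℕ → L → L → Prop}
  (H1 : ∀ s, ∀ᶠ b in U, ∀ Y, Closed2 U e Y → (e s b, s) ∈ Y → ∃ p ∈ Y, ∃ n, r n p.1 p.2)
  (H3 : ∀ Z : Set L, Z.Nonempty → Closed U e Z → ∃ z ∈ Z, ∃ n, Nm U e (r n) z)
include H1

theorem lemP {C : Set (L → L → Prop)} (hd : DirectedOn (· ≤ ·) C) (hC : ∀ R ∈ C, Cong U e R)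
    (hcov : ∀ n s t, r n s t → ∃ R ∈ C, R s t) {Z : Set L} (hne : Z.Nonempty) (hZ : Closed U e Z)
    (hN : ∀ z ∈ Z, ∃ R ∈ C, Nm U e R z) :
    ∃ R ∈ C, ∃ u, Nm U e R u ∧ ∀ᶠ a in U, R (e u a) u := by
  obtain ⟨s, hs⟩ := hne
  obtain ⟨R₀, hR₀, hn₀⟩ := hN s hs
  obtain ⟨b, hb1, hb2⟩ := ((H1 s).and hn₀).exists
  obtain ⟨⟨x, y⟩, ⟨hy, R, hR, hxy⟩, n, hn⟩ :=
    hb1 {p | p.2 ∈ Z ∧ ∃ R ∈ C, ∀ᶠ a in U, R p.1 (e p.2 a)} (by
      rintro ⟨x, y⟩ ⟨hy, R, hR, hxy⟩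
      obtain ⟨c₀, hc1, hc2⟩ := (hxy.and (hZ y hy)).exists
      obtain ⟨R₁, hR₁, hn₁⟩ := hN _ hc2
      obtain ⟨R', hR', h1, h2⟩ := hd R hR R₁ hR₁
      have q := hC R' hR'
      have hx : Nm U e R' x := (hn₁.mono h2).back q.eqv (q.step _ _ (q.eqv.symm (h1 _ _ hc1)))
      refine ((hZ y hy).and (hxy.and hx)).mono fun c hc => ⟨hc.1, R', hR', ?_⟩
      exact (hc.2.2.and (q.step _ _ (h1 _ _ hc.2.1))).mono fun a ha => q.eqv.trans ha.1 ha.2)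
      ⟨hs, R₀, hR₀, hb2⟩
  obtain ⟨R₁, hR₁, h₁⟩ := hcov n x y hn
  obtain ⟨R₂, hR₂, h₂⟩ := hN y hy
  obtain ⟨R₃, hR₃, h3, h4⟩ := hd R hR R₁ hR₁
  obtain ⟨R', hR', h5, h6⟩ := hd R₃ hR₃ R₂ hR₂
  have q := hC R' hR'
  exact ⟨R', hR', y, h₂.mono h6, hxy.mono fun a ha =>
    q.eqv.trans (q.eqv.symm (h5 _ _ (h3 _ _ ha))) (h5 _ _ (h4 _ _ h₁))⟩

include H3

theorem lemE {R : L → L → Prop} (hR : Cong U e R) (hr : ∀ n, r n ≤ R) (hd : Dead U e R)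
    {ε : L → Prop} (hε : ∀ s t, R s t → ε s → ε t) (hε' : ∀ s, ε s → ∀ n, ¬ Nm U e (r n) s) :
    ∃ Z : Set L, Z.Nonempty ∧ Closed U e Z ∧ ∀ z ∈ Z, ¬ ε z := by
  obtain ⟨Z, hne, hZ, hN⟩ := hd
  obtain ⟨R', hR', u, -, hu⟩ := lemP H1 (C := {R}) (directedOn_singleton _)
    (fun _ h => h ▸ hR) (fun n s t h => ⟨R, rfl, hr n _ _ h⟩) hne hZ
    fun z hz => ⟨R, rfl, hN z hz⟩
  obtain rfl : R' = R := hR'
  obtain ⟨z, hz, n, hn⟩ := H3 {w | R' w u} ⟨u, hR.eqv.refl u⟩ (hR.closed hu)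
  exact ⟨{w | R' w u}, ⟨u, hR.eqv.refl u⟩, hR.closed hu, fun w hw h =>
    hε' z (hε w z (hR.eqv.trans hw (hR.eqv.symm hz)) h) n hn⟩

theorem chain {C : Set (L → L → Prop)} (hne : C.Nonempty) (hc : IsChain (· ≤ ·) C)
    (hC : ∀ R ∈ C, Cong U e R) (hl : ∀ R ∈ C, ¬ Dead U e R)
    (hcov : ∀ n s t, r n s t → ∃ R ∈ C, R s t)
    (hm : ∀ s, (∀ R ∈ C, ¬ Nm U e R s) → ∀ n, ¬ Nm U e (r n) s) :
    Cong U e (fun s t => ∃ R ∈ C, R s t) ∧ ¬ Dead U e (fun s t => ∃ R ∈ C, R s t) := by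
  have hd : DirectedOn (· ≤ ·) C := hc.directedOn
  have q : Cong U e (fun s t => ∃ R ∈ C, R s t) := by
    obtain ⟨R₀, hR₀⟩ := hne
    refine ⟨⟨fun s => ⟨R₀, hR₀, (hC R₀ hR₀).eqv.refl s⟩, ?_, ?_⟩, ?_⟩
    · rintro s t ⟨R, hR, h⟩
      exact ⟨R, hR, (hC R hR).eqv.symm h⟩
    · rintro s t w ⟨R, hR, h⟩ ⟨R', hR', h'⟩
      obtain ⟨Q, hQ, h1, h2⟩ := hd R hR R' hR'
      exact ⟨Q, hQ, (hC Q hQ).eqv.trans (h1 _ _ h) (h2 _ _ h')⟩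
    · rintro s t ⟨R, hR, h⟩
      exact ((hC R hR).step s t h).mono fun a ha => ⟨R, hR, ha⟩
  refine ⟨q, fun hdead => ?_⟩
  obtain ⟨Z, hZ0, hZ, hN⟩ := lemE H1 H3 q (fun n s t h => hcov n s t h) hdead
    (ε := fun s => ∀ R ∈ C, ¬ Nm U e R s) (by
      rintro s t ⟨R, hR, h⟩ hs R' hR' ht
      obtain ⟨Q, hQ, h1, h2⟩ := hd R hR R' hR'
      have q' := hC Q hQ
      exact hs Q hQ ((ht.mono h2).back q'.eqv (q'.step _ _ (q'.eqv.symm (h1 _ _ h))))) hm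
  obtain ⟨R, hR, u, h1, h2⟩ := lemP H1 hd hC hcov hZ0 hZ fun z hz => by
    have := hN z hz
    push Not at this
    exact this
  exact hl R hR ((hC R hR).dead h2 h1)

theorem core [Nonempty L] (hr : ∀ n, Cong U e (r n)) (hmono : Monotone r)
    (H2 : ∀ n, ¬ Dead U e (r n)) : False := by
  obtain ⟨q₀, l₀⟩ := chain H1 H3 (C := Set.range r) (Set.range_nonempty r)
    hmono.isChain_range (by rintro _ ⟨n, rfl⟩; exact hr n) (by rintro _ ⟨n, rfl⟩; exact H2 n)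
    (fun n s t h => ⟨r n, ⟨n, rfl⟩, h⟩) fun s hs n => hs _ ⟨n, rfl⟩
  obtain ⟨R, -, ⟨q, l, hR⟩, hmax⟩ := zorn_le_nonempty₀
    {R : L → L → Prop | Cong U e R ∧ ¬ Dead U e R ∧ ∀ n, r n ≤ R} (fun C hC hc R₀ hR₀ => by
      obtain ⟨h1, h2⟩ := chain H1 H3 ⟨R₀, hR₀⟩ hc (fun R h => (hC h).1) (fun R h => (hC h).2.1)
        (fun n s t h => ⟨R₀, hR₀, (hC hR₀).2.2 n _ _ h⟩)
        fun s hs n hn => hs R₀ hR₀ (hn.mono ((hC hR₀).2.2 n))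
      exact ⟨_, ⟨h1, h2, fun n s t h => ⟨R₀, hR₀, (hC hR₀).2.2 n _ _ h⟩⟩,
        fun R h s t hst => ⟨R, h, hst⟩⟩) _ ⟨q₀, l₀, fun n s t h => ⟨r n, ⟨n, rfl⟩, h⟩⟩
  have hle : R ≤ fun s t => ∀ᶠ a in U, R (e s a) (e t a) := fun s t h => q.step s t h
  have q' : Cong U e fun s t => ∀ᶠ a in U, R (e s a) (e t a) :=
    ⟨⟨fun s => Eventually.of_forall fun a => q.eqv.refl _,
      fun h => h.mono fun a ha => q.eqv.symm ha,
      fun h h' => (h.and h').mono fun a ha => q.eqv.trans ha.1 ha.2⟩,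
      fun s t h => h.mono fun a ha => q.step _ _ ha⟩
  have l' : ¬ Dead U e fun s t => ∀ᶠ a in U, R (e s a) (e t a) := fun hd => by
    obtain ⟨Z, h0, h1, h2⟩ := lemE H1 H3 q' (fun n => (hR n).trans hle) hd
      (ε := fun s => ¬ Nm U e R s)
      (fun s t h hs ht => hs (ht.back q.eqv (h.mono fun a ha => q.eqv.symm ha)))
      fun s hs n hn => hs (hn.mono (hR n))
    exact l ⟨Z, h0, h1, fun z hz => not_not.mp (h2 z hz)⟩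
  have hge := hmax ⟨q', l', fun n => (hR n).trans hle⟩ hle
  obtain ⟨u⟩ := ‹Nonempty L›
  have hu : ∀ᶠ b in U, R (e u b) u := (H1 u).mono fun b hb => by
    by_contra hn
    obtain ⟨p, hp, n, h⟩ := hb {p | ¬ R p.1 p.2}
      (fun p hp => Ultrafilter.eventually_not.mpr fun h => hp (hge _ _ h)) hn
    exact hp (hR n _ _ h)
  obtain ⟨z, hz, n, hn⟩ := H3 {w | R w u} ⟨u, q.eqv.refl u⟩ (q.closed hu)
  exact l (q.dead hu ((hn.mono (hR n)).back q.eqv (q.step _ _ hz)))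

end

end Pool.Agent.Lib.MP_5ddd96_lc.H38
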