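import Pool.Agent.Lib.MP_5ddd96_lc.H38.Core

/-!
The combinatorial core when the independence of the next step is obtained face by face.
-/

set_option autoImplicit false

namespace Pool.Agent.Lib.MP_5ddd96_lc.H38

open Filter

variable {L T : Type} {U : Ultrafilter T} {e : L → T → L}

/-- A family of predicates, finitely many of which give `Nm`. -/
structure Faces (U : Ultrafilter T) (e : L → T → L)
    (N : ℕ → (L → L → Prop) → L → Prop) : Prop where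
  mono : ∀ i R R' s, R ≤ R' → N i R s → N i R' s
  back : ∀ i R s t, Equivalence R → (∀ᶠ a in U, R (e s a) (e t a)) → N i R s → N i R t
  fin : ∀ s, ∃ m, ∀ R, Equivalence R → (∀ i < m, N i R s) → Nm U e R s

variable {r : ℕ → L → L → Prop} {N : ℕ → (L → L → Prop) → L → Prop} (hN : Faces U e N)
  (H1 : ∀ s, ∀ᶠ b in U, ∀ Y, Closed2 U e Y → (e s b, s) ∈ Y → ∃ p ∈ Y, ∃ n, r n p.1 p.2)
  (H3 : ∀ i, ∀ Z : Set L, Z.Nonempty → Closed U e Z → ∃ z ∈ Z, ∃ n, N i (r n) z)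
include H1 H3

theorem lemF {R : L → L → Prop} (hR : Cong U e R) (hr : ∀ n, r n ≤ R) (hd : Dead U e R) :
    ∃ Z : Set L, Z.Nonempty ∧ Closed U e Z ∧ ∀ w ∈ Z, ∀ i, ∃ z n, R z w ∧ N i (r n) z := by
  obtain ⟨Z, hne, hZ, hN⟩ := hd
  obtain ⟨R', hR', u, -, hu⟩ := lemP H1 (C := {R}) (directedOn_singleton _)
    (fun _ h => h ▸ hR) (fun n s t h => ⟨R, rfl, hr n _ _ h⟩) hne hZ
    fun z hz => ⟨R, rfl, hN z hz⟩
  obtain rfl : R' = R := hR'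
  refine ⟨{w | R' w u}, ⟨u, hR.eqv.refl u⟩, hR.closed hu, fun w hw i => ?_⟩
  obtain ⟨z, hz, n, hn⟩ := H3 i {w | R' w u} ⟨u, hR.eqv.refl u⟩ (hR.closed hu)
  exact ⟨z, n, hR.eqv.trans hz (hR.eqv.symm hw), hn⟩

include hN

theorem chain2 {C : Set (L → L → Prop)} (hne : C.Nonempty) (hc : IsChain (· ≤ ·) C)
    (hC : ∀ R ∈ C, Cong U e R) (hl : ∀ R ∈ C, ¬ Dead U e R) (hcov : ∀ n, ∃ R ∈ C, r n ≤ R) :
    Cong U e (fun s t => ∃ R ∈ C, R s t) ∧ ¬ Dead U e (fun s t => ∃ R ∈ C, R s t) := by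
  have hd : DirectedOn (· ≤ ·) C := hc.directedOn
  have hcov' : ∀ n s t, r n s t → ∃ R ∈ C, R s t := fun n s t h =>
    (hcov n).imp fun R hR => ⟨hR.1, hR.2 _ _ h⟩
  obtain ⟨R₀, hR₀⟩ := hne
  have q : Cong U e (fun s t => ∃ R ∈ C, R s t) := by
    refine ⟨⟨fun s => ⟨R₀, hR₀, (hC R₀ hR₀).eqv.refl s⟩, ?_, ?_⟩, ?_⟩
    · rintro s t ⟨R, hR, h⟩
      exact ⟨R, hR, (hC R hR).eqv.symm h⟩
    · rintro s t w ⟨R, hR, h⟩ ⟨R', hR', h'⟩
      obtain ⟨Q, hQ, h1, h2⟩ := hd R hR R' hR'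
      exact ⟨Q, hQ, (hC Q hQ).eqv.trans (h1 _ _ h) (h2 _ _ h')⟩
    · rintro s t ⟨R, hR, h⟩
      exact ((hC R hR).step s t h).mono fun a ha => ⟨R, hR, ha⟩
  refine ⟨q, fun hdead => ?_⟩
  obtain ⟨Z, hZ0, hZ, hF⟩ := lemF H1 H3 q hcov' hdead
  obtain ⟨R, hR, u, h1, h2⟩ := lemP H1 hd hC hcov' hZ0 hZ fun w hw => by
    have h : ∀ m, ∃ R ∈ C, ∀ i < m, N i R w := fun m => by
      induction m with
      | zero => exact ⟨R₀, hR₀, fun i hi => absurd hi i.not_lt_zero⟩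
      | succ m ih =>
        obtain ⟨R₁, c1, h1⟩ := ih
        obtain ⟨z, n, ⟨R₂, c2, h2⟩, h3⟩ := hF w hw m
        obtain ⟨R₃, c3, h4⟩ := hcov n
        obtain ⟨R₄, c4, h5, h6⟩ := hd R₁ c1 R₂ c2
        obtain ⟨Q, c, h7, h8⟩ := hd R₄ c4 R₃ c3
        refine ⟨Q, c, fun i hi => ?_⟩
        rcases Nat.lt_succ_iff_lt_or_eq.mp hi with hi | rfl
        · exact hN.mono _ _ _ _ (h5.trans h7) (h1 i hi)
        · exact hN.back _ _ _ _ (hC Q c).eqv ((hC Q c).step _ _ (h7 _ _ (h6 _ _ h2)))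
            (hN.mono _ _ _ _ (h4.trans h8) h3)
    obtain ⟨m, hm⟩ := hN.fin w
    obtain ⟨R, hR, h⟩ := h m
    exact ⟨R, hR, hm R (hC R hR).eqv h⟩
  exact hl R hR ((hC R hR).dead h2 h1)

theorem core2 [Nonempty L] (hr : ∀ n, Cong U e (r n)) (hmono : Monotone r)
    (H2 : ∀ n, ¬ Dead U e (r n)) : False := by
  obtain ⟨q₀, l₀⟩ := chain2 hN H1 H3 (C := Set.range r) (Set.range_nonempty r)
    hmono.isChain_range (by rintro _ ⟨n, rfl⟩; exact hr n) (by rintro _ ⟨n, rfl⟩; exact H2 n)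
    fun n => ⟨r n, ⟨n, rfl⟩, le_rfl⟩
  obtain ⟨R, -, ⟨q, l, hR⟩, hmax⟩ := zorn_le_nonempty₀
    {R : L → L → Prop | Cong U e R ∧ ¬ Dead U e R ∧ ∀ n, r n ≤ R} (fun C hC hc R₀ hR₀ => by
      obtain ⟨h1, h2⟩ := chain2 hN H1 H3 ⟨R₀, hR₀⟩ hc (fun R h => (hC h).1)
        (fun R h => (hC h).2.1) fun n => ⟨R₀, hR₀, (hC hR₀).2.2 n⟩
      exact ⟨_, ⟨h1, h2, fun n s t h => ⟨R₀, hR₀, (hC hR₀).2.2 n _ _ h⟩⟩,
        fun R h s t hst => ⟨R, h, hst⟩⟩) _ ⟨q₀, l₀, fun n s t h => ⟨r n, ⟨n, rfl⟩, h⟩⟩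
  have hle : R ≤ fun s t => ∀ᶠ a in U, R (e s a) (e t a) := fun s t h => q.step s t h
  have q' : Cong U e fun s t => ∀ᶠ a in U, R (e s a) (e t a) :=
    ⟨⟨fun s => Eventually.of_forall fun a => q.eqv.refl _,
      fun h => h.mono fun a ha => q.eqv.symm ha,
      fun h h' => (h.and h').mono fun a ha => q.eqv.trans ha.1 ha.2⟩,
      fun s t h => h.mono fun a ha => q.step _ _ ha⟩
  have key : ∀ w, (∀ i, ∃ z n, (∀ᶠ a in U, R (e z a) (e w a)) ∧ N i (r n) z) → Nm U e R w :=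
    fun w h => by
      obtain ⟨m, hm⟩ := hN.fin w
      refine hm R q.eqv fun i _ => ?_
      obtain ⟨z, n, h1, h2⟩ := h i
      exact hN.back _ _ _ _ q.eqv h1 (hN.mono _ _ _ _ (hR n) h2)
  have l' : ¬ Dead U e fun s t => ∀ᶠ a in U, R (e s a) (e t a) := fun hd => by
    obtain ⟨Z, h0, h1, h2⟩ := lemF H1 H3 q' (fun n => (hR n).trans hle) hd
    exact l ⟨Z, h0, h1, fun z hz => key z (h2 z hz)⟩
  have hge := hmax ⟨q', l', fun n => (hR n).trans hle⟩ hle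
  obtain ⟨u⟩ := ‹Nonempty L›
  have hu : ∀ᶠ b in U, R (e u b) u := (H1 u).mono fun b hb => by
    by_contra hn
    obtain ⟨p, hp, n, h⟩ := hb {p | ¬ R p.1 p.2}
      (fun p hp => Ultrafilter.eventually_not.mpr fun h => hp (hge _ _ h)) hn
    exact hp (hR n _ _ h)
  refine l (q.dead hu (key u fun i => ?_))
  obtain ⟨z, hz, n, hn⟩ := H3 i {w | R w u} ⟨u, q.eqv.refl u⟩ (q.closed hu)
  exact ⟨z, n, q.step _ _ hz, hn⟩

end Pool.Agent.Lib.MP_5ddd96_lc.H38
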