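import Pool.Agent.Lib.MP_5ddd96_lc.H38.Abs2

/-!
Arrays coded by points of Baire space: markers give hypersmoothness, and the relation `Ea` is not
hypersmooth on injective arrays.
-/

set_option autoImplicit false

namespace Pool.Agent.Lib.MP_5ddd96_lc.H38

open Function

def ent (x : ℕ → ℕ) (r c : ℕ) : ℕ := x (Nat.pair r c + 1)

def Inj (x : ℕ → ℕ) : Prop := ∀ a b, x (a + 1) = x (b + 1) → a = b

def Sh (x y : ℕ → ℕ) (s i j : ℕ) : Prop := ∀ r c, s ≤ r → ent x r (c + i) = ent y r (c + j)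

def Ea (x y : ℕ → ℕ) : Prop := ∃ s i j, Sh x y s i j

/-- `E` on each part of `D` where the first coordinate is fixed, equality elsewhere. -/
def On (D : (ℕ → ℕ) → Prop) (E : (ℕ → ℕ) → (ℕ → ℕ) → Prop) (x y : ℕ → ℕ) : Prop :=
  x = y ∨ (x 0 = y 0 ∧ D x ∧ D y ∧ E x y)

theorem Sh.symm {x y : ℕ → ℕ} {s i j : ℕ} (h : Sh x y s i j) : Sh y x s j i :=
  fun r c hr => (h r c hr).symm

theorem Sh.trans {x y z : ℕ → ℕ} {s t u i j k l : ℕ} (h : Sh x y s i j) (h' : Sh y z t k l)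
    (h1 : s ≤ u) (h2 : t ≤ u) : Sh x z u (k + i) (j + l) := fun r c hr => by
  rw [← add_assoc, h r _ (h1.trans hr), add_right_comm, h' r _ (h2.trans hr), add_assoc]

theorem eqv_Ea : Equivalence Ea :=
  ⟨fun _ => ⟨0, 0, 0, fun _ _ _ => rfl⟩, fun ⟨s, i, j, h⟩ => ⟨s, j, i, h.symm⟩,
    fun ⟨s, _, _, h⟩ ⟨t, _, _, h'⟩ => ⟨s + t, _, _, h.trans h' (by omega) (by omega)⟩⟩

theorem eqv_On {D : (ℕ → ℕ) → Prop} {E : (ℕ → ℕ) → (ℕ → ℕ) → Prop} (h : Equivalence E) :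
    Equivalence (On D E) := by
  refine ⟨fun x => Or.inl rfl, ?_, ?_⟩
  · rintro x y (h1 | ⟨h1, h2, h3, h4⟩)
    · exact Or.inl h1.symm
    · exact Or.inr ⟨h1.symm, h3, h2, h.symm h4⟩
  · rintro x y z (rfl | h1) h2
    · exact h2
    rcases h2 with rfl | h2
    · exact Or.inr h1
    · exact Or.inr ⟨h1.1.trans h2.1, h1.2.1, h2.2.2.1, h.trans h1.2.2.2 h2.2.2.2⟩

theorem meas_ent (r c : ℕ) : Measurable fun x => ent x r c := measurable_pi_apply _

theorem markers {D : (ℕ → ℕ) → Prop} (hD : Measurable D) {E : (ℕ → ℕ) → (ℕ → ℕ) → Prop}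
    (hE : ∀ x y, E x y → E y x) {ρ : ℕ → ℕ} {M : ℕ → (ℕ → ℕ) → ℕ → Prop}
    (hM : ∀ n c, Measurable fun x => M n x c) (hu : ∀ n x c c', M n x c → M n x c' → c = c')
    (h1 : ∀ x, D x → ∀ k, ∃ n c, k ≤ n ∧ M n x c)
    (h2 : ∀ x y, x 0 = y 0 → D x → D y → E x y →
      ∃ k, ∀ n c, k ≤ n → M n x c → ∃ c', M n y c' ∧ Sh x y (ρ n) c c')
    (h3 : ∀ x y n c c', Sh x y (ρ n) c c' → E x y) : Hypersmooth (On D E) := by
  let ψ : ℕ → (ℕ → ℕ) → ℕ × ℕ × ℕ → Prop := fun n x p =>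
    ∃ c, M n x c ∧ ρ n ≤ p.1 ∧ ent x p.1 (p.2.1 + c) = p.2.2
  obtain ⟨f, hf⟩ := MeasureTheory.exists_measurableEmbedding_real (ℕ × ℕ ⊕ ℕ × ℕ × ℕ × ℕ → Prop)
  let Φ : ℕ → (ℕ → ℕ) → ℕ × ℕ ⊕ ℕ × ℕ × ℕ × ℕ → Prop := fun k x => Sum.elim
    (fun p => x p.1 = p.2 ∧ (p.1 = 0 ∨ ¬ D x)) fun p => D x ∧ k ≤ p.1 ∧ ψ p.1 x p.2
  have hh : ∀ x y, x 0 = y 0 → D x → D y → E x y → ∃ k, ∀ n, k ≤ n → ψ n x ≤ ψ n y :=
    fun x y a1 a2 a3 a4 => (h2 x y a1 a2 a3 a4).imp fun k hk n hn p ⟨c, c1, c2, c3⟩ => by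
      obtain ⟨c', d1, d2⟩ := hk n c hn c1
      exact ⟨c', d1, c2, (d2 _ _ c2).symm.trans c3⟩
  refine ⟨fun k => On D fun x y => ∀ n, k ≤ n → ψ n x = ψ n y, fun k => ⟨fun x => f (Φ k x),
    hf.measurable.comp (measurable_pi_lambda _ ?_), fun x y => ⟨?_, fun h => ?_⟩⟩, ?_,
    fun x y => ⟨?_, ?_⟩⟩
  · rintro (p | p)
    · exact (measurableSet_setOfPred.mp (measurableSet_eq_fun (measurable_pi_apply _)
        measurable_const)).and (measurable_const.or hD.not)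
    · exact hD.and (measurable_const.and (.exists fun c => (hM _ c).and (measurable_const.and
        (measurableSet_setOfPred.mp (measurableSet_eq_fun (meas_ent _ _) measurable_const)))))
  · rintro (rfl | ⟨a1, a2, a3, a4⟩)
    · rfl
    refine congrArg f (funext ?_)
    rintro (⟨i, v⟩ | p)
    · by_cases hi : i = 0 <;> simp [Φ, a1, a2, a3, hi]
    · by_cases hk : k ≤ p.1
      · simp [Φ, a2, a3, a4 _ hk]
      · simp [Φ, hk]
  · have h := hf.injective h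
    have a : ∀ i v, x i = v ∧ (i = 0 ∨ ¬ D x) ↔ y i = v ∧ (i = 0 ∨ ¬ D y) := fun i v =>
      iff_of_eq (congrFun h (Sum.inl (i, v)))
    by_cases hx : D x
    · by_cases hy : D y
      · refine Or.inr ⟨((a 0 _).mpr ⟨rfl, Or.inl rfl⟩).1, hx, hy, fun n hn => funext fun p => ?_⟩
        simpa [Φ, hx, hy, hn] using congrFun h (Sum.inr (n, p))
      · exact Or.inl (funext fun i => ((a i _).mpr ⟨rfl, Or.inr hy⟩).1)
    · exact Or.inl (funext fun i => ((a i _).mp ⟨rfl, Or.inr hx⟩).1.symm)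
  · exact fun k k' hk x y h => h.imp_right fun h =>
      ⟨h.1, h.2.1, h.2.2.1, fun n hn => h.2.2.2 n (hk.trans hn)⟩
  · rintro (rfl | ⟨a1, a2, a3, a4⟩)
    · exact ⟨0, Or.inl rfl⟩
    obtain ⟨k, hk⟩ := hh x y a1 a2 a3 a4
    obtain ⟨k', hk'⟩ := hh y x a1.symm a3 a2 (hE _ _ a4)
    exact ⟨k + k', Or.inr ⟨a1, a2, a3, fun n hn =>
      le_antisymm (hk n (by omega)) (hk' n (by omega))⟩⟩
  · rintro ⟨k, rfl | ⟨a1, a2, a3, a4⟩⟩
    · exact Or.inl rfl
    obtain ⟨n, c, hn, hc⟩ := h1 x a2 k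
    have b : ∀ r d, ρ n ≤ r → ∃ c', M n y c' ∧ ρ n ≤ r ∧ ent y r (d + c') = ent x r (d + c) :=
      fun r d hr => (a4 n hn ▸ ⟨c, hc, hr, rfl⟩ : ψ n y (r, d, ent x r (d + c)))
    obtain ⟨c', hc', -⟩ := b _ 0 le_rfl
    refine Or.inr ⟨a1, a2, a3, h3 x y n c c' fun r d hr => ?_⟩
    obtain ⟨c'', d1, -, d2⟩ := b r d hr
    rw [← d2, hu _ _ _ _ d1 hc']

theorem Inj.row {x : ℕ → ℕ} (hx : Inj x) (r v : ℕ) : ∃ m, ∀ c, m ≤ c → v ≤ ent x r c := by
  have : Injective (ent x r) := fun c c' h => (Nat.pair_eq_pair.mp (hx _ _ h)).2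
  obtain ⟨m, hm⟩ := ((Set.finite_lt_nat v).preimage this.injOn).bddAbove
  exact ⟨m + 1, fun c hc => not_lt.mp fun h => by have := hm h; omega⟩

theorem Inj.rows {x : ℕ → ℕ} (hx : Inj x) (β : ℕ → ℕ) (n : ℕ) :
    ∃ m, ∀ r c, r < n → m ≤ c → β r ≤ ent x r c := by
  induction n with
  | zero => exact ⟨0, fun r c h => absurd h r.not_lt_zero⟩
  | succ n ih =>
    obtain ⟨m, hm⟩ := ih
    obtain ⟨m', hm'⟩ := hx.row n (β n)
    refine ⟨m + m', fun r c h1 h2 => ?_⟩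
    rcases Nat.lt_succ_iff_lt_or_eq.mp h1 with h1 | rfl
    · exact hm r c h1 (by omega)
    · exact hm' c (by omega)

/-- Column `c` holds the last entry of row `r` that is below `v`. -/
def Last (x : ℕ → ℕ) (r v c : ℕ) : Prop := ent x r c < v ∧ ∀ d, c < d → v ≤ ent x r d

theorem Last.uniq {x : ℕ → ℕ} {r v c c' : ℕ} (h : Last x r v c) (h' : Last x r v c') : c = c' :=
  le_antisymm (not_lt.mp fun a => (h'.2 c a).not_gt h.1) (not_lt.mp fun a => (h.2 c' a).not_gt h'.1)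

theorem Inj.last {x : ℕ → ℕ} (hx : Inj x) {r v c : ℕ} (h : ent x r c < v) :
    ∃ d, c ≤ d ∧ Last x r v d := by
  classical
  obtain ⟨m, hm⟩ := hx.row r v
  have hc : c ≤ m := not_lt.mp fun a => (hm c a.le).not_gt h
  refine ⟨_, Nat.le_findGreatest (P := fun d => ent x r d < v) hc h,
    Nat.findGreatest_spec (P := fun d => ent x r d < v) hc h, fun d hd => ?_⟩
  by_cases hdm : d ≤ m
  · exact not_lt.mp (Nat.findGreatest_is_greatest (P := fun d => ent x r d < v) hd hdm)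
  · exact hm d (by omega)

theorem Last.sh {x y : ℕ → ℕ} {s i j r v t : ℕ} (h : Sh x y s i j) (hr : s ≤ r)
    (hx : Last x r v (t + i)) : Last y r v (t + j) := by
  refine ⟨h r t hr ▸ hx.1, fun d hd => ?_⟩
  obtain ⟨u, rfl⟩ : ∃ u, d = u + j := ⟨d - j, by omega⟩
  exact h r u hr ▸ hx.2 _ (by omega)

theorem Sh.add {x y : ℕ → ℕ} {s i j r : ℕ} (h : Sh x y s i j) (hr : s ≤ r) (t : ℕ) :
    Sh x y r (t + i) (t + j) := fun a c ha => by
  rw [← add_assoc, ← add_assoc, h a _ (hr.trans ha)]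

theorem meas_le {f g : (ℕ → ℕ) → ℕ} (hf : Measurable f) (hg : Measurable g) :
    Measurable fun x => f x ≤ g x := measurableSet_setOfPred.mp (measurableSet_le hf hg)

theorem meas_last {v : (ℕ → ℕ) → ℕ} (hv : Measurable v) (r c : ℕ) :
    Measurable fun x => Last x r (v x) c :=
  (measurableSet_setOfPred.mp (measurableSet_lt (meas_ent r c) hv)).and
    (.forall fun d => measurable_const.imp (meas_le hv (meas_ent r d)))

theorem records {D : (ℕ → ℕ) → Prop} (hD : Measurable D) (β : ℕ → ℕ → ℕ) (hI : ∀ x, D x → Inj x)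
    (hβ : ∀ x, D x → ∀ m, ∃ n, ent x n m < β (x 0) n) : Hypersmooth (On D Ea) := by
  have hb : ∀ n, Measurable fun x : ℕ → ℕ => β (x 0) n := fun n =>
    (measurable_from_top (f := fun e => β e n)).comp (measurable_pi_apply 0)
  refine markers hD (fun x y => eqv_Ea.symm) (ρ := id) (M := fun n x c =>
    Last x n (β (x 0) n) c ∧ ∀ r d, r < n → c ≤ d → β (x 0) r ≤ ent x r d) (fun n c =>
      (meas_last (hb n) n c).and (.forall fun r => .forall fun d => measurable_const.imp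
        (measurable_const.imp (meas_le (hb r) (meas_ent r d)))))
    (fun n x c c' h h' => h.1.uniq h'.1) (fun x hx k => ?_) ?_ fun x y n c c' h => ⟨_, _, _, h⟩
  · classical
    obtain ⟨m, hm⟩ := (hI x hx).rows (β (x 0)) k
    have h : ∃ n c, m ≤ c ∧ ent x n c < β (x 0) n := (hβ x hx m).imp fun n hn => ⟨m, le_rfl, hn⟩
    obtain ⟨c, c1, c2⟩ := Nat.find_spec h
    obtain ⟨d, d1, d2⟩ := (hI x hx).last c2
    exact ⟨_, d, not_lt.mp fun a => (hm _ c a c1).not_gt c2, d2, fun r u hr hu =>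
      not_lt.mp fun a => Nat.find_min h hr ⟨u, by omega, a⟩⟩
  · rintro x y a1 a2 a3 ⟨s, i, j, h⟩
    obtain ⟨m, hm⟩ := (hI y a3).rows (β (y 0)) s
    obtain ⟨k, hk⟩ := hβ x a2 (m + i)
    refine ⟨k + s + 1, fun n c hn ⟨c1, c2⟩ => ?_⟩
    have : m + i < c := not_le.mp fun a => (c2 k _ (by omega) a).not_gt hk
    obtain ⟨t, rfl⟩ : ∃ t, c = t + i := ⟨c - i, by omega⟩
    refine ⟨t + j, ⟨a1 ▸ c1.sh h (by omega), fun r d hr hd => ?_⟩, h.add (by simp; omega) t⟩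
    by_cases hs : r < s
    · exact hm r d hs (by omega)
    · obtain ⟨u, rfl⟩ : ∃ u, d = u + j := ⟨d - j, by omega⟩
      exact a1 ▸ h r u (by omega) ▸ c2 r _ hr (by omega)

theorem no_bits (e : ℕ) {S : ℕ → Set (ℕ → ℕ)} (hS : ∀ k, MeasurableSet (S k))
    (mono : ∀ n x y, x 0 = e → y 0 = e → Inj x → Inj y → Fn S n x y → Fn S (n + 1) x y)
    (h : ∀ x y, x 0 = e → y 0 = e → Inj x → Inj y → (Ea x y ↔ ∃ n, Fn S n x y)) : False := by
  let Θ : (ℕ → ℕ) → ℕ → ℕ := fun A i => Nat.casesOn i e fun i => A (pos i.unpair)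
  have hI : ∀ A, Injective A → Inj (Θ A) := fun A hA a b h =>
    Nat.pairEquiv.symm.injective (pos_inj (hA h))
  have he : ∀ A r c, ent (Θ A) r c = A (tri (r + c) + r) := fun A r c => by simp [ent, Θ, pos]
  refine no_chain2 (P := fun k => Θ ⁻¹' S k) (fun d r K A B hA hB hab => ?_)
    (fun k => measurable_pi_lambda _ (fun i => ?_) (hS k))
    (fun n A B hA hB => mono n _ _ rfl rfl (hI A hA) (hI B hB)) fun n A B hA hB hn l => ?_
  · refine (h _ _ rfl rfl (hI A hA) (hI B hB)).mp ⟨K + r + 1, d, 0, fun a c ha => ?_⟩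
    rw [he, he, ← add_assoc]
    exact hab _ _ (by omega) (by omega) (by omega)
  · cases i
    · exact measurable_const
    · exact measurable_pi_apply _
  · obtain ⟨s, i, j, hs⟩ := (h _ _ rfl rfl (hI A hA) (hI B hB)).mpr ⟨n, hn⟩
    obtain ⟨m, hm⟩ := (hI A hA).row s (l.sum + 1)
    have := hs s m le_rfl
    rw [he, he] at this
    refine ⟨_, _, this, fun hl => ?_⟩
    have h1 := List.single_le_sum (fun _ _ => Nat.zero_le _) _ hl
    have h2 := hm (m + i) (by omega)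
    rw [he] at h2
    omega

end Pool.Agent.Lib.MP_5ddd96_lc.H38
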