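import Pool.Agent.Lib.MP_5ddd96_lc.H38.Game
import Pool.Agent.Lib.MP_5ddd96_lc.H38.Rec

/-!
A `Δ¹₁` hypersmooth equivalence relation with no `Δ¹₁` witness.
-/

set_option autoImplicit false

namespace Pool.Agent.EffHyp.H38

open Encodable
open Pool.Agent.Lib.MP_5ddd96_lc.H38 (ent Inj Sh Ea On Fn Hypersmooth eqv_Ea eqv_On records no_bits)

theorem fix {F : ℕ → Baire → Prop} (h : Sig fun p : ℕ × Baire => F p.1 p.2) :
    ∃ τ : ℕ → Baire, DFun τ ∧ ∀ e, (∃ z, ∀ l, τ e (encode (pre z l)) = 0) ↔ F e (τ e) := by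
  classical
  obtain ⟨f, hf, h⟩ := (sig_iff_sigma11 fun e t _ => F e t).mp
    (h.comp (F := fun p : ℕ × Baire × Baire => (p.1, p.2.1)) (by fun_prop))
  let g : List ℕ → List ℕ → Bool := fun a ν => f (ν.headI, a, a, ν.tail)
  have hg : Computable₂ g := hf.comp ((Primrec.list_headI.to_comp.comp Computable.snd).pair
    (Computable.fst.pair (Computable.fst.pair (Primrec.list_tail.to_comp.comp Computable.snd))))
  let b : ℕ → ℕ → List ℕ → ℕ := fun e c l =>
    if ∀ ν : List ℕ, encode ν = c → g (l.take ν.length) (e :: ν) = true then 0 else 1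
  choose τ hτ using fun e => run (b e)
  refine ⟨τ, DFun.ofGraphReal ((Del.all (P := fun (p : ℕ × Baire) c =>
    p.2 c = b p.1 c (pre p.2 c)) (.eqAtom (.eval (by fun_prop) (by fun_prop)) (.ite
    (.all (.imp (.eqAtom (by fun_prop) (by fun_prop)) (.test (.prim₂ hg (by fun_prop)
      (by fun_prop))))) (by fun_prop) (by fun_prop)))).1.congr ?_), fun e => ?_⟩
  · rintro ⟨e, t⟩
    refine ⟨fun h => h ▸ hτ e, fun h => ?_⟩
    have : ∀ n, pre (τ e) n = pre t n := fun n => by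
      induction n with
      | zero => rfl
      | succ n ih => rw [pre_succ, pre_succ, hτ, ih, ← h n]
    exact funext fun n => by rw [hτ, this, ← h n]
  refine (exists_congr fun z => forall_congr' fun l => ?_).trans (h e _ (τ e)).symm
  have := length_le_encode (pre z l)
  rw [RawAux.length_pre] at this
  simp [hτ e, b, g, RawAux.length_pre, RawAux.take_pre _ this]

def X (t x : Baire) : Prop := ∀ m, ∃ l, ∀ ν : List ℕ, ν.length = l →
  (∀ n, n < l → ν.getD n 0 ≤ ent x n m) → ∃ i, i ≤ l ∧ ¬ t (encode (ν.take i)) = 0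

def In (t x : Baire) : Prop := Inj x ∧ X t x

theorem X.small {t x z : Baire} (h : X t x) (hz : ∀ l, t (encode (pre z l)) = 0) (m : ℕ) :
    ∃ n, ent x n m < z n := by
  by_contra hn
  obtain ⟨l, hl⟩ := h m
  obtain ⟨i, h1, h2⟩ := hl (pre z l) (RawAux.length_pre _ _) fun n h => by
    rw [RawAux.getD_pre z h]; exact not_lt.mp fun a => hn ⟨n, a⟩
  exact h2 (by rw [RawAux.take_pre z h1, hz])

theorem konig {t : Baire} (h : ¬ ∃ z, ∀ l, t (encode (pre z l)) = 0) (x : Baire) : X t x := by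
  intro m
  by_contra hn
  simp only [not_exists, not_forall, not_and, not_not] at hn
  let K : ℕ → Set Baire := fun l =>
    Set.Icc 0 (fun n => ent x n m) ∩ ⋂ i, ⋂ _ : i ≤ l, {z | t (encode (pre z i)) = 0}
  have hc : ∀ l, IsClosed (⋂ i, ⋂ _ : i ≤ l, {z : Baire | t (encode (pre z i)) = 0}) := fun l =>
    isClosed_iInter fun i => isClosed_iInter fun _ =>
      (closed_pre (fun a _ => t (encode a) = 0) i).preimage (continuous_id.prodMk continuous_id)
  obtain ⟨z, hz⟩ := IsCompact.nonempty_iInter_of_sequence_nonempty_isCompact_isClosed K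
    (fun l z hz => ⟨hz.1, Set.mem_iInter₂.mpr fun i hi => Set.mem_iInter₂.mp hz.2 i (by omega)⟩)
    (fun l => by
      obtain ⟨ν, h1, h2, h3⟩ := hn l
      refine ⟨fun n => ν.getD n 0, ⟨fun n => Nat.zero_le _, fun n => ?_⟩,
        Set.mem_iInter₂.mpr fun i hi => ?_⟩
      · by_cases hl : n < l
        · exact h2 n hl
        · exact (List.getD_eq_default _ _ (by omega)).trans_le (Nat.zero_le _)
      · have : pre (fun n => ν.getD n 0) i = ν.take i :=
          List.ext_getElem (by simp [pre]; omega) fun j a1 a2 => by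
            simp [pre, show j < ν.length by simp at a2; omega]
        exact (congrArg (fun a => t (encode a)) this).trans (h3 i hi))
    (isCompact_Icc.inter_right (hc 0)) fun l => isClosed_Icc.inter (hc l)
  exact h ⟨z, fun l => Set.mem_iInter₂.mp (Set.mem_iInter.mp hz l).2 l le_rfl⟩

def Sep (e n : ℕ) (x y : Baire) : Prop := ∃ k, PP e (Nat.pair n k) x ∧ QQ e (Nat.pair n k) y ∨
  QQ e (Nat.pair n k) x ∧ PP e (Nat.pair n k) y

def Eqv (e n : ℕ) (x y : Baire) : Prop := ∀ k, PP e (Nat.pair n k) x ∧ PP e (Nat.pair n k) y ∨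
  QQ e (Nat.pair n k) x ∧ QQ e (Nat.pair n k) y

def Fail (e : ℕ) (t : Baire) : Prop := ∃ x y : Baire, x 0 = e ∧ y 0 = e ∧ In t x ∧ In t y ∧
  ((Ea x y ∧ ∀ n, Sep e n x y) ∨ (¬ Ea x y ∧ ∃ n, Eqv e n x y) ∨
    ∃ n m, n ≤ m ∧ Eqv e n x y ∧ Sep e m x y)

section
variable {S : Type} [Coded S]

@[fun_prop] theorem dEnt {X : S → Baire} {A B : S → ℕ} (hX : DFun X) (hA : DFun A)
    (hB : DFun B) : DFun fun s => ent (X s) (A s) (B s) :=
  .eval (B := fun s => Nat.pair (A s) (B s) + 1) hX (by fun_prop)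

@[fun_prop] theorem dGet {A : S → List ℕ} {B : S → ℕ} (hA : DFun A) (hB : DFun B) :
    DFun fun s => List.getD (A s) (B s) 0 :=
  DFun.prim₂ (φ := fun (l : List ℕ) n => l.getD n 0) (Primrec.list_getD 0).to_comp hA hB

theorem delInj {X : S → Baire} (hX : DFun X) : Del fun s => Inj (X s) :=
  .all (.all (.imp (.eqAtom (.eval (by fun_prop) (by fun_prop))
    (.eval (by fun_prop) (by fun_prop))) (.eqAtom (by fun_prop) (by fun_prop))))

theorem delIn {T X : S → Baire} (hT : DFun T) (hX : DFun X) : Del fun s => In (T s) (X s) :=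
  (delInj hX).and (.all (.ex (.all (.imp (.eqAtom (by fun_prop) (by fun_prop)) (.imp
    (.all (.imp (.lt (by fun_prop) (by fun_prop)) (.le (by fun_prop) (by fun_prop))))
    (.ex (.and (.le (by fun_prop) (by fun_prop))
      (.not (.eqAtom (.eval (by fun_prop) (by fun_prop)) (by fun_prop))))))))))

theorem delEa {X Y : S → Baire} (hX : DFun X) (hY : DFun Y) : Del fun s => Ea (X s) (Y s) :=
  .ex (.ex (.ex (.all (.all (.imp (.le (by fun_prop) (by fun_prop))
    (.eqAtom (by fun_prop) (by fun_prop)))))))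

theorem sigSep {E N : S → ℕ} {X Y : S → Baire} (hE : DFun E) (hN : DFun N) (hX : DFun X)
    (hY : DFun Y) : Sig fun s => Sep (E s) (N s) (X s) (Y s) :=
  .ex (.or (.and (sigP (by fun_prop) (by fun_prop) (by fun_prop))
    (sigQ (by fun_prop) (by fun_prop) (by fun_prop)))
    (.and (sigQ (by fun_prop) (by fun_prop) (by fun_prop))
    (sigP (by fun_prop) (by fun_prop) (by fun_prop))))

theorem sigEqv {E N : S → ℕ} {X Y : S → Baire} (hE : DFun E) (hN : DFun N) (hX : DFun X)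
    (hY : DFun Y) : Sig fun s => Eqv (E s) (N s) (X s) (Y s) :=
  .all (.or (.and (sigP (by fun_prop) (by fun_prop) (by fun_prop))
    (sigP (by fun_prop) (by fun_prop) (by fun_prop)))
    (.and (sigQ (by fun_prop) (by fun_prop) (by fun_prop))
    (sigQ (by fun_prop) (by fun_prop) (by fun_prop))))

end

theorem sigFail : Sig fun p : ℕ × Baire => Fail p.1 p.2 := by
  refine .exReal (.exReal (.and (Del.eqAtom (.eval ?_ ?_) ?_).1 (.and (Del.eqAtom (.eval ?_ ?_) ?_).1
    (.and (delIn ?_ ?_).1 (.and (delIn ?_ ?_).1 (.or (.and (delEa ?_ ?_).1 (.all (sigSep ?_ ?_ ?_ ?_)))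
    (.or (.and (delEa ?_ ?_).2 (.ex (sigEqv ?_ ?_ ?_ ?_))) (.ex (.ex (.and (Del.le ?_ ?_).1
    (.and (sigEqv ?_ ?_ ?_ ?_) (sigSep ?_ ?_ ?_ ?_))))))))))))
  all_goals fun_prop

theorem fail_of {t : Baire} (h : ∀ x, X t x) (e : ℕ) : Fail e t := by
  by_contra hn
  have h0 : ∀ x y, x 0 = e → y 0 = e → Inj x → Inj y → ¬ ((Ea x y ∧ ∀ n, Sep e n x y) ∨
      (¬ Ea x y ∧ ∃ n, Eqv e n x y) ∨ ∃ n m, n ≤ m ∧ Eqv e n x y ∧ Sep e m x y) :=
    fun x y a b c d f => hn ⟨x, y, a, b, ⟨c, h x⟩, ⟨d, h y⟩, f⟩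
  have h1 : ∀ x, x 0 = e → Inj x → ∀ k, QQ e k x ↔ ¬ PP e k x := fun x a c k =>
    ⟨fun q p => h0 x x a a c c (.inr (.inr ⟨k.unpair.1, _, le_rfl, fun _ => by
      simpa using PQ e _ x, k.unpair.2, by simp [p, q]⟩)), (PQ e k x).resolve_left⟩
  let S : ℕ → Set Baire := fun k => {x | (x 0 = e ∧ Inj x) ∧ PP e k x}
  have h2 : ∀ n x y, x 0 = e → y 0 = e → Inj x → Inj y →
      (Eqv e n x y ↔ Fn S n x y) ∧ (Sep e n x y ↔ ¬ Fn S n x y) := fun n x y a b c d => by
    simp only [Eqv, Sep, Fn, S, Set.mem_ofPred_eq, a, b, c, d, h1 x a c, h1 y b d, true_and,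
      not_forall]
    exact ⟨forall_congr' fun k => by tauto, exists_congr fun k => by tauto⟩
  have hD : Del fun x : Baire => x 0 = e ∧ Inj x :=
    (Del.eqAtom (.eval .id (.const 0)) (.const e)).and (delInj .id)
  refine no_bits e (S := S) (fun k => meas ⟨hD.1.and (sigP (.const e) (.const k) .id),
    (hD.2.or (sigQ (.const e) (.const k) .id)).congr fun x => ?_⟩) (fun n x y a b c d f => ?_)
    fun x y a b c d => ⟨fun f => ?_, fun ⟨n, f⟩ => ?_⟩
  · by_cases hx : x 0 = e ∧ Inj x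
    · simp [hx, h1 x hx.1 hx.2]
    · simp [hx]
  · by_contra g
    exact h0 x y a b c d (.inr (.inr ⟨n, n + 1, n.le_succ, (h2 _ _ _ a b c d).1.mpr f,
      (h2 _ _ _ a b c d).2.mpr g⟩))
  · by_contra g
    exact h0 x y a b c d (.inl ⟨f, fun n => (h2 _ _ _ a b c d).2.mpr fun f => g ⟨n, f⟩⟩)
  · by_contra g
    exact h0 x y a b c d (.inr (.inl ⟨g, n, (h2 _ _ _ a b c d).1.mpr f⟩))

theorem main : ∃ E : Baire → Baire → Prop, Equivalence E ∧ Delta11 (fun _ => E) ∧ Hypersmooth E ∧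
    ¬ ∃ φ : ℕ → Baire → Baire, Sigma11 (fun n x y => φ n x = y) ∧
      (∀ n x y, φ n x = φ n y → φ (n + 1) x = φ (n + 1) y) ∧
      ∀ x y, E x y ↔ ∃ n, φ n x = φ n y := by
  obtain ⟨τ, hτ, h⟩ := fix sigFail
  have hb : ∀ e, ∃ z, ∀ l, τ e (encode (pre z l)) = 0 := fun e => by
    by_contra hn
    exact hn ((h e).mpr (fail_of (konig hn) e))
  choose β hβ using id hb
  have hD : Del fun x : Baire => In (τ (x 0)) x := delIn (hτ.comp (.eval .id (.const 0))) .id
  have hE : Del fun p : ℕ × Baire × Baire => On (fun x => In (τ (x 0)) x) Ea p.2.1 p.2.2 :=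
    (Del.eqReal (by fun_prop) (by fun_prop)).or ((Del.eqAtom (.eval (by fun_prop) (.const 0))
      (.eval (by fun_prop) (.const 0))).and ((hD.comp (by fun_prop)).and
      ((hD.comp (by fun_prop)).and (delEa (by fun_prop) (by fun_prop)))))
  refine ⟨On (fun x => In (τ (x 0)) x) Ea, eqv_On eqv_Ea, ⟨(sig_iff_sigma11 _).mp hE.1,
    (sig_iff_sigma11 _).mp hE.2⟩, records (measurableSet_setOfPred.mp (meas hD)) β
    (fun x hx => hx.1) fun x hx => hx.2.small (hβ _), ?_⟩
  rintro ⟨φ, h1, h2, h3⟩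
  have hφ : DFun fun p : ℕ × Baire => φ p.1 p.2 := .ofGraphReal (((sig_iff_sigma11 _).mpr h1).comp
    (F := fun q : (ℕ × Baire) × Baire => (q.1.1, q.1.2, q.2)) (by fun_prop))
  obtain ⟨e, he⟩ := valid (P := fun a x => φ a.unpair.1 x a.unpair.2.unpair.1 = a.unpair.2.unpair.2)
    (.eqAtom (.eval (hφ.comp (F := fun p : ℕ × Baire => (p.1.unpair.1, p.2)) (by fun_prop))
      (by fun_prop)) (by fun_prop))
  have a1 : ∀ n x y, Eqv e n x y → φ n x = φ n y := fun n x y h => funext fun i => by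
    have := h (Nat.pair i (φ n x i))
    simp only [he, Nat.unpair_pair, not_true, false_and, or_false, true_and] at this
    exact this.symm
  have a2 : ∀ n x y, Sep e n x y → φ n x ≠ φ n y := fun n x y ⟨k, h⟩ g => by
    simp only [he, Nat.unpair_pair, g] at h
    tauto
  obtain ⟨x, y, b1, b2, b3, b4, b5⟩ := (h e).mp (hb e)
  have a3 : Ea x y ↔ ∃ n, φ n x = φ n y := by
    rw [← h3]
    refine ⟨fun g => Or.inr ⟨b1.trans b2.symm, by rwa [← b1] at b3, by rwa [← b2] at b4, g⟩, ?_⟩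
    rintro (rfl | g)
    · exact eqv_Ea.refl _
    · exact g.2.2.2
  rcases b5 with ⟨c1, c2⟩ | ⟨c1, n, c2⟩ | ⟨n, m, c1, c2, c3⟩
  · obtain ⟨n, hn⟩ := a3.mp c1
    exact a2 n x y (c2 n) hn
  · exact c1 (a3.mpr ⟨n, a1 n x y c2⟩)
  · refine a2 m x y c3 ?_
    clear c3
    induction c1 with
    | refl => exact a1 _ x y c2
    | step _ ih => exact h2 _ x y ih

end Pool.Agent.EffHyp.H38
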