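import Pool.Agent.Lib.MP_5ddd96_lc.H38.Game

/-!
The Gandy-Harrington topology is Baire; a smooth `Σ¹₁` relation meets no `Σ¹₁` set of inseparable
pairs.
-/

set_option autoImplicit false

namespace Pool.Agent.EffHyp.H38

open Sig2Aux TopologicalSpace Filter

def GH : Type := Baire

instance : TopologicalSpace GH := generateFrom {A | Sig fun x : Baire => x ∈ A}

theorem basis : IsTopologicalBasis {A : Set GH | Sig fun x : Baire => x ∈ A} :=
  ⟨fun _ h _ h' _ hx => ⟨_, Sig.and h h', hx, subset_rfl⟩,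
    Set.sUnion_eq_univ_iff.mpr fun _ => ⟨Set.univ, Sig.const True, trivial⟩, rfl⟩

theorem opn {P : Baire → Prop} (h : Sig P) : IsOpen {x : GH | P x} := basis.isOpen h

theorem proj {P : Baire → Prop} (h : Sig P) : ∃ C : Baire × Baire → Prop, Sig C ∧
    IsClosed {p | C p} ∧ ∀ x, P x ↔ ∃ z, C (x, z) := by
  obtain ⟨f, hf, h⟩ := (sig_iff_sigma11 fun _ x _ => P x).mp (h.comp (by fun_prop))
  have hg : Computable₂ fun a b : List ℕ => f (0, a, a, b) := hf.comp ((Computable.const 0).pair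
    (Computable.fst.pair (Computable.fst.pair Computable.snd)))
  refine ⟨fun p => ∀ n, f (0, pre p.1 n, pre p.1 n, pre p.2 n) = true,
    (Del.all (.test (.prim₂ hg (by fun_prop) (by fun_prop)))).1, ?_, fun x => h 0 x x⟩
  rw [Set.ofPred_forall]
  exact isClosed_iInter fun n => closed_pre (fun a b => f (0, a, a, b) = true) n

def Good (s : ℕ) (K : Set Baire) : Prop := Sig (fun w => w ∈ K) ∧ IsClosed K ∧ K.Nonempty ∧
  ∀ w ∈ K, ∀ v : Baire, (∀ n : ℕ, n.unpair.1 ≤ s → v n = w n) → v ∈ K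

theorem Good.step {s : ℕ} {K : Set Baire} (h : Good s K) {U : Set GH} (hU : IsOpen U)
    (hw : ∃ w ∈ K, col w 0 ∈ U) : ∃ L, Good (s + 1) L ∧ L ⊆ K ∧ (∀ w ∈ L, col w 0 ∈ U) ∧
      ∀ w ∈ L, ∀ v ∈ L, w s = v s := by
  obtain ⟨w, w1, w2⟩ := hw
  obtain ⟨A, a1, a2, a3⟩ := basis.exists_subset_of_mem_open w2 hU
  obtain ⟨C, c1, c2, c3⟩ := proj a1
  obtain ⟨z, hz⟩ := (c3 _).mp a2
  let u : Baire := fun n => if n.unpair.1 = s + 1 then z n.unpair.2 else w n
  have hc : ∀ i, Continuous fun v : Baire => col v i := fun i =>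
    continuous_pi fun _ => continuous_apply _
  refine ⟨K ∩ ({v | C (col v 0, col v (s + 1))} ∩ {v | v s = u s}), ⟨h.1.and (.and (c1.comp
    (.prodMk (dfun_col .id (.const _)) (dfun_col .id (.const _)))) (Del.eqAtom (.eval .id
    (.const _)) (.const _)).1), h.2.1.inter ((c2.preimage ((hc 0).prodMk (hc _))).inter
    (isClosed_eq (continuous_apply _) continuous_const)), ⟨u, h.2.2.2 w w1 u fun n hn =>
    if_neg (by omega), ?_, rfl⟩, fun v ⟨v1, v2, v3⟩ y hy => ⟨h.2.2.2 v v1 y fun n hn =>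
    hy n (by omega), ?_, (hy s ((Nat.unpair_left_le s).trans s.le_succ)).trans v3⟩⟩,
    Set.inter_subset_left, fun v hv => a3 ((c3 _).mpr ⟨_, hv.2.1⟩),
    fun v hv y hy => hv.2.2.trans hy.2.2.symm⟩
  · have e1 : col u 0 = col w 0 := funext fun i => by simp [col, u]
    have e2 : col u (s + 1) = z := funext fun i => by simp [col, u]
    show C (col u 0, col u (s + 1))
    rwa [e1, e2]
  · have e : ∀ i, i ≤ s + 1 → col y i = col v i := fun i hi => funext fun j =>
      hy _ (by simpa using hi)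
    show C (col y 0, col y (s + 1))
    rwa [e 0 (by omega), e _ le_rfl]

instance : BaireSpace GH := ⟨fun f ho hd => basis.dense_iff.mpr fun A hA ⟨x, hx⟩ => by
  have h0 : Good 0 Set.univ := ⟨.const True, isClosed_univ, ⟨x, trivial⟩, fun _ _ _ _ => trivial⟩
  obtain ⟨L, l1, -, l2, l3⟩ := h0.step (basis.isOpen hA)
    ⟨fun n => x n.unpair.2, trivial, by rwa [show col _ 0 = x from funext fun i => by simp [col]]⟩
  have : ∀ s K, ∃ L, Good (s + 1) K → Good (s + 2) L ∧ L ⊆ K ∧ (∀ w ∈ L, col w 0 ∈ f s) ∧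
      ∀ w ∈ L, ∀ v ∈ L, w (s + 1) = v (s + 1) := fun s K => by
    by_cases h : Good (s + 1) K
    · obtain ⟨w, hw⟩ := h.2.2.1
      obtain ⟨y, ⟨v, v1, rfl⟩, h2⟩ := (hd s).inter_open_nonempty _ (opn (P := fun x => ∃ w,
        w ∈ K ∧ col w 0 = x) (.exReal (.and (h.1.comp (by fun_prop)) (Del.eqReal (dfun_col
        (by fun_prop) (.const _)) (by fun_prop)).1))) ⟨_, w, hw, rfl⟩
      exact (h.step (ho s) ⟨v, v1, h2⟩).imp fun _ a _ => a
    · exact ⟨K, fun a => absurd a h⟩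
  choose g hg using this
  let K : ℕ → Set Baire := fun n => Nat.rec L g n
  have k1 : ∀ n, Good (n + 1) (K n) := fun n => Nat.rec l1 (fun n ih => (hg n _ ih).1) n
  have k2 : Antitone K := antitone_nat_of_succ_le fun n => (hg n _ (k1 n)).2.1
  have k3 : ∀ n, ∀ w ∈ K n, ∀ v ∈ K n, w n = v n := fun n => by
    cases n with
    | zero => exact l3
    | succ n => exact (hg n _ (k1 n)).2.2.2
  choose w hw using fun n => (k1 n).2.2.1
  have k4 : ∀ n, (fun i => w i i) ∈ K n := fun n => (k1 n).2.1.mem_of_tendsto (f := w) (b := atTop)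
    (tendsto_pi_nhds.mpr fun i => tendsto_const_nhds.congr' (eventually_atTop.mpr
      ⟨i, fun j hj => k3 i _ (hw i) _ (k2 hj (hw j))⟩))
    (eventually_atTop.mpr ⟨n, fun j hj => k2 hj (hw j)⟩)
  exact ⟨_, l2 _ (k4 0), Set.mem_iInter.mpr fun s => (hg s _ (k1 s)).2.2.1 _ (k4 (s + 1))⟩⟩

theorem tends {g : Baire → Baire} (h : DFun g) :
    Tendsto (α := GH) (β := GH) g (residual GH) (residual GH) :=
  tendsto_residual_of_isOpenMap (basis.continuous_iff.mpr fun _ hA => opn (Sig.comp hA h))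
    (basis.isOpenMap_iff.mpr fun _ hA => opn (.exReal (.and (Sig.comp hA (by fun_prop))
      (Del.eqReal (h.comp (by fun_prop)) (by fun_prop)).1)))

theorem bp {B : Set Baire} (h : MeasurableSet B) :
    ∃ U : Set GH, IsOpen U ∧ ∀ᶠ x in residual GH, x ∈ B ↔ x ∈ U := by
  borelize GH
  have : Continuous (X := GH) (Y := Baire) id := continuous_pi fun i =>
    continuous_discrete_rng.mpr fun b => opn (Del.eqAtom (.eval .id (.const i)) (.const b)).1
  obtain ⟨U, h1, h2⟩ := (this.measurable h).residualEq_isOpen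
  exact ⟨U, h1, eventuallyEq_set.mp h2⟩

@[fun_prop] theorem dLft {S : Type} [Coded S] {A : S → Baire} (h : DFun A) :
    DFun fun s => lft (A s) :=
  .lam (F := fun s i => A s (2 * i)) (.eval (by fun_prop) (by fun_prop))

@[fun_prop] theorem dRgt {S : Type} [Coded S] {A : S → Baire} (h : DFun A) :
    DFun fun s => rgt (A s) :=
  .lam (F := fun s i => A s (2 * i + 1)) (.eval (by fun_prop) (by fun_prop))

theorem gh_main {F D : Baire → Baire → Prop} (hF : Sig fun p : Baire × Baire => F p.1 p.2)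
    (hD : Sig fun p : Baire × Baire => D p.1 p.2) {φ : Baire → ℝ} (hφ : Measurable φ)
    (h1 : ∀ x y, F x y → φ x = φ y) (h2 : ∀ x y, D x y → φ x ≠ φ y)
    (h3 : ∀ x y, D x y → ∀ A B : Baire → Prop, Sig A → Sig B → A x → B y →
      ∃ u v, A u ∧ B v ∧ F u v) (x y : Baire) : ¬ D x y := fun h => by
  choose U hU hB using fun k : ℚ × Prop => bp (B := {x | φ x < k.1 ↔ k.2})
    (measurableSet_setOfPred.mpr ((measurableSet_setOfPred.mp
      (measurableSet_lt hφ measurable_const)).iff measurable_const))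
  have hd := dense_of_mem_residual (eventually_countable_forall.mpr fun k =>
    ((tends (dLft .id)).eventually (hB k)).and ((tends (dRgt .id)).eventually (hB k)))
  obtain ⟨w, w1, w2⟩ := hd.inter_open_nonempty _ (opn (hD.comp
    (F := fun w => (lft w, rgt w)) (by fun_prop))) ⟨join x y, by simpa using h⟩
  obtain ⟨q, hq⟩ : ∃ q : ℚ, ¬ (φ (lft w) < q ↔ φ (rgt w) < q) := by
    rcases lt_or_gt_of_ne (h2 _ _ w1) with a | a <;> obtain ⟨q, b, c⟩ := exists_rat_btwn a
    · exact ⟨q, fun d => (d.mp b).not_gt c⟩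
    · exact ⟨q, fun d => (d.mpr b).not_gt c⟩
  obtain ⟨A, a1, a2, a3⟩ := basis.exists_subset_of_mem_open
    ((w2 (q, φ (lft w) < q)).1.mp Iff.rfl) (hU _)
  obtain ⟨B, b1, b2, b3⟩ := basis.exists_subset_of_mem_open
    ((w2 (q, φ (rgt w) < q)).2.mp Iff.rfl) (hU _)
  obtain ⟨u, v, c⟩ := h3 _ _ w1 _ _ a1 b1 a2 b2
  obtain ⟨z, ⟨z1, z2, z3⟩, z4⟩ := hd.inter_open_nonempty _ (opn (.and (Sig.comp a1 (dLft .id))
    (.and (Sig.comp b1 (dRgt .id)) (hF.comp (F := fun w => (lft w, rgt w)) (by fun_prop)))))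
    ⟨join u v, by simpa using c⟩
  exact hq (Iff.trans (Iff.symm ((z4 _).1.mpr (a3 z1))) (h1 _ _ z3 ▸ (z4 _).2.mpr (b3 z2)))

theorem sep {P Q : Baire → Prop} (hP : Sig P) (hQ : Sig Q) (h : ∀ x, P x → ¬ Q x) :
    ∃ d, (∀ x, P x → ¬ QQ d 0 x) ∧ ∀ x, PP d 0 x → ¬ Q x := by
  obtain ⟨e, he⟩ := exists_rej ((sig_iff_sigma11 fun _ x _ => P x).mp (hP.comp (by fun_prop)))
  obtain ⟨e', he'⟩ := exists_rej ((sig_iff_sigma11 fun _ x _ => Q x).mp (hQ.comp (by fun_prop)))
  refine ⟨Nat.pair e e', fun x a b => ?_, fun x a b => ?_⟩ <;>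
    simp only [PP, QQ, Nat.unpair_pair] at *
  · obtain ⟨z, hz⟩ := (he 0 x).mp a
    exact h x a ((he' 0 x).mpr (b.br hz))
  · obtain ⟨z, hz⟩ := (he' 0 x).mp b
    exact h x ((he 0 x).mpr (a.br hz)) b

end Pool.Agent.EffHyp.H38
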