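import Pool.Agent.Lib.MP_5ddd96_lc.H38.Eff
import Pool.Agent.Lib.MP_5ddd96_lc.H38.GH

/-!
A `Δ¹₁` hypersmooth equivalence relation that is no increasing union of a uniformly `Δ¹₁` sequence
of smooth relations.
-/

set_option autoImplicit false

namespace Pool.Agent.EffHyp.H38

open Encodable MeasureTheory
open Pool.Agent.Lib.MP_5ddd96_lc.H38 (ent Inj Sh Ea On Fn Smooth Hypersmooth eqv_Ea eqv_On records
  no_bits)

def Fp (e n : ℕ) (x y : Baire) : Prop := PP e n (join x y)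

def Fq (e n : ℕ) (x y : Baire) : Prop := QQ e n (join x y)

def Hit (e n d c : ℕ) : Prop := ∃ u v, PP d 0 u ∧ PP c 0 v ∧ Fp e n u v

def Near (e n : ℕ) (x y : Baire) : Prop :=
  Fq e n x y ∧ ∀ d c, QQ d 0 x ∨ QQ c 0 y ∨ Hit e n d c

def Bad (e : ℕ) (t : Baire) : Prop := ∃ x y z : Baire, ∃ n m, Fq e n x x ∨
  (n ≤ m ∧ Fp e n x y ∧ Fp e n x z ∧ Fq e m y z) ∨ Near e n x y ∨
  (x 0 = e ∧ y 0 = e ∧ In t x ∧ In t y ∧ (Ea x y ∧ (∀ k, Fq e k x y) ∨ ¬ Ea x y ∧ Fp e n x y))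

section
variable {S : Type} [Coded S] {E N : S → ℕ} {X Y : S → Baire}

@[fun_prop] theorem dJoin (hX : DFun X) (hY : DFun Y) : DFun fun s => join (X s) (Y s) :=
  hX.prodMk hY

theorem sigFp (hE : DFun E) (hN : DFun N) (hX : DFun X) (hY : DFun Y) :
    Sig fun s => Fp (E s) (N s) (X s) (Y s) := sigP hE hN (dJoin hX hY)

theorem sigFq (hE : DFun E) (hN : DFun N) (hX : DFun X) (hY : DFun Y) :
    Sig fun s => Fq (E s) (N s) (X s) (Y s) := sigQ hE hN (dJoin hX hY)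

theorem sigNear (hE : DFun E) (hN : DFun N) (hX : DFun X) (hY : DFun Y) :
    Sig fun s => Near (E s) (N s) (X s) (Y s) := by
  refine (sigFq hE hN hX hY).and (.all (.all (.or (sigQ ?_ ?_ ?_) (.or (sigQ ?_ ?_ ?_)
    (.exReal (.exReal (.and (sigP ?_ ?_ ?_) (.and (sigP ?_ ?_ ?_) (sigFp ?_ ?_ ?_ ?_)))))))))
  all_goals fun_prop

end

theorem sigBad : Sig fun p : ℕ × Baire => Bad p.1 p.2 := by
  refine .exReal (.exReal (.exReal (.ex (.ex (.or (sigFq ?_ ?_ ?_ ?_) (.or (.and (Del.le ?_ ?_).1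
    (.and (sigFp ?_ ?_ ?_ ?_) (.and (sigFp ?_ ?_ ?_ ?_) (sigFq ?_ ?_ ?_ ?_)))) (.or
    (sigNear ?_ ?_ ?_ ?_) (.and (Del.eqAtom (.eval ?_ ?_) ?_).1 (.and (Del.eqAtom (.eval ?_ ?_) ?_).1
    (.and (delIn ?_ ?_).1 (.and (delIn ?_ ?_).1 (.or (.and (delEa ?_ ?_).1 (.all (sigFq ?_ ?_ ?_ ?_)))
    (.and (delEa ?_ ?_).2 (sigFp ?_ ?_ ?_ ?_))))))))))))))
  all_goals fun_prop

theorem bad_of {t : Baire} (h : ∀ x, X t x) (e : ℕ) : Bad e t := by
  by_contra hn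
  have pq : ∀ {n x y}, ¬ Fq e n x y → Fp e n x y := fun a => (PQ _ _ _).resolve_right a
  have rf : ∀ n x, Fp e n x x := fun n x => pq fun a => hn ⟨x, x, x, n, n, .inl a⟩
  have eu : ∀ {n m x y z}, n ≤ m → Fp e n x y → Fp e n x z → ¬ Fq e m y z :=
    fun a b c d => hn ⟨_, _, _, _, _, .inr (.inl ⟨a, b, c, d⟩)⟩
  have tr : ∀ {n x y z}, Fp e n x y → Fp e n y z → Fp e n x z := fun a b =>
    pq (eu le_rfl (pq (eu le_rfl a (rf _ _))) b)
  let S : ℕ → Set Baire := fun k => {x | ∃ d, ¬ Hit e k.unpair.1 d k.unpair.2 ∧ PP d 0 x}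
  have iv : ∀ n c d x y, ¬ Hit e n d c → PP d 0 x → Fp e n x y →
      ∃ d, ¬ Hit e n d c ∧ ¬ QQ d 0 y := fun n c d x y a b f => by
    obtain ⟨d', d1, d2⟩ := sep (P := fun y => ∃ x, PP d 0 x ∧ Fp e n x y)
      (Q := fun u => ∃ v, PP c 0 v ∧ Fp e n u v)
      (.exReal (.and (sigP (.const _) (.const _) (by fun_prop))
        (sigFp (.const _) (.const _) (by fun_prop) (by fun_prop))))
      (.exReal (.and (sigP (.const _) (.const _) (by fun_prop))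
        (sigFp (.const _) (.const _) (by fun_prop) (by fun_prop))))
      fun y ⟨x, x1, x2⟩ ⟨v, v1, v2⟩ => a ⟨x, v, x1, v1, tr x2 v2⟩
    exact ⟨d', fun ⟨u, v, a1, a2, a3⟩ => d2 u a1 ⟨v, a2, a3⟩, d1 y ⟨x, b, f⟩⟩
  have iS : ∀ n c x y, Fp e n x y → x ∈ S (Nat.pair n c) → y ∈ S (Nat.pair n c) := by
    simp only [S, Nat.unpair_pair]
    exact fun n c x y f ⟨d, a, b⟩ => (iv n c d x y a b f).imp fun d a =>
      ⟨a.1, (PQ _ _ _).resolve_right a.2⟩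
  have h2 : ∀ n x y, Fn S n x y ↔ Fp e n x y := fun n x y => ⟨fun a => pq fun b => by
    have : ¬ Near e n x y := fun c => hn ⟨x, y, x, n, n, .inr (.inr (.inl c))⟩
    simp only [Near, b, true_and, not_forall, not_or] at this
    obtain ⟨d, c, a1, a2, a3⟩ := this
    have := a c
    simp only [S, Nat.unpair_pair] at this
    obtain ⟨d', b1, b2⟩ := this.mp ⟨d, a3, (PQ _ _ _).resolve_right a1⟩
    exact b1 ⟨y, y, b2, (PQ _ _ _).resolve_right a2, rf n y⟩,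
    fun a c => ⟨iS n c x y a, iS n c y x (pq (eu le_rfl a (rf _ _)))⟩⟩
  have h0 : ∀ x y n, x 0 = e → y 0 = e → Inj x → Inj y →
      ¬ (Ea x y ∧ (∀ k, Fq e k x y) ∨ ¬ Ea x y ∧ Fp e n x y) :=
    fun x y n a b c d f => hn ⟨x, y, x, n, n, .inr (.inr (.inr ⟨a, b, ⟨c, h x⟩, ⟨d, h y⟩, f⟩))⟩
  refine no_bits e (S := S) (fun k => AnalyticSet.measurableSet_of_compl ?_ ?_)
    (fun n x y _ _ _ _ f => (h2 _ _ _).mpr (pq (eu n.le_succ (rf _ _) ((h2 _ _ _).mp f))))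
    fun x y a b c d => ⟨fun f => ?_, fun ⟨n, f⟩ => ?_⟩
  · simp only [S, Set.ofPred_exists]
    exact .iUnion fun d => analytic ((Sig.const _).and (sigP (.const d) (.const 0) .id))
  · have : (S k)ᶜ = ⋂ d, {x | Hit e k.unpair.1 d k.unpair.2 ∨ QQ d 0 x} := by
      refine Set.ext fun x => ⟨fun a => Set.mem_iInter.mpr fun d => or_iff_not_imp_left.mpr
        fun b => (PQ _ _ _).resolve_left fun c => a ⟨d, b, c⟩, fun a ⟨d, b, c⟩ => ?_⟩
      obtain ⟨d', b1, b2⟩ := iv _ _ d x x b c (rf _ _)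
      exact (Set.mem_iInter.mp a d').elim b1 b2
    exact this ▸ .iInter fun d => analytic ((Sig.const _).or (sigQ (.const d) (.const 0) .id))
  · by_contra g
    exact h0 x y 0 a b c d (.inl ⟨f, fun n => (PQ _ _ _).resolve_left fun f =>
      g ⟨n, (h2 _ _ _).mpr f⟩⟩)
  · by_contra g
    exact h0 x y n a b c d (.inr ⟨g, (h2 _ _ _).mp f⟩)

theorem not_near {e n : ℕ} {φ : Baire → ℝ} (hφ : Measurable φ)
    (h1 : ∀ x y, Fp e n x y → φ x = φ y) (h2 : ∀ x y, Fq e n x y → φ x ≠ φ y) (x y : Baire) :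
    ¬ Near e n x y := by
  refine gh_main (F := Fp e n) (sigFp ?_ ?_ ?_ ?_) (sigNear ?_ ?_ ?_ ?_) hφ h1
    (fun x y a => h2 x y a.1) (fun x y a A B hA hB b c => ?_) x y
  any_goals fun_prop
  by_contra g
  obtain ⟨d, d1, d2⟩ := sep (Q := fun u => ∃ v, B v ∧ Fp e n u v) hA
    (.exReal (.and (hB.comp (by fun_prop))
      (sigFp (.const _) (.const _) (by fun_prop) (by fun_prop))))
    fun u p ⟨v, q⟩ => g ⟨u, v, p, q⟩
  obtain ⟨d', e1, e2⟩ := sep (Q := fun v => ∃ u, PP d 0 u ∧ Fp e n u v) hB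
    (.exReal (.and (sigP (.const _) (.const _) (by fun_prop))
      (sigFp (.const _) (.const _) (by fun_prop) (by fun_prop))))
    fun v p ⟨u, q, r⟩ => d2 u q ⟨v, p, r⟩
  rcases a.2 d d' with p | p | ⟨u, v, p, q, r⟩
  · exact d1 x b p
  · exact e1 y c p
  · exact e2 v q ⟨u, p, r⟩

theorem main2 : ∃ E : Baire → Baire → Prop, Equivalence E ∧ Delta11 (fun _ => E) ∧ Hypersmooth E ∧
    ¬ ∃ F : ℕ → Baire → Baire → Prop, Delta11 F ∧ (∀ n, Smooth (F n)) ∧ Monotone F ∧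
      ∀ x y, E x y ↔ ∃ n, F n x y := by
  obtain ⟨τ, hτ, h⟩ := fix sigBad
  have hb : ∀ e, ∃ z, ∀ l, τ e (encode (pre z l)) = 0 := fun e => by
    by_contra hn
    exact hn ((h e).mpr (bad_of (konig hn) e))
  choose β hβ using id hb
  have hD : Del fun x : Baire => In (τ (x 0)) x := delIn (hτ.comp (.eval .id (.const 0))) .id
  have hE : Del fun p : ℕ × Baire × Baire => On (fun x => In (τ (x 0)) x) Ea p.2.1 p.2.2 :=
    (Del.eqReal (by fun_prop) (by fun_prop)).or ((Del.eqAtom (.eval (by fun_prop) (.const 0))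
      (.eval (by fun_prop) (.const 0))).and ((hD.comp (by fun_prop)).and
      ((hD.comp (by fun_prop)).and (delEa (by fun_prop) (by fun_prop)))))
  refine ⟨On (fun x => In (τ (x 0)) x) Ea, eqv_On eqv_Ea, ⟨(sig_iff_sigma11 _).mp hE.1,
    (sig_iff_sigma11 _).mp hE.2⟩, records (measurableSet_setOfPred.mp (meas hD)) β
    (fun x hx => hx.1) fun x hx => hx.2.small (hβ _), ?_⟩
  rintro ⟨F, h1, h2, h3, h4⟩
  obtain ⟨e, he⟩ := valid (P := fun a w => F a (lft w) (rgt w)) (Del.comp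
    (P := fun p : ℕ × Baire × Baire => F p.1 p.2.1 p.2.2) ⟨(sig_iff_sigma11 _).mpr h1.1,
      (sig_iff_sigma11 fun a x y => ¬ F a x y).mpr h1.2⟩
    (F := fun p : ℕ × Baire => (p.1, lft p.2, rgt p.2)) (by fun_prop))
  choose φ hφ hF using h2
  have a1 : ∀ n x y, Fp e n x y ↔ F n x y := fun n x y => by simpa [Fp] using (he n (join x y)).1
  have a2 : ∀ n x y, Fq e n x y ↔ ¬ F n x y := fun n x y => by simpa [Fq] using (he n (join x y)).2
  obtain ⟨x, y, z, n, m, b | ⟨b1, b2, b3, b4⟩ | b | ⟨b1, b2, b3, b4, b5⟩⟩ := (h e).mp (hb e)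
  · exact (a2 _ _ _).mp b ((hF _ _ _).mpr rfl)
  · rw [a1, hF] at b2 b3
    exact (a2 _ _ _).mp b4 (h3 b1 _ _ ((hF _ _ _).mpr (b2.symm.trans b3)))
  · exact not_near (hφ n) (fun x y a => (hF _ _ _).mp ((a1 _ _ _).mp a))
      (fun x y a c => (a2 _ _ _).mp a ((hF _ _ _).mpr c)) x y b
  have a3 : Ea x y ↔ ∃ n, F n x y := by
    rw [← h4]
    refine ⟨fun g => Or.inr ⟨b1.trans b2.symm, by rwa [← b1] at b3, by rwa [← b2] at b4, g⟩, ?_⟩
    rintro (rfl | g)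
    · exact eqv_Ea.refl _
    · exact g.2.2.2
  rcases b5 with ⟨c1, c2⟩ | ⟨c1, c2⟩
  · obtain ⟨n, hn⟩ := a3.mp c1
    exact (a2 _ _ _).mp (c2 n) hn
  · exact c1 (a3.mpr ⟨n, (a1 _ _ _).mp c2⟩)

end Pool.Agent.EffHyp.H38
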