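import Pool.Agent.Lib.MP_5ddd96_lc.Sig2

/-!
Every number codes a pair of `Σ¹₁` families that cover everything, and every `Δ¹₁` family with its
complement is such a pair.
-/

set_option autoImplicit false

namespace Pool.Agent.EffHyp.H38

open Encodable Nat.Partrec

theorem pre_succ (z : Baire) (n : ℕ) : pre z (n + 1) = pre z n ++ [z n] := by
  rw [RawAux.pre_eq, RawAux.pre_eq, List.range_succ, List.map_append]
  rfl

def G0 (S T : List ℕ → Prop) : Prop := ∃ W : List ℕ → List ℕ → Prop, W [] [] ∧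
  ∀ u v, W u v → (S u → T v) ∧ ∃ b, ∀ c, W (u ++ [b]) (v ++ [c])

def G1 (S T : List ℕ → Prop) : Prop := ∃ W : List ℕ → List ℕ → Prop, W [] [] ∧
  ∀ u v, W u v → (T v → S u) ∧ ∀ b, ∃ c, W (u ++ [b]) (v ++ [c])

section
variable {S T : List ℕ → Prop}

theorem cover (hS : ∀ u b, S u → S (u ++ [b])) (hT : ∀ u b, T u → T (u ++ [b])) :
    G0 S T ∨ G1 S T := by
  let M : List ℕ → List ℕ → Prop := fun x y => ∃ W : List ℕ → List ℕ → Prop, W x y ∧
    ∀ u v, W u v → (S u → T v) ∧ ∃ b, ∀ c, W (u ++ [b]) (v ++ [c])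
  have h1 : ∀ u v, M u v → (S u → T v) ∧ ∃ b, ∀ c, M (u ++ [b]) (v ++ [c]) := by
    rintro u v ⟨W, h, hW⟩
    exact ⟨(hW u v h).1, (hW u v h).2.imp fun b hb c => ⟨W, hb c, hW⟩⟩
  refine or_iff_not_imp_left.mpr fun h => ⟨fun u v => S u ∨ ¬ M u v, Or.inr h, ?_⟩
  rintro u v (h | h)
  · exact ⟨fun _ => h, fun b => ⟨0, Or.inl (hS u b h)⟩⟩
  refine ⟨fun hv => absurd ⟨fun _ y => T y, hv, fun x y hy =>
    ⟨fun _ => hy, 0, fun c => hT y c hy⟩⟩ h, fun b => ?_⟩
  by_contra hn
  simp only [not_exists, not_or, not_not] at hn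
  refine h ⟨fun x y => M x y ∨ (x = u ∧ y = v), Or.inr ⟨rfl, rfl⟩, ?_⟩
  rintro x y (h | ⟨rfl, rfl⟩)
  · exact ⟨(h1 x y h).1, (h1 x y h).2.imp fun b hb c => Or.inl (hb c)⟩
  · exact ⟨fun hx => absurd (hS x b hx) (hn 0).1, b, fun c => Or.inl (hn c).2⟩

theorem G0.of {z : Baire} (h : ∀ n, ¬ S (pre z n)) : G0 S T :=
  ⟨fun u _ => ∃ n, u = pre z n, ⟨0, rfl⟩, fun _ _ ⟨n, hn⟩ =>
    ⟨fun a => absurd (hn ▸ a) (h n), z n, fun _ => ⟨n + 1, by rw [pre_succ, hn]⟩⟩⟩

theorem G1.of {z : Baire} (h : ∀ n, ¬ T (pre z n)) : G1 S T :=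
  ⟨fun _ v => ∃ n, v = pre z n, ⟨0, rfl⟩, fun _ _ ⟨n, hn⟩ =>
    ⟨fun a => absurd (hn ▸ a) (h n), fun _ => ⟨z n, n + 1, by rw [pre_succ, hn]⟩⟩⟩

theorem run (b : ℕ → List ℕ → ℕ) : ∃ z : Baire, ∀ n, z n = b n (pre z n) := by
  let u : ℕ → List ℕ := fun n => Nat.rec [] (fun n l => l ++ [b n l]) n
  have : ∀ n, pre (fun n => b n (u n)) n = u n := fun n => by
    induction n with
    | zero => rfl
    | succ n ih => rw [pre_succ, ih]
  exact ⟨fun n => b n (u n), fun n => by rw [this]⟩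

theorem G0.br (h : G0 S T) {w : Baire} (hw : ∀ n, ¬ T (pre w n)) :
    ∃ z : Baire, ∀ n, ¬ S (pre z n) := by
  obtain ⟨W, h0, hW⟩ := h
  have : ∀ u v, ∃ b, W u v → ∀ c, W (u ++ [b]) (v ++ [c]) := fun u v => by
    by_cases h : W u v
    · exact (hW u v h).2.imp fun _ hb _ => hb
    · exact ⟨0, fun h' => absurd h' h⟩
  choose b hb using this
  obtain ⟨z, hz⟩ := run fun n u => b u (pre w n)
  have : ∀ n, W (pre z n) (pre w n) := fun n => by
    induction n with
    | zero => exact h0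
    | succ n ih => rw [pre_succ, pre_succ, hz]; exact hb _ _ ih _
  exact ⟨z, fun n h => hw n ((hW _ _ (this n)).1 h)⟩

theorem G1.br (h : G1 S T) {z : Baire} (hz : ∀ n, ¬ S (pre z n)) :
    ∃ w : Baire, ∀ n, ¬ T (pre w n) := by
  obtain ⟨W, h0, hW⟩ := h
  have : ∀ u v b, ∃ c, W u v → W (u ++ [b]) (v ++ [c]) := fun u v b => by
    by_cases h : W u v
    · exact ((hW u v h).2 b).imp fun _ hb _ => hb
    · exact ⟨0, fun h' => absurd h' h⟩
  choose c hc using this
  obtain ⟨w, hw⟩ := run fun n v => c (pre z n) v (z n)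
  have : ∀ n, W (pre z n) (pre w n) := fun n => by
    induction n with
    | zero => exact h0
    | succ n ih => rw [pre_succ, pre_succ, hw]; exact hc _ _ _ ih
  exact ⟨w, fun n h => hz n ((hW _ _ (this n)).1 h)⟩

end

def ev (p n : ℕ) : Bool :=
  decide (Code.evaln p.unpair.1 (Denumerable.ofNat Code p.unpair.2) n = some 0)

theorem ev_prim : Primrec₂ ev :=
  (Primrec.eq.comp (Code.primrec_evaln.comp
    (((Primrec.fst.comp (Primrec.unpair.comp Primrec.fst)).pair ((Primrec.ofNat Code).comp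
      (Primrec.snd.comp (Primrec.unpair.comp Primrec.fst)))).pair Primrec.snd))
    (Primrec.const (some 0))).decide

def Rej (e a : ℕ) (x : Baire) (u : List ℕ) : Prop :=
  ∃ l s, l ≤ u.length ∧ s ≤ u.length ∧ ev (Nat.pair s e) (Nat.pair a (Nat.pair (encode (pre x l))
    (Nat.pair (encode (pre x l)) (encode (u.take l))))) = true

theorem Rej.mono {e a : ℕ} {x : Baire} (u : List ℕ) (b : ℕ) : Rej e a x u → Rej e a x (u ++ [b]) :=
  fun ⟨l, s, h1, h2, h3⟩ => ⟨l, s, by simp; omega, by simp; omega, by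
    rwa [List.take_append_of_le_length h1]⟩

theorem exists_rej {R : ℕ → Baire → Baire → Prop} (h : Sigma11 R) :
    ∃ e, ∀ a x, R a x x ↔ ∃ z, ∀ n, ¬ Rej e a x (pre z n) := by
  obtain ⟨f, hf, h⟩ := h
  obtain ⟨c, hc⟩ := Code.exists_code.mp hf
  have h1 : ∀ p, (∃ s, ev (Nat.pair s (encode c)) (encode p) = true) ↔ f p = false := fun p => by
    simp only [ev, Nat.unpair_pair, Denumerable.ofNat_encode, decide_eq_true_eq]
    refine (Code.evaln_complete (x := 0)).symm.trans ?_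
    rw [hc]
    simp only [encodek]
    cases h : f p <;> simp [h]
  refine ⟨encode c, fun a x => (h a x x).trans (exists_congr fun z => ⟨?_, fun hz l => ?_⟩)⟩
  · rintro hz n ⟨l, s, a1, -, a2⟩
    rw [RawAux.take_pre z (by rwa [RawAux.length_pre] at a1)] at a2
    exact absurd ((h1 (a, pre x l, pre x l, pre z l)).mp ⟨s, a2⟩) (by simp [hz l])
  · by_contra hn
    obtain ⟨s, hs⟩ := (h1 _).mpr (Bool.eq_false_iff.mpr hn)
    refine hz (l + s) ⟨l, s, by simp [RawAux.length_pre], by simp [RawAux.length_pre], ?_⟩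
    rwa [RawAux.take_pre z (by omega)]

def PP (e a : ℕ) (x : Baire) : Prop := G0 (Rej e.unpair.1 a x) (Rej e.unpair.2 a x)

def QQ (e a : ℕ) (x : Baire) : Prop := G1 (Rej e.unpair.1 a x) (Rej e.unpair.2 a x)

theorem PQ (e a : ℕ) (x : Baire) : PP e a x ∨ QQ e a x := cover Rej.mono Rej.mono

theorem valid {P : ℕ → Baire → Prop} (h : Del fun p : ℕ × Baire => P p.1 p.2) :
    ∃ e, ∀ a x, (PP e a x ↔ P a x) ∧ (QQ e a x ↔ ¬ P a x) := by
  have h' : Del fun p : ℕ × Baire × Baire => P p.1 p.2.1 :=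
    h.comp (F := fun p : ℕ × Baire × Baire => (p.1, p.2.1)) (by fun_prop)
  obtain ⟨e, he⟩ := exists_rej ((sig_iff_sigma11 fun a x _ => P a x).mp h'.1)
  obtain ⟨e', he'⟩ := exists_rej ((sig_iff_sigma11 fun a x _ => ¬ P a x).mp h'.2)
  refine ⟨Nat.pair e e', fun a x => ?_⟩
  simp only [PP, QQ, Nat.unpair_pair]
  by_cases hP : P a x
  · obtain ⟨z, hz⟩ := (he a x).mp hP
    exact ⟨iff_of_true (.of hz) hP, fun h => (he' a x).mpr (h.br hz), fun h => absurd hP h⟩
  · obtain ⟨z, hz⟩ := (he' a x).mp hP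
    exact ⟨⟨fun h => (he a x).mpr (h.br hz), fun h => absurd h hP⟩, iff_of_true (.of hz) hP⟩

variable {S : Type} [Coded S]

@[fun_prop] theorem dPair {A B : S → ℕ} (hA : DFun A) (hB : DFun B) :
    DFun fun s => Nat.pair (A s) (B s) := DFun.prim₂ Primrec₂.natPair.to_comp hA hB

@[fun_prop] theorem dEnc {A : S → List ℕ} (hA : DFun A) : DFun fun s => encode (A s) :=
  DFun.prim₁ (φ := fun w : List ℕ => encode w) Computable.encode hA

@[fun_prop] theorem dTake {A : S → ℕ} {B : S → List ℕ} (hA : DFun A) (hB : DFun B) :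
    DFun fun s => List.take (A s) (B s) :=
  DFun.prim₂ (φ := List.take) Primrec.list_take.to_comp hA hB

@[fun_prop] theorem dApp {A B : S → List ℕ} (hA : DFun A) (hB : DFun B) :
    DFun fun s => A s ++ B s := DFun.prim₂ Primrec.list_append.to_comp hA hB

@[fun_prop] theorem dCons {A : S → ℕ} {B : S → List ℕ} (hA : DFun A) (hB : DFun B) :
    DFun fun s => A s :: B s := DFun.prim₂ (φ := List.cons) Primrec.list_cons.to_comp hA hB

@[fun_prop] theorem dUn {A : S → ℕ} (hA : DFun A) : DFun fun s => Nat.unpair (A s) :=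
  (DFun.prim₁ (φ := fun n : ℕ => n.unpair.1) (Primrec.fst.comp Primrec.unpair).to_comp hA).prodMk
    (DFun.prim₁ (φ := fun n : ℕ => n.unpair.2) (Primrec.snd.comp Primrec.unpair).to_comp hA)

theorem delRej {E A : S → ℕ} {X : S → Baire} {U : S → List ℕ} (hE : DFun E) (hA : DFun A)
    (hX : DFun X) (hU : DFun U) : Del fun s => Rej (E s) (A s) (X s) (U s) :=
  .ex (.ex (.and (.le (by fun_prop) (by fun_prop)) (.and (.le (by fun_prop) (by fun_prop))
    (.test (DFun.prim₂ ev_prim.to_comp (by fun_prop) (by fun_prop))))))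

theorem ex_code {φ : (List ℕ → List ℕ → Prop) → Prop} :
    (∃ W, φ W) ↔ ∃ Y : Baire, φ fun u v => Y (Nat.pair (encode u) (encode v)) = 0 := by
  classical
  refine ⟨fun ⟨W, h⟩ => ⟨fun n => if ∃ u v, W u v ∧ Nat.pair (encode u) (encode v) = n then 0
    else 1, ?_⟩, fun ⟨Y, h⟩ => ⟨_, h⟩⟩
  simpa [Nat.pair_eq_pair] using h

theorem delY {Y : S → Baire} {U V : S → List ℕ} (hY : DFun Y) (hU : DFun U) (hV : DFun V) :
    Del fun s => Y s (Nat.pair (encode (U s)) (encode (V s))) = 0 :=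
  .eqAtom (.eval hY (by fun_prop)) (by fun_prop)

theorem sigP {E A : S → ℕ} {X : S → Baire} (hE : DFun E) (hA : DFun A) (hX : DFun X) :
    Sig fun s => PP (E s) (A s) (X s) := by
  refine (Sig.exReal (Del.and ?_ (.all (.all (.imp ?_ (.and (.imp ?_ ?_)
    (.ex (.all ?_))))))).1).congr fun s => ex_code
  all_goals first
    | exact delY (by fun_prop) (by fun_prop) (by fun_prop)
    | exact delRej (by fun_prop) (by fun_prop) (by fun_prop) (by fun_prop)

theorem sigQ {E A : S → ℕ} {X : S → Baire} (hE : DFun E) (hA : DFun A) (hX : DFun X) :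
    Sig fun s => QQ (E s) (A s) (X s) := by
  refine (Sig.exReal (Del.and ?_ (.all (.all (.imp ?_ (.and (.imp ?_ ?_)
    (.all (.ex ?_))))))).1).congr fun s => ex_code
  all_goals first
    | exact delY (by fun_prop) (by fun_prop) (by fun_prop)
    | exact delRej (by fun_prop) (by fun_prop) (by fun_prop) (by fun_prop)

theorem closed_pre (φ : List ℕ → List ℕ → Prop) (n : ℕ) :
    IsClosed {p : Baire × Baire | φ (pre p.1 n) (pre p.2 n)} := by
  have : Continuous fun p : Baire × Baire =>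
      ((fun i : Fin n => p.1 i), fun i : Fin n => p.2 i) := by fun_prop
  exact (isClosed_discrete {q : (Fin n → ℕ) × (Fin n → ℕ) |
    φ (List.ofFn q.1) (List.ofFn q.2)}).preimage this

theorem analytic {P : Baire → Prop} (h : Sig P) : MeasureTheory.AnalyticSet {x | P x} := by
  obtain ⟨f, -, hf⟩ := (sig_iff_sigma11 fun _ x _ => P x).mp (h.comp (by fun_prop))
  have hc : IsClosed {p : Baire × Baire | ∀ n, f (0, pre p.1 n, pre p.1 n, pre p.2 n) = true} := by
    rw [Set.ofPred_forall]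
    exact isClosed_iInter fun n => closed_pre (fun a b => f (0, a, a, b) = true) n
  have : {x | P x} = Prod.fst '' {p : Baire × Baire |
      ∀ n, f (0, pre p.1 n, pre p.1 n, pre p.2 n) = true} := by
    ext x; simp [hf 0 x x]
  exact this ▸ hc.analyticSet.image_of_continuous continuous_fst

theorem meas {P : Baire → Prop} (h : Del P) : MeasurableSet {x | P x} :=
  (analytic h.1).measurableSet_of_compl (analytic h.2)

end Pool.Agent.EffHyp.H38
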