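import Pool.Agent.Lib.MP_5ddd96_lc.H38.Core2

/-!
Iterated products of an ultrafilter, on lists.
-/

set_option autoImplicit false

namespace Pool.Agent.Lib.MP_5ddd96_lc.H38

open Filter List

noncomputable def V (U : Ultrafilter ℕ) : ℕ → Ultrafilter (List ℕ)
  | 0 => pure []
  | n + 1 => U.bind fun a => (V U n).map (a :: ·)

noncomputable def W (U : Ultrafilter ℕ) : Ultrafilter (List ℕ) := (hyperfilter ℕ).bind (V U)

variable {U : Ultrafilter ℕ}

theorem V_zero {φ : List ℕ → Prop} : (∀ᶠ t : List ℕ in V U 0, φ t) ↔ φ [] := Iff.rfl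

theorem V_succ {n : ℕ} {φ : List ℕ → Prop} :
    (∀ᶠ t : List ℕ in V U (n + 1), φ t) ↔ ∀ᶠ a in U, ∀ᶠ t : List ℕ in V U n, φ (a :: t) :=
  Filter.eventually_bind

theorem W_iff {φ : List ℕ → Prop} :
    (∀ᶠ t : List ℕ in W U, φ t) ↔ ∀ᶠ n in hyperfilter ℕ, ∀ᶠ t : List ℕ in V U n, φ t :=
  Filter.eventually_bind

theorem V_len (n : ℕ) : ∀ᶠ t : List ℕ in V U n, t.length = n := by
  induction n with
  | zero => exact V_zero.mpr rfl
  | succ n ih => exact V_succ.mpr (Eventually.of_forall fun a => ih.mono fun t h => by simp [h])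

theorem V_sub (n : ℕ) : ∀ (m : ℕ) (φ : List ℕ → Prop), (∀ᶠ s : List ℕ in V U m, φ s) →
    ∀ᶠ t : List ℕ in V U n, ∀ s, s <+ t → s.length = m → φ s := by
  induction n with
  | zero =>
    intro m φ h
    refine V_zero.mpr fun s hs hm => ?_
    obtain rfl := sublist_nil.mp hs
    subst hm
    exact V_zero.mp h
  | succ n ih =>
    intro m φ h
    have h2 : ∀ᶠ a in U, ∀ᶠ t : List ℕ in V U n, ∀ s, s <+ t → s.length + 1 = m → φ (a :: s) := by
      cases m with
      | zero => exact .of_forall fun a => .of_forall fun t s _ h => absurd h (by omega)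
      | succ m =>
        exact (V_succ.mp h).mono fun a ha => (ih m _ ha).mono fun t ht s h1 h2 =>
          ht s h1 (by omega)
    refine V_succ.mpr (h2.mono fun a ha => (ha.and (ih m φ h)).mono fun t ht s hs hm => ?_)
    rcases sublist_cons_iff.mp hs with h1 | ⟨s, rfl, h1⟩
    · exact ht.2 s h1 hm
    · exact ht.1 s h1 hm

theorem V_add (k m : ℕ) : ∀ φ : List ℕ → List ℕ → Prop,
    (∀ᶠ t : List ℕ in V U (k + m), φ (t.take m) (t.drop m)) →
      ∀ᶠ a : List ℕ in V U m, ∀ᶠ b : List ℕ in V U k, φ a b := by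
  induction m with
  | zero => exact fun φ h => V_zero.mpr h
  | succ m ih =>
    exact fun φ h => V_succ.mpr ((V_succ.mp h).mono fun a ha => ih (fun s => φ (a :: s)) ha)

theorem W_len (k : ℕ) : ∀ᶠ t : List ℕ in W U, k ≤ t.length :=
  W_iff.mpr (Eventually.mono (Set.finite_lt_nat k).compl_mem_hyperfilter fun n hn =>
    (V_len n).mono fun _ ht => ht ▸ not_lt.mp hn)

theorem W_of_V {m : ℕ} {φ : List ℕ → Prop} (h : ∀ᶠ s : List ℕ in V U m, φ s) :
    ∀ᶠ t : List ℕ in W U, ∀ s, s <+ t → m ≤ s.length → φ (s.take m) :=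
  W_iff.mpr (.of_forall fun n => (V_sub n m φ h).mono fun _ ht s h1 h2 =>
    ht _ ((take_sublist _ _).trans h1) (by simp [h2]))

theorem W_take {m : ℕ} {φ : List ℕ → Prop} (h : ∀ᶠ s : List ℕ in V U m, φ s) :
    ∀ᶠ t : List ℕ in W U, φ (t.take m) :=
  ((W_of_V h).and (W_len m)).mono fun t ht => ht.1 t (Sublist.refl t) ht.2

theorem V_of_W {m : ℕ} {φ : List ℕ → Prop} (h : ∀ᶠ t : List ℕ in W U, φ (t.take m)) :
    ∀ᶠ s : List ℕ in V U m, φ s := by
  by_contra hn
  obtain ⟨t, h1, h2⟩ := ((W_take (Ultrafilter.eventually_not.mpr hn)).and h).exists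
  exact h1 h2

theorem W_gen {m : ℕ} {φ : List ℕ → Prop} (hφ : ∀ a, φ (a.take m) ↔ φ a)
    (h : ∀ᶠ a : List ℕ in W U, φ a) : ∀ᶠ t : List ℕ in W U, ∀ s, s <+ t → m ≤ s.length → φ s :=
  (W_of_V (V_of_W (h.mono fun a ha => (hφ a).mpr ha))).mono fun _ ht s h1 h2 =>
    (hφ s).mp (ht s h1 h2)

theorem W_erase {m : ℕ} {φ : List ℕ → Prop} (hφ : ∀ a, φ (a.take m) ↔ φ a)
    (h : ∀ᶠ a : List ℕ in W U, φ a) : ∀ᶠ t : List ℕ in W U, ∀ i, φ (t.eraseIdx i) :=
  ((W_gen hφ h).and (W_len (m + 1))).mono fun t ht i => ht.1 _ (eraseIdx_sublist _ _) (by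
    have := ht.2
    rw [length_eraseIdx]; split_ifs <;> omega)

variable {L : Type} {m : L → ℕ} {E : L → List ℕ → L}

theorem faces : Faces (W U) (fun s t => E s (t.take (m s))) fun i R s => ∀ᶠ v : List ℕ in W U,
    R (E s ((v.eraseIdx i).take (m s))) (E s ((v.eraseIdx (i + 1)).take (m s))) := by
  refine ⟨fun i R R' s h hs => hs.mono fun v hv => h _ _ hv, fun i R s t hR h hs => ?_,
    fun s => ⟨m s, fun R hR h => ?_⟩⟩
  · refine ((W_erase (m := m s + m t) (fun a => ?_) h).and hs).mono fun v hv =>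
      hR.trans (hR.symm (hv.1 i)) (hR.trans hv.2 (hv.1 (i + 1)))
    simp [take_take]
  have h1 : ∀ i ≤ m s, ∀ᶠ v : List ℕ in W U,
      R (E s ((v.eraseIdx 0).take (m s))) (E s ((v.eraseIdx i).take (m s))) := fun i hi => by
    induction i with
    | zero => exact .of_forall fun v => hR.refl _
    | succ i ih => exact ((ih (by omega)).and (h i hi)).mono fun v hv => hR.trans hv.1 hv.2
  have h2 : ∀ᶠ v : List ℕ in W U, R (E s ((v.drop 1).take (m s))) (E s (v.take (m s))) :=
    (h1 _ le_rfl).mono fun v hv => by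
      rwa [take_eraseIdx_eq_take_of_le _ _ _ le_rfl, eraseIdx_zero, ← drop_one] at hv
  have h3 : ∀ᶠ v : List ℕ in W U, R (E s ((v.take (m s + m s)).take (m s)))
      (E s ((v.take (m s + m s)).drop (m s))) := by
    refine ((W_gen (m := m s + 1) (fun a => ?_) h2).and (W_len (m s + m s + 1))).mono
      fun v hv => ?_
    · simp [take_take, drop_take]
    have : ∀ j ≤ m s, R (E s (v.take (m s))) (E s ((v.drop j).take (m s))) := fun j hj => by
      induction j with
      | zero => exact hR.refl _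
      | succ j ih =>
        have := hv.1 _ (drop_sublist j v) (by have := hv.2; simp; omega)
        rw [drop_drop] at this
        exact hR.trans (ih (by omega)) (hR.symm this)
    simpa [take_take, drop_take] using this _ le_rfl
  exact W_take (φ := fun a => ∀ᶠ b : List ℕ in W U, R (E s a) (E s (b.take (m s))))
    ((V_add _ _ (fun a b => R (E s a) (E s b)) (V_of_W
      (φ := fun t => R (E s (t.take (m s))) (E s (t.drop (m s)))) h3)).mono
      fun a ha => W_take (φ := fun b => R (E s a) (E s b)) ha)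

end Pool.Agent.Lib.MP_5ddd96_lc.H38
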