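import Pool.Agent.Lib.MP_5ddd96_lc.H38.Neg

/-!
The relation generated by the two shifts is hypersmooth almost everywhere for every measure.
-/

set_option autoImplicit false

namespace Pool.Agent.Lib.MP_5ddd96_lc.H38

open Function MeasureTheory Filter Finset

theorem card_min {V ι : Type} [Fintype V] [DecidableEq V] [LinearOrder V] [DecidableEq ι]
    (O I : Finset ι) (hO : O.Nonempty) (x : ι → V) (hx : Set.InjOn x O) :
    #O * #{σ : Equiv.Perm V | ¬ ∃ z ∈ I, ∀ w ∈ O, σ (x z) ≤ σ (x w)} ≤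
      #(O \ I) * Fintype.card (Equiv.Perm V) := by
  let A : ι → Finset (Equiv.Perm V) := fun z => {σ | ∀ w ∈ O, σ (x z) ≤ σ (x w)}
  have h1 : ∀ z ∈ O, ∀ y ∈ O, #(A z) ≤ #(A y) := fun z hz y hy => by
    refine card_le_card_of_injOn (fun σ => σ * Equiv.swap (x z) (x y)) (fun σ hσ => ?_)
      fun σ _ τ _ h => mul_right_cancel h
    simp only [A, coe_filter, mem_univ, true_and, Set.mem_ofPred_eq, Equiv.Perm.mul_apply,
      Equiv.swap_apply_right] at hσ ⊢
    intro w hw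
    rw [Equiv.swap_apply_def]
    split_ifs
    · exact hσ y hy
    · exact le_rfl
    · exact hσ w hw
  have h2 : ∑ z ∈ O, #(A z) ≤ Fintype.card (Equiv.Perm V) := by
    rw [← card_biUnion fun z hz y hy hzy => ?_]
    · exact card_le_univ _
    · refine disjoint_left.mpr fun σ h h' => hzy (hx hz hy (σ.injective ?_))
      simp only [A, mem_filter, mem_univ, true_and] at h h'
      exact le_antisymm (h y hy) (h' z hz)
  have h3 : ∀ z ∈ O, #O * #(A z) ≤ Fintype.card (Equiv.Perm V) := fun z hz =>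
    (card_nsmul_le_sum O _ _ fun y hy => h1 z hz y hy).trans h2
  have h4 : ({σ : Equiv.Perm V | ¬ ∃ z ∈ I, ∀ w ∈ O, σ (x z) ≤ σ (x w)} : Finset _) ⊆
      (O \ I).biUnion A := fun σ hσ => by
    obtain ⟨z, hz, h⟩ := exists_min_image O (fun w => σ (x w)) hO
    simp only [mem_filter, mem_univ, true_and] at hσ
    exact mem_biUnion.mpr ⟨z, mem_sdiff.mpr ⟨hz, fun hI => hσ ⟨z, hI, h⟩⟩, by simpa [A] using h⟩
  calc _ ≤ #O * ∑ z ∈ O \ I, #(A z) :=
        Nat.mul_le_mul_left _ ((card_le_card h4).trans card_biUnion_le)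
    _ = ∑ z ∈ O \ I, #O * #(A z) := mul_sum _ _ _
    _ ≤ _ := sum_le_card_nsmul _ _ _ fun z hz => h3 z (mem_sdiff.mp hz).1

theorem meas_val (q : ℕ × ℕ) : Measurable fun x : Arr => x.1 q :=
  (measurable_pi_apply q).comp measurable_subtype_coe

/-- The least priority over `O` is taken in `I`. -/
def Inner (π : ℕ → ℕ) (O I : Finset (ℕ × ℕ)) (x : Arr) : Prop :=
  ∃ z ∈ I, ∀ w ∈ O, π (x.1 z) ≤ π (x.1 w)

theorem meas_min (π : ℕ → ℕ) (O : Finset (ℕ × ℕ)) (z : ℕ × ℕ) :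
    MeasurableSet {x : Arr | ∀ w ∈ O, π (x.1 z) ≤ π (x.1 w)} := by
  simp only [Set.ofPred_forall]
  exact MeasurableSet.iInter fun w => MeasurableSet.iInter fun _ => measurableSet_le
    ((measurable_from_top (f := π)).comp (meas_val z))
    ((measurable_from_top (f := π)).comp (meas_val w))

theorem meas_inner (π : ℕ → ℕ) (O I : Finset (ℕ × ℕ)) : MeasurableSet {x | Inner π O I x} := by
  have : {x | Inner π O I x} = ⋃ z ∈ I, {x : Arr | ∀ w ∈ O, π (x.1 z) ≤ π (x.1 w)} := by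
    ext x; simp [Inner]
  rw [this]
  exact I.measurableSet_biUnion fun z _ => meas_min π O z

theorem exists_prio (μ : Measure Arr) [IsProbabilityMeasure μ] (O I : Finset (ℕ × ℕ))
    (hO : O.Nonempty) (m : ℕ) (hm : m * #(O \ I) ≤ #O) {ε : ENNReal} (hε : 0 < ε) :
    ∃ π : ℕ → ℕ, Injective π ∧ μ {x | ¬ Inner π O I x} ≤ (m : ENNReal)⁻¹ + ε := by
  classical
  let B : ℕ → Set Arr := fun N => {x | ∃ w ∈ O, N ≤ x.1 w}
  have hBm : ∀ N, MeasurableSet (B N) := fun N => by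
    have : B N = ⋃ w ∈ O, {x : Arr | N ≤ x.1 w} := by ext x; simp [B]
    rw [this]
    exact O.measurableSet_biUnion fun w _ => measurableSet_le measurable_const (meas_val w)
  have hB : Tendsto (fun N => μ (B N)) atTop (nhds 0) := by
    have := tendsto_measure_iInter_atTop (μ := μ) (s := B) (fun N => (hBm N).nullMeasurableSet)
      (fun N N' h x ⟨w, hw, h'⟩ => ⟨w, hw, h.trans h'⟩) ⟨0, measure_ne_top _ _⟩
    have h0 : ⋂ N, B N = ∅ := Set.eq_empty_iff_forall_notMem.mpr fun x hx => by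
      obtain ⟨w, hw, h⟩ := Set.mem_iInter.mp hx (O.sup x.1 + 1)
      have := le_sup (f := x.1) hw
      omega
    rwa [h0, measure_empty] at this
  obtain ⟨N, hN⟩ := (hB.eventually (Iic_mem_nhds hε)).exists
  let π : Equiv.Perm (Fin (N + 1)) → ℕ → ℕ := fun σ v =>
    if h : v < N + 1 then σ ⟨v, h⟩ else v
  have hπ : ∀ σ, Injective (π σ) := fun σ v w h => by
    simp only [π] at h
    split_ifs at h with h1 h2 h2
    · exact congrArg Fin.val (σ.injective (Fin.ext h))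
    · have := (σ ⟨v, h1⟩).2; omega
    · have := (σ ⟨w, h2⟩).2; omega
    · exact h
  let S : Equiv.Perm (Fin (N + 1)) → Set Arr := fun σ => {x | ¬ Inner (π σ) O I x} \ B N
  have hSm : ∀ σ, MeasurableSet (S σ) := fun σ => (meas_inner _ O I).compl.diff (hBm N)
  have hcount : ∀ x, m * #{σ | x ∈ S σ} ≤ Fintype.card (Equiv.Perm (Fin (N + 1))) := fun x => by
    by_cases hx : x ∈ B N
    · rw [filter_false_of_mem fun σ _ h => h.2 hx]; simp
    have hlt : ∀ w ∈ O, x.1 w < N + 1 := fun w hw => by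
      by_contra h; exact hx ⟨w, hw, by omega⟩
    let y : ℕ × ℕ → Fin (N + 1) := fun w => if h : x.1 w < N + 1 then ⟨x.1 w, h⟩ else 0
    have hy : ∀ σ, ∀ w ∈ O, π σ (x.1 w) = σ (y w) := fun σ w hw => by simp only [π, y, hlt w hw, dif_pos]
    have h1 := card_min O (I ∩ O) hO y fun a ha b hb h => x.2 (by
      simpa only [y, hlt a ha, hlt b hb, dif_pos, Fin.mk.injEq] using h)
    rw [sdiff_inter_self_right] at h1
    have h2 : #{σ | x ∈ S σ} ≤ #{σ : Equiv.Perm (Fin (N + 1)) |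
        ¬ ∃ z ∈ I ∩ O, ∀ w ∈ O, σ (y z) ≤ σ (y w)} := by
      refine card_le_card fun σ hσ => ?_
      simp only [mem_filter, mem_univ, true_and] at hσ ⊢
      rintro ⟨z, hz, h⟩
      refine hσ.1 ⟨z, (mem_inter.mp hz).1, fun w hw => ?_⟩
      rw [hy σ z (mem_inter.mp hz).2, hy σ w hw]
      exact h w hw
    refine Nat.le_of_mul_le_mul_left ?_ (card_pos.mpr hO)
    calc _ = m * (#O * #{σ | x ∈ S σ}) := by ring
      _ ≤ m * (#(O \ I) * _) := Nat.mul_le_mul_left _ ((Nat.mul_le_mul_left _ h2).trans h1)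
      _ = m * #(O \ I) * _ := by ring
      _ ≤ _ := Nat.mul_le_mul_right _ hm
  have hsum : ∑ σ, (m : ENNReal) * μ (S σ) ≤ ∑ _σ : Equiv.Perm (Fin (N + 1)), 1 := by
    calc _ = ∫⁻ x, m * ∑ σ, (S σ).indicator 1 x ∂μ := by
          rw [lintegral_const_mul' _ _ (ENNReal.natCast_ne_top m),
            lintegral_finsetSum _ fun σ _ => measurable_one.indicator (hSm σ), mul_sum]
          simp only [lintegral_indicator_one (hSm _)]
      _ ≤ ∫⁻ _, (Fintype.card (Equiv.Perm (Fin (N + 1))) : ENNReal) ∂μ := lintegral_mono fun x => by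
          have := hcount x
          rw [card_filter] at this
          simp only [Set.indicator_apply, Pi.one_apply]
          exact_mod_cast this
      _ = _ := by simp
  obtain ⟨σ, -, hσ⟩ := ENNReal.exists_le_of_sum_le univ_nonempty hsum
  refine ⟨π σ, hπ σ, (measure_mono (Set.subset_sdiff_union _ (B N))).trans
    ((measure_union_le _ _).trans (add_le_add ?_ hN))⟩
  exact ENNReal.le_inv_iff_mul_le.mpr (by rwa [mul_comm])

def box (u v : ℕ) : Finset (ℕ × ℕ) := Ico u v ×ˢ Ico u v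

theorem mem_box {u v : ℕ} {z : ℕ × ℕ} :
    z ∈ box u v ↔ (u ≤ z.1 ∧ z.1 < v) ∧ u ≤ z.2 ∧ z.2 < v := by simp [box]

def top (n : ℕ) : ℕ := 4 * n + (8 * n * 2 ^ n + 1)

def Good (π : ℕ → ℕ → ℕ) (n c : ℕ) (x : Arr) : Prop :=
  Inner (π n) (box (2 * n - c) (top n + c)) (box (2 * n + c) (top n - c)) x

theorem Good.transfer {π : ℕ → ℕ → ℕ} {n c d : ℕ} {x y : Arr} {a b : ℕ × ℕ}
    (h : shift a x = shift b y) (hd : a.1 + a.2 + b.1 + b.2 ≤ d) (hn : c + d ≤ n)
    (hx : Good π n (c + d) x) : ∃ z ∈ box (2 * n + (c + d)) (top n - (c + d)),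
      ∃ z' ∈ box (2 * n + c) (top n - c), shift z x = shift z' y ∧
      (∀ w ∈ box (2 * n - (c + d)) (top n + (c + d)), π n (x.1 z) ≤ π n (x.1 w)) ∧
      ∀ w ∈ box (2 * n - c) (top n + c), π n (y.1 z') ≤ π n (y.1 w) := by
  obtain ⟨z, hz, hm⟩ := hx
  have hv : ∀ q, x.1 (q + a) = y.1 (q + b) := congrFun (congrArg Subtype.val h)
  have hz' := mem_box.mp hz
  obtain ⟨u, rfl⟩ : ∃ u, z = u + a := ⟨(z.1 - a.1, z.2 - a.2), by ext <;> simp <;> omega⟩
  simp only [Prod.fst_add, Prod.snd_add] at hz'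
  refine ⟨_, hz, u + b, mem_box.mpr ?_, by rw [← shift_shift, h, shift_shift], hm, fun w hw => ?_⟩
  · simp only [Prod.fst_add, Prod.snd_add]; omega
  · have hw' := mem_box.mp hw
    obtain ⟨t, rfl⟩ : ∃ t, w = t + b := ⟨(w.1 - b.1, w.2 - b.2), by ext <;> simp <;> omega⟩
    simp only [Prod.fst_add, Prod.snd_add] at hw'
    rw [← hv, ← hv]
    exact hm _ (mem_box.mpr (by simp only [Prod.fst_add, Prod.snd_add]; omega))

theorem card_layer (n : ℕ) : 2 ^ n * #(box (2 * n - n) (top n + n) \ box (2 * n + n) (top n - n)) ≤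
    #(box (2 * n - n) (top n + n)) := by
  rw [card_sdiff_of_subset fun z hz => by rw [mem_box] at hz ⊢; omega]
  simp only [box, card_product, Nat.card_Ico, top]
  obtain ⟨t, ht⟩ : ∃ t, t = 8 * n * 2 ^ n + 1 := ⟨_, rfl⟩
  rw [← ht, show 4 * n + t + n - (2 * n - n) = t + 4 * n by omega,
    show 4 * n + t - n - (2 * n + n) = t by omega,
    show (t + 4 * n) * (t + 4 * n) - t * t = 8 * n * (t + 2 * n) by
      rw [Nat.sub_eq_iff_eq_add (by nlinarith)]; ring, ← mul_assoc]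
  exact Nat.mul_le_mul (by nlinarith) (by omega)

theorem measure_hypersmooth : MeasureHypersmooth EE := by
  intro μ _
  have h0 : ∀ n : ℕ, ∃ π : ℕ → ℕ, Injective π ∧ μ {x | ¬ Inner π (box (2 * n - n) (top n + n))
      (box (2 * n + n) (top n - n)) x} ≤ ((2 ^ n : ℕ) : ENNReal)⁻¹ + ((2 ^ n : ℕ) : ENNReal)⁻¹ :=
    fun n => exists_prio μ _ _ ⟨(n, n), mem_box.mpr (by simp only [top]; omega)⟩ _ (card_layer n)
      (ENNReal.inv_pos.mpr (ENNReal.natCast_ne_top _))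
  choose π hπ hμ using h0
  let Y : Set Arr := {x | ∀ c, ∃ N, ∀ n, N ≤ n → Good π n c x}
  have hYm : MeasurableSet Y := by
    simp only [Y, Set.ofPred_forall, Set.ofPred_exists]
    exact .iInter fun c => .iUnion fun N => .iInter fun n => .iInter fun _ => meas_inner _ _ _
  refine ⟨Y, hYm, ?_, fun x y h hx c => ?_, ?_⟩
  · refine (prob_compl_eq_zero_iff hYm).mp ?_
    have hs : ∑' n, μ {x | ¬ Good π n n x} ≠ ⊤ := by
      refine ne_top_of_le_ne_top ?_ (ENNReal.tsum_le_tsum hμ)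
      simp only [ENNReal.tsum_add, Nat.cast_pow, Nat.cast_ofNat, ENNReal.inv_pow,
        ENNReal.tsum_geometric_two]
      exact ENNReal.add_ne_top.mpr ⟨ENNReal.ofNat_ne_top, ENNReal.ofNat_ne_top⟩
    refine (ae_eventually_notMem hs).mono fun x hx c => ?_
    obtain ⟨N, hN⟩ := eventually_atTop.mp hx
    refine ⟨N + c, fun n hn => ?_⟩
    obtain ⟨z, hz, hm⟩ := not_not.mp (hN n (by omega))
    exact ⟨z, by rw [mem_box] at hz ⊢; omega, fun w hw => hm w (by rw [mem_box] at hw ⊢; omega)⟩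
  · obtain ⟨a, b, h⟩ := (EE_iff _ _).mp h
    obtain ⟨N, hN⟩ := hx (c + (a.1 + a.2 + b.1 + b.2))
    refine ⟨N + (c + (a.1 + a.2 + b.1 + b.2)), fun n hn => ?_⟩
    obtain ⟨z, -, z', h1, -, -, h2⟩ := (hN n (by omega)).transfer h le_rfl (by omega)
    exact ⟨z', h1, h2⟩
  let M : ℕ → Arr → ℕ × ℕ → Prop := fun n x z =>
    z ∈ box (2 * n) (top n) ∧ ∀ w ∈ box (2 * n) (top n), π n (x.1 z) ≤ π n (x.1 w)
  have hM : ∀ n x z z', M n x z → M n x z' → z = z' := fun n x z z' h h' =>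
    x.2 (hπ n (le_antisymm (h.2 _ h'.1) (h'.2 _ h.1)))
  let ψ : ℕ → Arr → (ℕ × ℕ) × ℕ → Prop := fun n x p => ∃ z, M n x z ∧ x.1 (p.1 + z) = p.2
  have hψ : ∀ n, Measurable (ψ n) := fun n => measurable_pi_lambda _ fun p => by
    refine measurableSet_setOfPred.mp ?_
    simp only [ψ, M, Set.ofPred_exists, Set.ofPred_and]
    exact .iUnion fun z => ((MeasurableSet.const _).inter (meas_min _ _ z)).inter
      (measurableSet_eq_fun (meas_val _) measurable_const)
  obtain ⟨f, hf⟩ := exists_measurableEmbedding_real (ℕ → (ℕ × ℕ) × ℕ → Prop)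
  refine ⟨fun n x y => ∀ m, n ≤ m → ψ m x.1 = ψ m y.1, fun n => ⟨fun x => f fun m => ψ (n + m) x.1,
    hf.measurable.comp (measurable_pi_lambda _ fun m => (hψ _).comp measurable_subtype_coe),
    fun x y => ⟨fun h => congrArg f (funext fun m => h _ (by omega)), fun h m hm => ?_⟩⟩,
    fun n n' hn x y h m hm => h m (hn.trans hm), fun x y => ⟨fun h => ?_, fun ⟨n, h⟩ => ?_⟩⟩
  · obtain ⟨k, rfl⟩ := Nat.exists_eq_add_of_le hm
    exact congrFun (hf.injective h) k
  · obtain ⟨a, b, h⟩ := (EE_iff _ _).mp h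
    obtain ⟨N, hN⟩ := x.2 (0 + (a.1 + a.2 + b.1 + b.2))
    refine ⟨N + (0 + (a.1 + a.2 + b.1 + b.2)), fun n hn => ?_⟩
    obtain ⟨z, h0, z', h1, h2, h3, h4⟩ := (hN n (by omega)).transfer h le_rfl (by omega)
    have m1 : M n x.1 z :=
      ⟨by rw [mem_box] at h0 ⊢; omega, fun w hw => h3 w (by rw [mem_box] at hw ⊢; omega)⟩
    have m2 : M n y.1 z' := ⟨h1, h4⟩
    have hv : ∀ q, x.1.1 (q + z) = y.1.1 (q + z') := congrFun (congrArg Subtype.val h2)
    refine funext fun p => propext ⟨?_, ?_⟩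
    · rintro ⟨w, w1, w2⟩
      exact ⟨z', m2, by rw [← hv, hM _ _ _ _ m1 w1, w2]⟩
    · rintro ⟨w, w1, w2⟩
      exact ⟨z, m1, by rw [hv, hM _ _ _ _ m2 w1, w2]⟩
  · have hne : (box (2 * n) (top n)).Nonempty :=
      ⟨(2 * n, 2 * n), mem_box.mpr (by simp only [top]; omega)⟩
    obtain ⟨z, z1, z2⟩ := exists_min_image _ (fun w => π n (x.1.1 w)) hne
    obtain ⟨z', z3, z4⟩ := exists_min_image _ (fun w => π n (y.1.1 w)) hne
    refine (EE_iff _ _).mpr ⟨z, z', Subtype.ext (funext fun q => ?_)⟩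
    obtain ⟨w, w1, w2⟩ : ψ n y.1 (q, x.1.1 (q + z)) := h n le_rfl ▸ ⟨z, ⟨z1, z2⟩, rfl⟩
    rw [hM _ _ _ _ w1 ⟨z3, z4⟩] at w2
    exact w2.symm

end Pool.Agent.Lib.MP_5ddd96_lc.H38
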