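import Pool.Agent.Lib.MP_5ddd96_lc.H38.Core

/-!
Borel subsets of Baire space are decided by trees that branch along an ultrafilter.
-/

set_option autoImplicit false

namespace Pool.Agent.Lib.MP_5ddd96_lc.H38

open Filter

def pre (A : ℕ → ℕ) (n : ℕ) : List ℕ := (List.range n).map A

@[simp] theorem length_pre (A : ℕ → ℕ) (n : ℕ) : (pre A n).length = n := by simp [pre]

theorem pre_succ (A : ℕ → ℕ) (n : ℕ) : pre A (n + 1) = pre A n ++ [A n] := by
  simp [pre, List.range_succ]

theorem getD_pre (A : ℕ → ℕ) {n i : ℕ} (h : i < n) : (pre A n).getD i 0 = A i := by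
  simp [pre, List.getD_eq_getElem?_getD, h]

theorem take_pre (A : ℕ → ℕ) {n i : ℕ} (h : i ≤ n) : (pre A n).take i = pre A i := by
  simp [pre, ← List.map_take, List.take_range, h]

variable (U : Ultrafilter ℕ)

def Forces (s : List ℕ) (P : Set (ℕ → ℕ)) : Prop :=
  ∃ τ : List ℕ → Set ℕ, (∀ t, τ t ∈ U) ∧
    ∀ A, pre A s.length = s → (∀ j, s.length ≤ j → A j ∈ τ (pre A j)) → A ∈ P

def Dec (P : Set (ℕ → ℕ)) : Prop := ∀ s, Forces U s P ∨ Forces U s Pᶜ

variable {U}

theorem Forces.snoc {s : List ℕ} {P : Set (ℕ → ℕ)} (h : Forces U s P) :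
    ∀ᶠ a in U, Forces U (s ++ [a]) P := by
  obtain ⟨τ, h1, h2⟩ := h
  filter_upwards [h1 s] with a ha
  refine ⟨τ, h1, fun A hA hτ => ?_⟩
  rw [List.length_append, List.length_singleton] at hA hτ
  rw [pre_succ] at hA
  obtain ⟨e1, e2⟩ := List.append_inj' hA rfl
  refine h2 A e1 fun j hj => ?_
  rcases hj.eq_or_lt with rfl | hj
  · rw [e1, List.singleton_inj.mp e2]; exact ha
  · exact hτ j hj

theorem Forces.glue {s : List ℕ} {P : Set (ℕ → ℕ)} (h : ∀ᶠ a in U, Forces U (s ++ [a]) P) :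
    Forces U s P := by
  classical
  have : ∀ a, ∃ τ : List ℕ → Set ℕ, (∀ t, τ t ∈ U) ∧ (Forces U (s ++ [a]) P →
      ∀ A, pre A (s ++ [a]).length = s ++ [a] →
        (∀ j, (s ++ [a]).length ≤ j → A j ∈ τ (pre A j)) → A ∈ P) := fun a => by
    by_cases ha : Forces U (s ++ [a]) P
    · obtain ⟨τ, h1, h2⟩ := ha
      exact ⟨τ, h1, fun _ => h2⟩
    · exact ⟨fun _ => Set.univ, fun _ => univ_mem, fun h => absurd h ha⟩
  choose τ h1 h2 using this
  refine ⟨fun t => if t.length = s.length then {a | Forces U (s ++ [a]) P}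
    else τ (t.getD s.length 0) t, fun t => ?_, fun A hA hτ => ?_⟩
  · dsimp only
    split_ifs
    · exact h
    · exact h1 _ _
  · have h0 := hτ s.length le_rfl
    simp only [length_pre, if_true] at h0
    refine h2 _ h0 A ?_ fun j hj => ?_
    · rw [List.length_append, List.length_singleton, pre_succ, hA]
    · rw [List.length_append, List.length_singleton] at hj
      have := hτ j (by omega)
      simp only [length_pre, if_neg (show j ≠ s.length by omega)] at this
      rwa [getD_pre A (by omega)] at this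

theorem forces_keep (s : List ℕ) (P : Set (ℕ → ℕ)) :
    ∀ᶠ a in U, (Forces U (s ++ [a]) P ↔ Forces U s P) := by
  by_cases h : Forces U s P
  · exact h.snoc.mono fun a ha => iff_of_true ha h
  · exact (Ultrafilter.eventually_not.mpr fun h' => h (Forces.glue h')).mono
      fun a ha => iff_of_false ha h

theorem uni {P : ℕ → Set (ℕ → ℕ)} (hP : ∀ k, Dec U (P k)) :
    ∃ G : List ℕ → Set ℕ, (∀ t, G t ∈ U) ∧ ∀ A i, (∀ j, i ≤ j → A j ∈ G (pre A j)) →
      ∀ j, i ≤ j → ∀ k ≤ j, (A ∈ P k ↔ Forces U (pre A j) (P k)) := by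
  have : ∀ s k, ∃ τ : List ℕ → Set ℕ, (∀ t, τ t ∈ U) ∧ ∀ A, pre A s.length = s →
      (∀ j, s.length ≤ j → A j ∈ τ (pre A j)) → (A ∈ P k ↔ Forces U s (P k)) := fun s k => by
    by_cases h : Forces U s (P k)
    · obtain ⟨τ, h1, h2⟩ := id h
      exact ⟨τ, h1, fun A hA hτ => iff_of_true (h2 A hA hτ) h⟩
    · obtain ⟨τ, h1, h2⟩ := (hP k s).resolve_left h
      exact ⟨τ, h1, fun A hA hτ => iff_of_false (h2 A hA hτ) h⟩
  choose τ h1 h2 using this
  refine ⟨fun t => ⋂ j ∈ Finset.range (t.length + 1), ⋂ k ∈ Finset.range (t.length + 1),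
    τ (t.take j) k t, fun t => ?_, fun A i hA j hj k hk => ?_⟩
  · exact (biInter_finset_mem _).mpr fun j _ => (biInter_finset_mem _).mpr fun k _ => h1 _ _ _
  · refine h2 (pre A j) k A (by simp) fun m hm => ?_
    rw [length_pre] at hm
    have := hA m (by omega)
    simp only [Set.mem_iInter, length_pre, Finset.mem_range] at this
    have := this j (by omega) k (by omega)
    rwa [take_pre A hm] at this

theorem Forces.mono {s : List ℕ} {P Q : Set (ℕ → ℕ)} (h : Forces U s P) (hPQ : P ⊆ Q) :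
    Forces U s Q := by
  obtain ⟨τ, h1, h2⟩ := h
  exact ⟨τ, h1, fun A hA hτ => hPQ (h2 A hA hτ)⟩

theorem Dec.iUnion {P : ℕ → Set (ℕ → ℕ)} (hP : ∀ k, Dec U (P k)) : Dec U (⋃ k, P k) := by
  intro s
  by_cases hs : Forces U s (⋃ k, P k)
  · exact Or.inl hs
  obtain ⟨G, h1, h2⟩ := uni hP
  refine Or.inr ⟨fun t => G t ∩ {a | Forces U (t ++ [a]) (⋃ k, P k) ↔ Forces U t (⋃ k, P k)},
    fun t => inter_mem (h1 t) (forces_keep t _), fun A hA hτ hm => ?_⟩
  have h3 : ∀ j, s.length ≤ j → ¬ Forces U (pre A j) (⋃ k, P k) := fun j hj => by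
    induction j, hj using Nat.le_induction with
    | base => rwa [hA]
    | succ j hj ih => rw [pre_succ]; exact fun h => ih ((hτ j hj).2.mp h)
  obtain ⟨k, hk⟩ := Set.mem_iUnion.mp hm
  exact h3 (max k s.length) (le_max_right _ _) (((h2 A s.length (fun j hj => (hτ j hj).1) _
    (le_max_right _ _) k (le_max_left _ _)).mp hk).mono (Set.subset_iUnion P k))

theorem dec_coord (i v : ℕ) : Dec U {A | A i = v} := by
  intro s
  by_cases hi : i < s.length
  · by_cases hv : s.getD i 0 = v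
    · exact Or.inl ⟨fun _ => Set.univ, fun _ => univ_mem, fun A hA _ => by
        rw [← hA, getD_pre A hi] at hv; exact hv⟩
    · exact Or.inr ⟨fun _ => Set.univ, fun _ => univ_mem, fun A hA _ => by
        rw [← hA, getD_pre A hi] at hv; exact hv⟩
  · rcases U.mem_or_compl_mem {v} with h | h
    · exact Or.inl ⟨fun _ => {v}, fun _ => h, fun A _ hτ => hτ i (by omega)⟩
    · exact Or.inr ⟨fun _ => {v}ᶜ, fun _ => h, fun A _ hτ => hτ i (by omega)⟩

theorem dec_of_measurable {P : Set (ℕ → ℕ)} (hP : MeasurableSet P) : Dec U P := by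
  let m : MeasurableSpace (ℕ → ℕ) :=
    { MeasurableSet' := Dec U
      measurableSet_empty := fun s =>
        Or.inr ⟨fun _ => Set.univ, fun _ => univ_mem, fun A _ _ => by simp⟩
      measurableSet_compl := fun P hP s => by
        rw [compl_compl]; exact (hP s).symm
      measurableSet_iUnion := fun P hP => Dec.iUnion hP }
  have : @Measurable _ _ m MeasurableSpace.pi id :=
    @measurable_pi_lambda _ _ (fun _ : ℕ => ℕ) m (fun _ => inferInstance) id fun i =>
      @measurable_to_countable' ℕ (ℕ → ℕ) _ _ m _ fun v => dec_coord i v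
  exact this hP

end Pool.Agent.Lib.MP_5ddd96_lc.H38
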