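import Pool.Agent.Lib.MP_5ddd96_lc.H38.Rec

/-!
An increasing union of hypersmooth equivalence relations that is not hypersmooth.
-/

set_option autoImplicit false

namespace Pool.Agent.Lib.MP_5ddd96_lc.H38

def Es (s : ℕ) : (ℕ → ℕ) → (ℕ → ℕ) → Prop := On Inj fun x y => ∃ i j, Sh x y s i j

theorem meas_inj : Measurable Inj := .forall fun a => .forall fun b =>
  (measurableSet_setOfPred.mp (measurableSet_eq_fun (measurable_pi_apply (a + 1))
    (measurable_pi_apply (b + 1)))).imp measurable_const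

theorem hypersmooth_Es (s : ℕ) : Hypersmooth (Es s) := by
  refine markers meas_inj (fun x y ⟨i, j, h⟩ => ⟨j, i, h.symm⟩) (ρ := fun _ => s)
    (M := fun v x c => Last x s v c) (fun v c => meas_last measurable_const s c)
    (fun _ _ _ _ => Last.uniq) (fun x hx k => ?_) ?_ fun x y _ c c' h => ⟨c, c', h⟩
  · obtain ⟨c, -, hc⟩ := hx.last (r := s) (c := 0) (v := k + ent x s 0 + 1) (by omega)
    exact ⟨_, c, by omega, hc⟩
  · rintro x y - - - ⟨i, j, h⟩
    refine ⟨ent x s i + 1, fun v c hv hc => ?_⟩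
    have : i ≤ c := not_lt.mp fun a => (hc.2 i a).not_gt hv
    obtain ⟨t, rfl⟩ : ∃ t, c = t + i := ⟨c - i, by omega⟩
    exact ⟨t + j, hc.sh h le_rfl, h.add le_rfl t⟩

theorem mono_Es : Monotone Es := fun _ _ hs _ _ h => h.imp_right fun ⟨a, b, c, i, j, h⟩ =>
  ⟨a, b, c, i, j, fun r d hr => h r d (hs.trans hr)⟩

theorem not_hypersmooth_Es : ¬ Hypersmooth fun x y => ∃ s, Es s x y := by
  rintro ⟨F, hs, hmono, hE⟩
  choose φ hφ hF using hs
  let S : ℕ → Set (ℕ → ℕ) := fun k => {x | φ k.unpair.1 x < (Denumerable.ofNat ℚ k.unpair.2 : ℚ)}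
  have hS : ∀ n x y, Fn S n x y ↔ F n x y := fun n x y => by
    simp only [Fn, S, Nat.unpair_pair, Set.mem_ofPred_eq, hF]
    refine ⟨fun h => ?_, fun h k => by rw [h]⟩
    have h' : ∀ q : ℚ, φ n x < q ↔ φ n y < q := fun q => by
      obtain ⟨k, rfl⟩ := (Denumerable.eqv ℚ).symm.surjective q
      exact h k
    rcases lt_trichotomy (φ n x) (φ n y) with h1 | h1 | h1
    · obtain ⟨q, q1, q2⟩ := exists_rat_btwn h1
      exact absurd ((h' q).mp q1) q2.not_gt
    · exact h1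
    · obtain ⟨q, q1, q2⟩ := exists_rat_btwn h1
      exact absurd ((h' q).mpr q1) q2.not_gt
  refine no_bits 0 (S := S) (fun k => measurableSet_lt (hφ _) measurable_const)
    (fun n x y _ _ _ _ h => (hS _ _ _).mpr (hmono n.le_succ _ _ ((hS _ _ _).mp h)))
    fun x y a b c d => ?_
  simp only [hS, ← hE]
  refine ⟨fun ⟨s, h⟩ => ⟨s, Or.inr ⟨a.trans b.symm, c, d, h⟩⟩, ?_⟩
  rintro ⟨s, rfl | h⟩
  · exact eqv_Ea.refl _
  · exact ⟨s, h.2.2.2⟩

end Pool.Agent.Lib.MP_5ddd96_lc.H38
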